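import Pool.Agent.Helper18.GP.Pinch2

/-!
# The pinch: retraction and networks
-/

namespace Pool.Agent.Helper18.GP

open Relation Classical Set

variable {N : ℕ} {V : Finset (Fin N)} {G : SimpleGraph (Fin N)} {P : Fin N → ℂ}
variable {a g c : Fin N} {Γ₁ Γ₂ : Set (Fin N → ℝ)}

theorem Geo.ag (h : Geo V G P a g c Γ₁ Γ₂) : 0 ≤ dV V G P a g := h.M.nonneg _ h.da _ h.dg

theorem Geo.gc (h : Geo V G P a g c Γ₁ Γ₂) : dV V G P a g ≤ dV V G P a c := by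
  rw [h.hd]
  have : 0 ≤ dV V G P g c := h.M.nonneg _ h.dg _ h.dc
  linarith

theorem Geo.mem (h : Geo V G P a g c Γ₁ Γ₂) {ξ : Fin N → ℝ} (hξ : ξ ∈ Γ₁ ∪ Γ₂) :
    ξ ∈ Pts V G := hξ.elim (fun h' => h.s1 h') (fun h' => h.s2 h')

theorem Geo.le (h : Geo V G P a g c Γ₁ Γ₂) {ξ : Fin N → ℝ} (hξ : ξ ∈ Γ₁ ∪ Γ₂) :
    0 ≤ dK V G P (dl a) ξ ∧ dK V G P (dl a) ξ ≤ dV V G P a c := by
  refine ⟨h.M.nonneg _ h.da _ (h.mem hξ), ?_⟩
  rcases hξ with h' | h'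
  · exact (h.le1 ξ h').trans h.gc
  · exact (h.le2 ξ h').2

/-- the geodesic is isometric to an interval -/
theorem Geo.lin (h : Geo V G P a g c Γ₁ Γ₂) {ζ ζ' : Fin N → ℝ} (hζ : ζ ∈ Γ₁ ∪ Γ₂)
    (hζ' : ζ' ∈ Γ₁ ∪ Γ₂) :
    dK V G P ζ ζ' = |dK V G P (dl a) ζ - dK V G P (dl a) ζ'| := by
  have key : ∀ ζ ∈ Γ₁, ∀ ζ' ∈ Γ₂,
      dK V G P ζ ζ' = |dK V G P (dl a) ζ - dK V G P (dl a) ζ'| := by
    intro ζ hζ ζ' hζ'
    have p := h.s1 hζ
    have p' := h.s2 hζ'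
    apply le_antisymm
    · have h1 := h.M.tri ζ p _ h.dg ζ' p'
      have h2 := h.lin1 ζ hζ _ h.g1
      have h3 := h.lin2 _ h.g2 ζ' hζ'
      have h4 := h.le1 ζ hζ
      have h5 := (h.le2 ζ' hζ').1
      have e : dK V G P (dl a) (dl g) = dV V G P a g := rfl
      rw [e] at h2 h3
      rw [abs_sub_comm, abs_of_nonneg (by linarith)] at h2
      rw [abs_sub_comm, abs_of_nonneg (by linarith)] at h3
      rw [abs_sub_comm, abs_of_nonneg (by linarith)]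
      linarith
    · have t1 := h.M.tri _ h.da ζ p ζ' p'
      have t2 := h.M.tri _ h.da ζ' p' ζ p
      rw [h.M.symm ζ' p' ζ p] at t2
      rw [abs_le]
      constructor <;> linarith
  rcases hζ with h1 | h1 <;> rcases hζ' with h2 | h2
  · exact h.lin1 ζ h1 ζ' h2
  · exact key ζ h1 ζ' h2
  · rw [h.M.symm ζ (h.s2 h1) ζ' (h.s1 h2), abs_sub_comm]
    exact key ζ' h2 ζ h1
  · exact h.lin2 ζ h1 ζ' h2

/-- the 1-Lipschitz estimate for the distance from `a` -/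
theorem Geo.lip (h : Geo V G P a g c Γ₁ Γ₂) {x y : Fin N → ℝ} (hx : x ∈ Pts V G)
    (hy : y ∈ Pts V G) : |dK V G P (dl a) x - dK V G P (dl a) y| ≤ dK V G P x y := by
  have t1 := h.M.tri _ h.da x hx y hy
  have t2 := h.M.tri _ h.da y hy x hx
  rw [h.M.symm y hy x hx] at t2
  rw [abs_le]
  constructor <;> linarith

/-- continuity of the distance from `a` along the pieces -/
theorem Geo.ivt (hC : ContinuousOn (fun x => dK V G P (dl a) x) (Pts V G))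
    {T : Set (Fin N → ℝ)} (hT : T ⊆ Pts V G) {x z : Fin N → ℝ} (hj : JoinedIn T x z) {s : ℝ}
    (h1 : dK V G P (dl a) x ≤ s) (h2 : s ≤ dK V G P (dl a) z) :
    ∃ ξ ∈ T, dK V G P (dl a) ξ = s := by
  obtain ⟨γ, hγ⟩ := hj
  have hc : Continuous fun t => dK V G P (dl a) (γ t) :=
    hC.comp_continuous γ.continuous (fun t => hT (hγ t))
  have h3 : s ∈ Set.range (fun t => dK V G P (dl a) (γ t)) :=
    mem_range_of_exists_le_of_exists_ge hc ⟨0, by rw [γ.source]; exact h1⟩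
      ⟨1, by rw [γ.target]; exact h2⟩
  obtain ⟨t, ht⟩ := h3
  exact ⟨γ t, hγ t, ht⟩

theorem clamp_sum {x y σ ℓ : ℝ} (h : σ ≤ ℓ) :
    |min x σ - min y σ| + |max (min x ℓ) σ - max (min y ℓ) σ| ≤ |x - y| := by
  have e : ∀ x, min x σ + max (min x ℓ) σ = min x ℓ + σ := by
    intro x
    rcases le_total x σ with h1 | h1
    · rw [min_eq_left h1, min_eq_left (h1.trans h), max_eq_right h1]
    · rw [min_eq_right h1, max_eq_left (le_min h1 h)]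
      ring
  have key : ∀ x y : ℝ, x ≤ y →
      |min x σ - min y σ| + |max (min x ℓ) σ - max (min y ℓ) σ| ≤ |x - y| := by
    intro x y hxy
    have m1 : min x σ ≤ min y σ := min_le_min_right _ hxy
    have m2 : max (min x ℓ) σ ≤ max (min y ℓ) σ := max_le_max_right _ (min_le_min_right _ hxy)
    rw [abs_sub_comm, abs_of_nonneg (sub_nonneg.2 m1), abs_sub_comm (max (min x ℓ) σ),
      abs_of_nonneg (sub_nonneg.2 m2), abs_sub_comm x y, abs_of_nonneg (sub_nonneg.2 hxy)]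
    have e1 := e x
    have e2 := e y
    have m3 : min y ℓ - min x ℓ ≤ y - x := by
      rcases le_total x ℓ with h1 | h1
      · rw [min_eq_left h1]
        have := min_le_left y ℓ
        linarith
      · rw [min_eq_right h1, min_eq_right (h1.trans hxy)]
        linarith
    linarith
  rcases le_total x y with h1 | h1
  · exact key x y h1
  · have := key y x h1
    rw [abs_sub_comm (min x σ), abs_sub_comm (max (min x ℓ) σ), abs_sub_comm x y]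
    exact this

/-- points of the geodesic at every height -/
theorem Geo.pt (h : Geo V G P a g c Γ₁ Γ₂)
    (hC : ContinuousOn (fun x => dK V G P (dl a) x) (Pts V G)) {s : ℝ} (h0 : 0 ≤ s)
    (h1 : s ≤ dV V G P a c) : ∃ ξ ∈ Γ₁ ∪ Γ₂, dK V G P (dl a) ξ = s := by
  rcases le_total s (dV V G P a g) with hs | hs
  · obtain ⟨ξ, hξ, e⟩ := Geo.ivt hC h.s1 h.j1 (by rw [h.M.self _ h.da]; exact h0) hs
    exact ⟨ξ, Or.inl hξ, e⟩
  · obtain ⟨ξ, hξ, e⟩ := Geo.ivt hC h.s2 h.j2 hs h1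
    exact ⟨ξ, Or.inr hξ, e⟩

/-- the two retractions -/
theorem Geo.retr (hnc : ∀ a ∈ V, ∀ b ∈ V, ∀ c ∈ V, ∀ d ∈ V, G.Adj a b → G.Adj c d → ¬ Crs a b c d)
    (h : Geo V G P a g c Γ₁ Γ₂)
    (hC : ContinuousOn (fun x => dK V G P (dl a) x) (Pts V G)) :
    ∃ ρ₁ ρ₂ : (Fin N → ℝ) → (Fin N → ℝ), (∀ x ∈ Pts V G, ρ₁ x ∈ Pts V G ∧ ρ₂ x ∈ Pts V G) ∧
      (∀ x ∈ Pts V G, ∀ y ∈ Pts V G,
        dK V G P (ρ₁ x) (ρ₁ y) + dK V G P (ρ₂ x) (ρ₂ y) ≤ dK V G P x y) ∧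
      (∀ v ∈ Arc V a g, dK V G P (dl v) (ρ₁ (dl v)) = 0 ∧ dK V G P (dl g) (ρ₂ (dl v)) = 0) ∧
      (∀ v ∈ Arc V g c, dK V G P (dl g) (ρ₁ (dl v)) = 0 ∧ dK V G P (dl v) (ρ₂ (dl v)) = 0) := by
  set σ := dV V G P a g with hσ
  set ℓ := dV V G P a c with hℓ
  have hσ0 : 0 ≤ σ := h.ag
  have hσℓ : σ ≤ ℓ := h.gc
  set τ : (Fin N → ℝ) → ℝ := fun x => dK V G P (dl a) x with hτ
  have hτ0 : ∀ x ∈ Pts V G, 0 ≤ τ x := fun x hx => h.M.nonneg _ h.da x hx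
  have hp : ∀ s : ℝ, ∃ ξ ∈ Γ₁ ∪ Γ₂, 0 ≤ s → s ≤ ℓ → τ ξ = s := by
    intro s
    by_cases hs : 0 ≤ s ∧ s ≤ ℓ
    · obtain ⟨ξ, hξ, e⟩ := h.pt hC hs.1 hs.2
      exact ⟨ξ, hξ, fun _ _ => e⟩
    · exact ⟨dl a, Or.inl h.a1, fun h1 h2 => absurd ⟨h1, h2⟩ hs⟩
  choose γ hγm hγτ using hp
  have hγP : ∀ s, γ s ∈ Pts V G := fun s => h.mem (hγm s)
  have hgΓ : dl g ∈ Γ₁ ∪ Γ₂ := Or.inl h.g1
  have hτg : τ (dl g) = σ := rfl
  -- distances on the geodesic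
  have hd : ∀ ξ ∈ Γ₁ ∪ Γ₂, ∀ s, 0 ≤ s → s ≤ ℓ → dK V G P ξ (γ s) = |τ ξ - s| := by
    intro ξ hξ s h0 h1
    rw [h.lin hξ (hγm s)]
    change |τ ξ - τ (γ s)| = _
    rw [hγτ s h0 h1]
  have hdγ : ∀ s, 0 ≤ s → s ≤ ℓ → ∀ t, 0 ≤ t → t ≤ ℓ → dK V G P (γ s) (γ t) = |s - t| := by
    intro s h0 h1 t h2 h3
    rw [hd (γ s) (hγm s) t h2 h3, hγτ s h0 h1]
  set L := cL V G a g Γ₁ Γ₂ with hL
  set R := cR V G g c Γ₁ Γ₂ with hR
  have hLR : ∀ x, L x → R x → False := fun x h1 h2 => h.LR hnc h1 h2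
  have hLΓ : ∀ x ∈ Γ₁ ∪ Γ₂, ¬ L x := by
    rintro x hx ⟨v, -, -, hj⟩
    exact hj.source_mem.2 hx
  have hRΓ : ∀ x ∈ Γ₁ ∪ Γ₂, ¬ R x := by
    rintro x hx ⟨v, -, -, hj⟩
    exact hj.source_mem.2 hx
  set ρ₁ : (Fin N → ℝ) → (Fin N → ℝ) := fun x =>
    if L x then x else if R x then dl g else γ (min (τ x) σ) with hρ1
  set ρ₂ : (Fin N → ℝ) → (Fin N → ℝ) := fun x =>
    if L x then dl g else if R x then x else γ (max (min (τ x) ℓ) σ) with hρ2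
  have r1L : ∀ x, L x → ρ₁ x = x ∧ ρ₂ x = dl g := fun x hx => by
    rw [hρ1, hρ2]; simp [hx]
  have r1R : ∀ x, R x → ρ₁ x = dl g ∧ ρ₂ x = x := fun x hx => by
    have : ¬ L x := fun h' => hLR x h' hx
    rw [hρ1, hρ2]; simp [hx, this]
  have r1O : ∀ x, ¬ L x → ¬ R x → ρ₁ x = γ (min (τ x) σ) ∧ ρ₂ x = γ (max (min (τ x) ℓ) σ) :=
    fun x h1 h2 => by rw [hρ1, hρ2]; simp [h1, h2]
  have b1 : ∀ x ∈ Pts V G, 0 ≤ min (τ x) σ ∧ min (τ x) σ ≤ ℓ := fun x hx =>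
    ⟨le_min (hτ0 x hx) hσ0, (min_le_right _ _).trans hσℓ⟩
  have b2 : ∀ x ∈ Pts V G, 0 ≤ max (min (τ x) ℓ) σ ∧ max (min (τ x) ℓ) σ ≤ ℓ := fun x hx =>
    ⟨hσ0.trans (le_max_right _ _), max_le (min_le_right _ _) hσℓ⟩
  have hρP : ∀ x ∈ Pts V G, ρ₁ x ∈ Pts V G ∧ ρ₂ x ∈ Pts V G := by
    intro x hx
    by_cases h1 : L x
    · rw [(r1L x h1).1, (r1L x h1).2]; exact ⟨hx, h.dg⟩
    · by_cases h2 : R x
      · rw [(r1R x h2).1, (r1R x h2).2]; exact ⟨h.dg, hx⟩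
      · rw [(r1O x h1 h2).1, (r1O x h1 h2).2]; exact ⟨hγP _, hγP _⟩
  -- the combined distance
  have OO : ∀ x ∈ Pts V G, ∀ y ∈ Pts V G, ¬ L x → ¬ R x → ¬ L y → ¬ R y →
      dK V G P (ρ₁ x) (ρ₁ y) + dK V G P (ρ₂ x) (ρ₂ y) ≤ dK V G P x y := by
    intro x hx y hy l1 l2 l3 l4
    rw [(r1O x l1 l2).1, (r1O x l1 l2).2, (r1O y l3 l4).1, (r1O y l3 l4).2,
      hdγ _ (b1 x hx).1 (b1 x hx).2 _ (b1 y hy).1 (b1 y hy).2,
      hdγ _ (b2 x hx).1 (b2 x hx).2 _ (b2 y hy).1 (b2 y hy).2]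
    refine le_trans ?_ (h.lip hx hy)
    change _ ≤ |τ x - τ y|
    exact clamp_sum hσℓ
  -- left points
  have hLP : ∀ x, L x → x ∈ Pts V G := by
    rintro x ⟨v, -, -, hj⟩
    exact hj.source_mem.1
  have hRP : ∀ x, R x → x ∈ Pts V G := by
    rintro x ⟨v, -, -, hj⟩
    exact hj.source_mem.1
  have Lξ : ∀ x, L x → ∀ ξ ∈ Γ₁ ∪ Γ₂, τ ξ ≤ σ →
      dK V G P (ρ₁ x) (ρ₁ ξ) + dK V G P (ρ₂ x) (ρ₂ ξ) ≤ dK V G P x ξ := by
    intro x hx ξ hξ hle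
    have hξP := h.mem hξ
    have h0 := hτ0 ξ hξP
    rw [(r1L x hx).1, (r1L x hx).2, (r1O ξ (hLΓ ξ hξ) (hRΓ ξ hξ)).1,
      (r1O ξ (hLΓ ξ hξ) (hRΓ ξ hξ)).2, min_eq_left hle, min_eq_left (hle.trans hσℓ),
      max_eq_right hle, hd _ hgΓ σ hσ0 hσℓ, hτg, sub_self, abs_zero, add_zero]
    have h1 := h.M.tri x (hLP x hx) ξ hξP (γ (τ ξ)) (hγP _)
    rw [hd ξ hξ (τ ξ) h0 (hle.trans hσℓ), sub_self, abs_zero, add_zero] at h1
    exact h1
  have Rξ : ∀ x, R x → ∀ ξ ∈ Γ₁ ∪ Γ₂, σ ≤ τ ξ →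
      dK V G P (ρ₁ x) (ρ₁ ξ) + dK V G P (ρ₂ x) (ρ₂ ξ) ≤ dK V G P x ξ := by
    intro x hx ξ hξ hle
    have hξP := h.mem hξ
    have h0 := hτ0 ξ hξP
    have hl : τ ξ ≤ ℓ := (h.le hξ).2
    rw [(r1R x hx).1, (r1R x hx).2, (r1O ξ (hLΓ ξ hξ) (hRΓ ξ hξ)).1,
      (r1O ξ (hLΓ ξ hξ) (hRΓ ξ hξ)).2, min_eq_right hle, min_eq_left hl,
      max_eq_left hle, hd _ hgΓ σ hσ0 hσℓ, hτg, sub_self, abs_zero, zero_add]
    have h1 := h.M.tri x (hRP x hx) ξ hξP (γ (τ ξ)) (hγP _)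
    rw [hd ξ hξ (τ ξ) h0 hl, sub_self, abs_zero, add_zero] at h1
    exact h1
  have trD : ∀ x ∈ Pts V G, ∀ y ∈ Pts V G, ∀ z ∈ Pts V G,
      dK V G P (ρ₁ x) (ρ₁ z) + dK V G P (ρ₂ x) (ρ₂ z) ≤
      (dK V G P (ρ₁ x) (ρ₁ y) + dK V G P (ρ₂ x) (ρ₂ y)) +
      (dK V G P (ρ₁ y) (ρ₁ z) + dK V G P (ρ₂ y) (ρ₂ z)) := by
    intro x hx y hy z hz
    have h1 := h.M.tri _ (hρP x hx).1 _ (hρP y hy).1 _ (hρP z hz).1
    have h2 := h.M.tri _ (hρP x hx).2 _ (hρP y hy).2 _ (hρP z hz).2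
    linarith
  have syD : ∀ x ∈ Pts V G, ∀ y ∈ Pts V G,
      dK V G P (ρ₁ x) (ρ₁ y) + dK V G P (ρ₂ x) (ρ₂ y) =
      dK V G P (ρ₁ y) (ρ₁ x) + dK V G P (ρ₂ y) (ρ₂ x) := by
    intro x hx y hy
    rw [h.M.symm _ (hρP x hx).1 _ (hρP y hy).1, h.M.symm _ (hρP x hx).2 _ (hρP y hy).2]
  -- rest against left, rest against right
  have LO : ∀ x, L x → ∀ y ∈ Pts V G, ¬ L y → ¬ R y →
      dK V G P (ρ₁ x) (ρ₁ y) + dK V G P (ρ₂ x) (ρ₂ y) ≤ dK V G P x y := by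
    intro x hx y hy l r
    obtain ⟨ξ, hξ, hle, e⟩ := h.exitL hnc hy hx l
    have h1 := Lξ x hx ξ hξ hle
    have h2 := OO ξ (h.mem hξ) y hy (hLΓ ξ hξ) (hRΓ ξ hξ) l r
    have h3 := trD x (hLP x hx) ξ (h.mem hξ) y hy
    rw [e]
    linarith
  have RO : ∀ x, R x → ∀ y ∈ Pts V G, ¬ L y → ¬ R y →
      dK V G P (ρ₁ x) (ρ₁ y) + dK V G P (ρ₂ x) (ρ₂ y) ≤ dK V G P x y := by
    intro x hx y hy l r
    obtain ⟨ξ, hξ, hle, e⟩ := h.exitR hnc hy hx r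
    have h1 := Rξ x hx ξ hξ hle
    have h2 := OO ξ (h.mem hξ) y hy (hLΓ ξ hξ) (hRΓ ξ hξ) l r
    have h3 := trD x (hRP x hx) ξ (h.mem hξ) y hy
    rw [e]
    linarith
  have LRd : ∀ x, L x → ∀ y, R y →
      dK V G P (ρ₁ x) (ρ₁ y) + dK V G P (ρ₂ x) (ρ₂ y) ≤ dK V G P x y := by
    intro x hx y hy
    have hyP := hRP y hy
    obtain ⟨ξ, hξ, hle, e⟩ := h.exitL hnc hyP hx (fun hl => hLR y hl hy)
    have h1 := Lξ x hx ξ hξ hle
    have h2 := RO y hy ξ (h.mem hξ) (hLΓ ξ hξ) (hRΓ ξ hξ)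
    have h3 := trD x (hLP x hx) ξ (h.mem hξ) y hyP
    have h4 := syD ξ (h.mem hξ) y hyP
    have h5 := h.M.symm y hyP ξ (h.mem hξ)
    rw [e]
    linarith
  have symm_of : ∀ x ∈ Pts V G, ∀ y ∈ Pts V G,
      dK V G P (ρ₁ x) (ρ₁ y) + dK V G P (ρ₂ x) (ρ₂ y) ≤ dK V G P x y →
      dK V G P (ρ₁ y) (ρ₁ x) + dK V G P (ρ₂ y) (ρ₂ x) ≤ dK V G P y x := by
    intro x hx y hy h1
    rw [← syD x hx y hy, h.M.symm y hy x hx]
    exact h1
  refine ⟨ρ₁, ρ₂, hρP, ?_, ?_, ?_⟩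
  · intro x hx y hy
    by_cases lx : L x
    · by_cases ly : L y
      · rw [(r1L x lx).1, (r1L x lx).2, (r1L y ly).1, (r1L y ly).2, h.M.self _ h.dg, add_zero]
      · by_cases ry : R y
        · exact LRd x lx y ry
        · exact LO x lx y hy ly ry
    · by_cases rx : R x
      · by_cases ly : L y
        · exact symm_of y hy x hx (LRd y ly x rx)
        · by_cases ry : R y
          · rw [(r1R x rx).1, (r1R x rx).2, (r1R y ry).1, (r1R y ry).2, h.M.self _ h.dg, zero_add]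
          · exact RO x rx y hy ly ry
      · by_cases ly : L y
        · exact symm_of y hy x hx (LO y ly x hx lx rx)
        · by_cases ry : R y
          · exact symm_of y hy x hx (RO y ry x hx lx rx)
          · exact OO x hx y hy lx rx ly ry
  · -- vertices of the left arc
    intro v hv
    rw [mem_Arc] at hv
    have hvP := dl_mem G hv.1
    by_cases hvΓ : dl v ∈ Γ₁ ∪ Γ₂
    · have hle : τ (dl v) ≤ σ := by
        by_cases hva : v = a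
        · rw [hva]
          change dK V G P (dl a) (dl a) ≤ σ
          rw [h.M.self _ h.da]
          exact hσ0
        · by_cases hvg : v = g
          · rw [hvg]
            exact hτg.le
          · refine h.hitL hnc hv.1 ⟨cyc_pos.2 hva, lt_of_le_of_ne hv.2 (fun e => hvg (cyc_inj e))⟩
              hvΓ (JoinedIn.refl (Or.inr rfl))
      have h0 := hτ0 _ hvP
      rw [(r1O _ (hLΓ _ hvΓ) (hRΓ _ hvΓ)).1, (r1O _ (hLΓ _ hvΓ) (hRΓ _ hvΓ)).2,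
        min_eq_left hle, min_eq_left (hle.trans hσℓ), max_eq_right hle,
        hd _ hvΓ _ h0 (hle.trans hσℓ), hd _ hgΓ _ hσ0 hσℓ, hτg]
      simp
    · have hva : v ≠ a := by
        rintro rfl
        exact hvΓ (Or.inl h.a1)
      have hvg : v ≠ g := by
        rintro rfl
        exact hvΓ hgΓ
      have hl : L (dl v) := ⟨v, hv.1, ⟨cyc_pos.2 hva, lt_of_le_of_ne hv.2 (fun e => hvg (cyc_inj e))⟩,
        JoinedIn.refl ⟨hvP, hvΓ⟩⟩
      rw [(r1L _ hl).1, (r1L _ hl).2]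
      exact ⟨h.M.self _ hvP, h.M.self _ h.dg⟩
  · intro v hv
    rw [mem_Arc] at hv
    have hvP := dl_mem G hv.1
    by_cases hvΓ : dl v ∈ Γ₁ ∪ Γ₂
    · have hle : σ ≤ τ (dl v) := by
        by_cases hvg : v = g
        · rw [hvg]
          exact hτg.ge
        · by_cases hvc : v = c
          · rw [hvc]
            exact hσℓ
          · refine h.hitR hnc hv.1 ⟨cyc_pos.2 hvg, lt_of_le_of_ne hv.2 (fun e => hvc (cyc_inj e))⟩
              hvΓ (JoinedIn.refl (Or.inr rfl))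
      have h0 := hτ0 _ hvP
      have hl : τ (dl v) ≤ ℓ := (h.le hvΓ).2
      rw [(r1O _ (hLΓ _ hvΓ) (hRΓ _ hvΓ)).1, (r1O _ (hLΓ _ hvΓ) (hRΓ _ hvΓ)).2,
        min_eq_right hle, min_eq_left hl, max_eq_left hle,
        hd _ hvΓ _ h0 hl, hd _ hgΓ _ hσ0 hσℓ, hτg]
      simp
    · have hvc : v ≠ c := by
        rintro rfl
        exact hvΓ (Or.inr h.cc2)
      have hvg : v ≠ g := by
        rintro rfl
        exact hvΓ hgΓ
      have hl : R (dl v) := ⟨v, hv.1, ⟨cyc_pos.2 hvg, lt_of_le_of_ne hv.2 (fun e => hvc (cyc_inj e))⟩,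
        JoinedIn.refl ⟨hvP, hvΓ⟩⟩
      rw [(r1R _ hl).1, (r1R _ hl).2]
      exact ⟨h.M.self _ h.dg, h.M.self _ hvP⟩

/-! ### networks -/

theorem nlen_nonneg {X : Type*} {S : Set X} {d : X → X → ℝ} (hd : ∀ x ∈ S, ∀ y ∈ S, 0 ≤ d x y)
    {E : List (X × X)} (hE : ∀ e ∈ E, e.1 ∈ S ∧ e.2 ∈ S) : 0 ≤ nlen d E := by
  unfold nlen
  apply List.sum_nonneg
  intro c hc
  rw [List.mem_map] at hc
  obtain ⟨e, he, rfl⟩ := hc
  exact hd _ (hE e he).1 _ (hE e he).2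

theorem Ln_le_net (M : MetP V G P) {B : Finset (Fin N)} {E : List ((Fin N → ℝ) × (Fin N → ℝ))}
    (hE : ∀ e ∈ E, e.1 ∈ Pts V G ∧ e.2 ∈ Pts V G) (hc : NConn E (dl '' (B : Set (Fin N)))) :
    Ln V G P B ≤ nlen (dK V G P) E := by
  apply csInf_le
  · refine ⟨0, ?_⟩
    rintro _ ⟨E', hE', -, rfl⟩
    exact nlen_nonneg M.nonneg hE'
  · exact ⟨E, hE, hc, rfl⟩

theorem nlen_append {X : Type*} (d : X → X → ℝ) (E E' : List (X × X)) :
    nlen d (E ++ E') = nlen d E + nlen d E' := by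
  unfold nlen
  rw [List.map_append, List.sum_append]

theorem eqv_map {X Y : Type*} {E : List (X × X)} {f : X → Y} {x y : X}
    (h : EqvGen (fun x y => (x, y) ∈ E) x y) :
    EqvGen (fun x y => (x, y) ∈ E.map (fun e => (f e.1, f e.2))) (f x) (f y) := by
  induction h with
  | rel x y h => exact EqvGen.rel _ _ (List.mem_map.2 ⟨(x, y), h, rfl⟩)
  | refl x => exact EqvGen.refl _
  | symm x y _ ih => exact EqvGen.symm _ _ ih
  | trans x y z _ _ ih1 ih2 => exact EqvGen.trans _ _ _ ih1 ih2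

theorem eqv_mono {X : Type*} {r s : X → X → Prop} (h : ∀ x y, r x y → s x y) {x y : X}
    (hr : EqvGen r x y) : EqvGen s x y := by
  induction hr with
  | rel x y h' => exact EqvGen.rel _ _ (h x y h')
  | refl x => exact EqvGen.refl _
  | symm x y _ ih => exact EqvGen.symm _ _ ih
  | trans x y z _ _ ih1 ih2 => exact EqvGen.trans _ _ _ ih1 ih2

theorem nlen_map_zero {X Y : Type*} (d : X → X → ℝ) (l : List Y) (f : Y → X × X)
    (h : ∀ y ∈ l, d (f y).1 (f y).2 = 0) : nlen d (l.map f) = 0 := by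
  unfold nlen
  rw [List.map_map]
  apply List.sum_eq_zero
  intro c hc
  rw [List.mem_map] at hc
  obtain ⟨y, hy, rfl⟩ := hc
  exact h y hy

/-- image network -/
theorem image_net (M : MetP V G P) {B B' : Finset (Fin N)}
    {E : List ((Fin N → ℝ) × (Fin N → ℝ))}
    (hE : ∀ e ∈ E, e.1 ∈ Pts V G ∧ e.2 ∈ Pts V G) (hc : NConn E (dl '' (B : Set (Fin N))))
    {ρ : (Fin N → ℝ) → (Fin N → ℝ)} (hρ : ∀ x ∈ Pts V G, ρ x ∈ Pts V G) {g : Fin N} (hg : g ∈ V)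
    (hB' : B' ⊆ B) (hBV : B ⊆ V) (h1 : ∀ v ∈ B', dK V G P (dl v) (ρ (dl v)) = 0) {u : Fin N}
    (hu : u ∈ B) (h2 : dK V G P (dl g) (ρ (dl u)) = 0) :
    Ln V G P (insert g B') ≤ nlen (dK V G P) (E.map (fun e => (ρ e.1, ρ e.2))) := by
  set E₁ := E.map (fun e => (ρ e.1, ρ e.2)) with hE1
  set Z : List ((Fin N → ℝ) × (Fin N → ℝ)) :=
    (B'.toList.map (fun v => (dl v, ρ (dl v)))) ++ [(dl g, ρ (dl u))] with hZ
  have hZ0 : nlen (dK V G P) Z = 0 := by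
    rw [hZ, nlen_append, nlen_map_zero _ _ _ (fun v hv => h1 v (Finset.mem_toList.1 hv))]
    simp [nlen, h2]
  have hmem : ∀ e ∈ E₁ ++ Z, e.1 ∈ Pts V G ∧ e.2 ∈ Pts V G := by
    intro e he
    rw [List.mem_append] at he
    rcases he with he | he
    · rw [hE1, List.mem_map] at he
      obtain ⟨e', he', rfl⟩ := he
      exact ⟨hρ _ (hE e' he').1, hρ _ (hE e' he').2⟩
    · rw [hZ, List.mem_append] at he
      rcases he with he | he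
      · rw [List.mem_map] at he
        obtain ⟨v, hv, rfl⟩ := he
        have hvV := hBV (hB' (Finset.mem_toList.1 hv))
        exact ⟨dl_mem G hvV, hρ _ (dl_mem G hvV)⟩
      · rw [List.mem_singleton] at he
        rw [he]
        exact ⟨dl_mem G hg, hρ _ (dl_mem G (hBV hu))⟩
  -- everything is joined to `ρ (dl u)`
  have key : ∀ x ∈ insert g B', EqvGen (fun x y => (x, y) ∈ E₁ ++ Z) (dl x) (ρ (dl u)) := by
    intro x hx
    rw [Finset.mem_insert] at hx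
    rcases hx with rfl | hx
    · apply EqvGen.rel
      rw [List.mem_append, hZ, List.mem_append]
      exact Or.inr (Or.inr (List.mem_singleton_self _))
    · have e1 : EqvGen (fun x y => (x, y) ∈ E₁ ++ Z) (dl x) (ρ (dl x)) := by
        apply EqvGen.rel
        rw [List.mem_append, hZ, List.mem_append]
        exact Or.inr (Or.inl (List.mem_map.2 ⟨x, Finset.mem_toList.2 hx, rfl⟩))
      have e2 : EqvGen (fun x y => (x, y) ∈ E₁ ++ Z) (ρ (dl x)) (ρ (dl u)) := by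
        have := eqv_map (f := ρ) (hc (dl x) ⟨x, hB' hx, rfl⟩ (dl u) ⟨u, hu, rfl⟩)
        exact eqv_mono (fun x y h => List.mem_append_left _ h) this
      exact EqvGen.trans _ _ _ e1 e2
  have hconn : NConn (E₁ ++ Z) (dl '' ((insert g B' : Finset (Fin N)) : Set (Fin N))) := by
    rintro _ ⟨x, hx, rfl⟩ _ ⟨y, hy, rfl⟩
    exact EqvGen.trans _ _ _ (key x hx) (EqvGen.symm _ _ (key y hy))
  have := Ln_le_net M hmem hconn
  rw [nlen_append, hZ0, add_zero] at this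
  exact this

theorem nlen_map_add (d : (Fin N → ℝ) → (Fin N → ℝ) → ℝ) {S : Set (Fin N → ℝ)}
    {ρ₁ ρ₂ : (Fin N → ℝ) → (Fin N → ℝ)}
    (h : ∀ x ∈ S, ∀ y ∈ S, d (ρ₁ x) (ρ₁ y) + d (ρ₂ x) (ρ₂ y) ≤ d x y)
    (E : List ((Fin N → ℝ) × (Fin N → ℝ))) (hE : ∀ e ∈ E, e.1 ∈ S ∧ e.2 ∈ S) :
    nlen d (E.map (fun e => (ρ₁ e.1, ρ₁ e.2))) + nlen d (E.map (fun e => (ρ₂ e.1, ρ₂ e.2))) ≤
      nlen d E := by
  induction E with
  | nil => simp [nlen]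
  | cons e E ih =>
    have h1 := ih (fun e' he' => hE e' (List.mem_cons_of_mem _ he'))
    have h2 := hE e List.mem_cons_self
    have h3 := h _ h2.1 _ h2.2
    simp only [nlen, List.map_cons, List.sum_cons] at h1 ⊢
    linarith

/-- the pinch lemma -/
theorem stPinch_of (hMet : stMet) (hCont : stCont) (hLn : stLnP) : stPinch := by
  intro N V G P hT a ha g hg c hc hagc hd B hB hB1 hB2
  have M := hMet N V G P hT
  have L := hLn N V G P hT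
  obtain ⟨Γ₁, Γ₂, h⟩ := Geo.exists M ha hg hc hagc hd
  have hC : ContinuousOn (fun x => dK V G P (dl a) x) (Pts V G) := by
    have h1 := hCont N V G hT
    have h2 : ContinuousOn (fun x : Fin N → ℝ =>
        ((P, (dl a, x)) : (Fin N → ℂ) × (Fin N → ℝ) × (Fin N → ℝ))) (Pts V G) := by
      fun_prop
    exact h1.comp h2 (fun x hx => ⟨dl_mem G ha, hx⟩)
  obtain ⟨ρ₁, ρ₂, hρP, hρ, hv1, hv2⟩ := h.retr hT.nc hC
  have hBV : B ⊆ V := hB.trans (Arc_sub _ _ _)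
  obtain ⟨E, hE, hEc, hEl⟩ := L.att B hBV
  obtain ⟨u1, hu1⟩ := hB1
  obtain ⟨u2, hu2⟩ := hB2
  rw [Finset.mem_inter] at hu1 hu2
  have i1 := image_net M hE hEc (fun x hx => (hρP x hx).1) hg
    (Finset.inter_subset_left : B ∩ Arc V a g ⊆ B) hBV
    (fun v hv => (hv1 v (Finset.mem_inter.1 hv).2).1) hu2.1 (hv2 u2 hu2.2).1
  have i2 := image_net M hE hEc (fun x hx => (hρP x hx).2) hg
    (Finset.inter_subset_left : B ∩ Arc V g c ⊆ B) hBV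
    (fun v hv => (hv2 v (Finset.mem_inter.1 hv).2).2) hu1.1 (hv1 u1 hu1.2).2
  have i3 := nlen_map_add (dK V G P) hρ E hE
  rw [hEl]
  linarith

end Pool.Agent.Helper18.GP
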