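import Pool.Agent.Helper18.GP.NSmin2

/-!
# Towards the existence of minimisers: congruence, continuity of `Mst`, small cases
-/

namespace Pool.Agent.Helper18.GP

open Relation Classical

variable {N : ℕ}

theorem Ch.mem_left {V : Finset (Fin N)} {G : SimpleGraph (Fin N)} {P : Fin N → ℂ}
    {x y : Fin N → ℝ} {c : ℝ} (h : Ch V G P x y c) : x ∈ Pts V G := by
  cases h with
  | nil _ hx => exact hx
  | cons _ _ _ _ hx _ _ => exact hx

theorem dev_congr {V : Finset (Fin N)} {G : SimpleGraph (Fin N)} {P P' : Fin N → ℂ}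
    (h : ∀ v ∈ V, P v = P' v) {x : Fin N → ℝ} (hx : x ∈ Pts V G) : dev P x = dev P' x := by
  unfold dev
  apply Finset.sum_congr rfl
  intro v _
  by_cases hv : x v = 0
  · rw [hv]; simp
  · rw [h v (hx.2.2.1 v hv)]

theorem Ch_congr {V : Finset (Fin N)} {G : SimpleGraph (Fin N)} {P P' : Fin N → ℂ}
    (h : ∀ v ∈ V, P v = P' v) {x y : Fin N → ℝ} {c : ℝ} (hc : Ch V G P x y c) :
    Ch V G P' x y c := by
  induction hc with
  | nil x hx => exact Ch.nil x hx
  | cons x y z c hx hs hch ih =>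
    rw [dev_congr h hx, dev_congr h hch.mem_left]
    exact Ch.cons x y z c hx hs ih

theorem dK_congr {V : Finset (Fin N)} {G : SimpleGraph (Fin N)} {P P' : Fin N → ℂ}
    (h : ∀ v ∈ V, P v = P' v) : dK V G P = dK V G P' := by
  ext x y
  unfold dK
  congr 1
  ext c
  exact ⟨fun hc => Ch_congr h hc, fun hc => Ch_congr (fun v hv => (h v hv).symm) hc⟩

theorem Ln_congr {V : Finset (Fin N)} {G : SimpleGraph (Fin N)} {P P' : Fin N → ℂ}
    (h : ∀ v ∈ V, P v = P' v) (B : Finset (Fin N)) : Ln V G P B = Ln V G P' B := by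
  unfold Ln
  rw [dK_congr h]

theorem dV_congr {V : Finset (Fin N)} {G : SimpleGraph (Fin N)} {P P' : Fin N → ℂ}
    (h : ∀ v ∈ V, P v = P' v) : dV V G P = dV V G P' := by
  ext a b
  unfold dV
  rw [dK_congr h]

theorem Wk_congr {V : Finset (Fin N)} {G : SimpleGraph (Fin N)} {P P' : Fin N → ℂ}
    (h : ∀ v ∈ V, P v = P' v) (hW : Wk V G P) : Wk V G P' := by
  intro a ha b hb c hc h1 h2 h3 h4
  rw [← h a ha, ← h b hb, ← h c hc]
  exact hW a ha b hb c hc h1 h2 h3 h4

theorem Phi_congr {V : Finset (Fin N)} {P P' : Fin N → ℂ}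
    (h : ∀ v ∈ V, P v = P' v) : Phi V P = Phi V P' := by
  unfold Phi
  refine Finset.sum_congr rfl fun a ha => Finset.sum_congr rfl fun b hb => ?_
  rw [h a ha, h b hb]

/-- if there is at most one active vertex then `Mst` vanishes -/
theorem Mst_le_zero {V A : Finset (Fin N)} {F : Fin N → Fin N → Prop} {d : Fin N → Fin N → ℝ}
    (hd : ∀ a ∈ V, ∀ b ∈ V, 0 ≤ d a b) (hF : FA V A F) (hA : ∀ a ∈ A, ∀ b ∈ A, a = b) :
    Mst V d F ≤ 0 := by
  have hm : MConn V F ∅ := by
    constructor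
    · intro e he; simp at he
    · intro x hx y hy
      obtain ⟨a, ha, h1⟩ := hF.cov x hx
      obtain ⟨b, hb, h2⟩ := hF.cov y hy
      have h3 := hA a ha b hb
      subst h3
      have key : ∀ u v, EqvGen F u v →
          EqvGen (fun x y => (x, y) ∈ (∅ : Finset (Fin N × Fin N)) ∨ F x y) u v := by
        intro u v h
        induction h with
        | rel _ _ h => exact EqvGen.rel _ _ (Or.inr h)
        | refl _ => exact EqvGen.refl _
        | symm _ _ _ ih => exact EqvGen.symm _ _ ih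
        | trans _ _ _ _ _ ih1 ih2 => exact EqvGen.trans _ _ _ ih1 ih2
      exact EqvGen.trans _ _ _ (key _ _ h1) (EqvGen.symm _ _ (key _ _ h2))
  refine le_trans (Mst_le hd hm) ?_
  simp [mw]

/-- if all distances between active vertices vanish then so does `Mst` -/
theorem Mst_le_zero' {V A : Finset (Fin N)} {F : Fin N → Fin N → Prop} {d : Fin N → Fin N → ℝ}
    (hd : ∀ a ∈ V, ∀ b ∈ V, 0 ≤ d a b) (hF : FA V A F) (hA : ∀ a ∈ A, ∀ b ∈ A, d a b ≤ 0) :
    Mst V d F ≤ 0 := by
  have hm : MConn V F (A ×ˢ A) := by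
    constructor
    · intro e he
      rw [Finset.mem_product] at he
      exact ⟨hF.AV he.1, hF.AV he.2⟩
    · intro x hx y hy
      obtain ⟨a, ha, h1⟩ := hF.cov x hx
      obtain ⟨b, hb, h2⟩ := hF.cov y hy
      have key : ∀ u v, EqvGen F u v →
          EqvGen (fun x y => (x, y) ∈ (A ×ˢ A : Finset (Fin N × Fin N)) ∨ F x y) u v := by
        intro u v h
        induction h with
        | rel _ _ h => exact EqvGen.rel _ _ (Or.inr h)
        | refl _ => exact EqvGen.refl _
        | symm _ _ _ ih => exact EqvGen.symm _ _ ih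
        | trans _ _ _ _ _ ih1 ih2 => exact EqvGen.trans _ _ _ ih1 ih2
      exact EqvGen.trans _ _ _ (key _ _ h1) (EqvGen.trans _ _ _
        (EqvGen.rel _ _ (Or.inl (Finset.mem_product.2 ⟨ha, hb⟩))) (EqvGen.symm _ _ (key _ _ h2)))
  refine le_trans (Mst_le hd hm) ?_
  unfold mw
  apply Finset.sum_nonpos
  intro e he
  rw [Finset.mem_product] at he
  exact hA _ he.1 _ he.2

theorem rho_pos : 0 < rho := by unfold rho; positivity

theorem stSmall_of (hMet : stMet) (hLn : stLnP) : stSmall := by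
  intro N n hn V G P A F hc hC
  have hMP := hMet N V G P hC.tri
  have hL := hLn N V G P hC.tri
  have hd : ∀ a ∈ V, ∀ b ∈ V, 0 ≤ dV V G P a b :=
    fun a ha b hb => hMP.nonneg _ (dl_mem G ha) _ (dl_mem G hb)
  have hLn0 := hL.nonneg A hC.AV
  have hM0 : 0 ≤ Mst V (dV V G P) F := Mst_nonneg hd
  by_cases hA : ∀ a ∈ A, ∀ b ∈ A, a = b
  · have := Mst_le_zero hd hC.FA hA
    have : Mst V (dV V G P) F = 0 := le_antisymm this hM0
    rw [this, mul_zero]
    exact hLn0
  · push Not at hA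
    obtain ⟨a, ha, b, hb, hab⟩ := hA
    have hV : V ⊆ {a, b} := by
      have h1 : ({a, b} : Finset (Fin N)) ⊆ V := by
        intro x hx
        rw [Finset.mem_insert, Finset.mem_singleton] at hx
        rcases hx with rfl | rfl
        · exact hC.AV ha
        · exact hC.AV hb
      rw [Finset.eq_of_subset_of_card_le h1 (by rw [Finset.card_pair hab]; omega)]
    have h1 := Mst_pair_le (F := F) hd hV (hC.AV ha) (hC.AV hb)
    have h2 := hL.low A hC.AV a ha b hb
    have h3 := rho_lt_one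
    have h4 := rho_pos
    nlinarith

theorem MinData.two_le (hMet : stMet) {n : ℕ} {V : Finset (Fin N)} {G : SimpleGraph (Fin N)}
    {P : Fin N → ℂ} {A : Finset (Fin N)} {F : Fin N → Fin N → Prop} {r : ℝ}
    (hM : MinData n V G P A F r) : 2 ≤ A.card := by
  by_contra hcon
  have hMP := hMet N V G P hM.cfg.tri
  have hd : ∀ a ∈ V, ∀ b ∈ V, 0 ≤ dV V G P a b :=
    fun a ha b hb => hMP.nonneg _ (dl_mem G ha) _ (dl_mem G hb)
  have := Mst_le_zero hd hM.cfg.FA (fun a ha b hb => Finset.card_le_one.1 (by omega) a ha b hb)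
  rw [hM.mst] at this
  linarith

/-! ### continuity of `Mst` -/

theorem exists_MConn (V : Finset (Fin N)) (F : Fin N → Fin N → Prop) : MConn V F (V ×ˢ V) :=
  ⟨fun _ he => Finset.mem_product.1 he, fun a ha b hb =>
    EqvGen.rel _ _ (Or.inl (Finset.mem_product.2 ⟨ha, hb⟩))⟩

theorem Mst_eq_inf' (V : Finset (Fin N)) (F : Fin N → Fin N → Prop) (w : Fin N → Fin N → ℝ) :
    Mst V w F = (Finset.univ.filter (MConn V F)).inf'
      ⟨V ×ˢ V, by simpa using exists_MConn V F⟩ (fun m => mw w m) := by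
  unfold Mst
  apply IsLeast.csInf_eq
  constructor
  · obtain ⟨m, hm, h⟩ := Finset.exists_mem_eq_inf' (s := Finset.univ.filter (MConn V F))
      ⟨V ×ˢ V, by simpa using exists_MConn V F⟩ (fun m => mw w m)
    exact ⟨m, (Finset.mem_filter.1 hm).2, h⟩
  · rintro c ⟨m, hm, rfl⟩
    exact Finset.inf'_le _ (by simpa using hm)

theorem stMAtt_holds : stMAtt := by
  intro N V w F
  rw [Mst_eq_inf']
  obtain ⟨m, hm, h⟩ := Finset.exists_mem_eq_inf' (s := Finset.univ.filter (MConn V F))
      ⟨V ×ˢ V, by simpa using exists_MConn V F⟩ (fun m => mw w m)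
  exact ⟨m, (Finset.mem_filter.1 hm).2, h.symm⟩

theorem dV_continuous (hCont : stCont) {V : Finset (Fin N)} {G : SimpleGraph (Fin N)}
    (hT : IsTri V G) {a b : Fin N} (ha : a ∈ V) (hb : b ∈ V) :
    Continuous fun P : Fin N → ℂ => dV V G P a b := by
  have h := hCont N V G hT
  have h2 : Continuous fun P : Fin N → ℂ =>
      ((P, (dl a, dl b)) : (Fin N → ℂ) × (Fin N → ℝ) × (Fin N → ℝ)) := by
    fun_prop
  exact h.comp_continuous h2 (fun P => ⟨dl_mem G ha, dl_mem G hb⟩)

theorem Mst_continuous (hCont : stCont) {V : Finset (Fin N)} {G : SimpleGraph (Fin N)}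
    (hT : IsTri V G) (F : Fin N → Fin N → Prop) :
    Continuous fun P : Fin N → ℂ => Mst V (dV V G P) F := by
  simp only [Mst_eq_inf']
  apply Continuous.finset_inf'_apply
  intro m hm
  have hm' := (Finset.mem_filter.1 hm).2
  unfold mw
  apply continuous_finsetSum
  intro e he
  exact dV_continuous hCont hT (hm'.1 e he).1 (hm'.1 e he).2

end Pool.Agent.Helper18.GP
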