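import Pool.Agent.Helper18.GP.Api

/-!
# Basic lemmas on cyclic distances and on `Mst`
-/

namespace Pool.Agent.Helper18.GP

open Relation Classical

variable {N : ℕ}

theorem cyc_self (a : Fin N) : cyc a a = 0 := by simp [cyc]

theorem cyc_lt (a v : Fin N) : cyc a v < N := by
  have ha := a.isLt; have hv := v.isLt
  unfold cyc; split_ifs <;> omega

theorem cyc_eq_zero {a v : Fin N} : cyc a v = 0 ↔ v = a := by
  have ha := a.isLt; have hv := v.isLt
  constructor
  · intro h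
    unfold cyc at h
    apply Fin.ext
    split_ifs at h <;> omega
  · rintro rfl; exact cyc_self _

theorem cyc_pos {a v : Fin N} : 0 < cyc a v ↔ v ≠ a := by
  rw [Nat.pos_iff_ne_zero, Ne, cyc_eq_zero]

theorem cyc_inj {a u v : Fin N} (h : cyc a u = cyc a v) : u = v := by
  have ha := a.isLt; have hu := u.isLt; have hv := v.isLt
  unfold cyc at h
  apply Fin.ext
  split_ifs at h <;> omega

/-- change of the base point -/
theorem cyc_change (a b v : Fin N) :
    cyc b v = if cyc a b ≤ cyc a v then cyc a v - cyc a b else cyc a v + N - cyc a b := by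
  have ha := a.isLt; have hb := b.isLt; have hv := v.isLt
  unfold cyc
  split_ifs <;> omega

theorem cyc_change_le {a b v : Fin N} (h : cyc a b ≤ cyc a v) : cyc b v = cyc a v - cyc a b := by
  rw [cyc_change a b v, if_pos h]

theorem cyc_change_gt {a b v : Fin N} (h : cyc a v < cyc a b) :
    cyc b v = cyc a v + N - cyc a b := by
  rw [cyc_change a b v, if_neg (by omega)]

theorem cyc_back {a b : Fin N} (h : b ≠ a) : cyc b a = N - cyc a b := by
  have : cyc a a < cyc a b := by rw [cyc_self]; exact cyc_pos.2 h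
  rw [cyc_change_gt this, cyc_self]; omega

theorem mem_Arc {V : Finset (Fin N)} {a c v : Fin N} :
    v ∈ Arc V a c ↔ v ∈ V ∧ cyc a v ≤ cyc a c := by simp [Arc]

theorem left_mem_Arc {V : Finset (Fin N)} {a c : Fin N} (h : a ∈ V) : a ∈ Arc V a c := by
  rw [mem_Arc]; exact ⟨h, by rw [cyc_self]; omega⟩

theorem right_mem_Arc {V : Finset (Fin N)} {a c : Fin N} (h : c ∈ V) : c ∈ Arc V a c := by
  rw [mem_Arc]; exact ⟨h, le_refl _⟩

theorem Arc_sub (V : Finset (Fin N)) (a c : Fin N) : Arc V a c ⊆ V := Finset.filter_subset _ _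

/-- membership in the complementary arc, seen from `a` -/
theorem mem_Arc' {V : Finset (Fin N)} {a c v : Fin N} (hac : c ≠ a) :
    v ∈ Arc V c a ↔ v ∈ V ∧ (v = a ∨ cyc a c ≤ cyc a v) := by
  rw [mem_Arc]
  apply and_congr_right
  intro _
  rw [cyc_back hac]
  have h1 := cyc_lt a c
  have h2 := cyc_lt a v
  constructor
  · intro h
    by_cases hv : cyc a c ≤ cyc a v
    · exact Or.inr hv
    · left
      rw [cyc_change_gt (by omega : cyc a v < cyc a c)] at h
      exact cyc_eq_zero.1 (by omega)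
  · rintro (rfl | h)
    · rw [cyc_back hac]
    · rw [cyc_change_le h]; omega

theorem mem_Arc_or {V : Finset (Fin N)} {a c v : Fin N} (hac : c ≠ a) (hv : v ∈ V) :
    v ∈ Arc V a c ∨ v ∈ Arc V c a := by
  rw [mem_Arc, mem_Arc' hac]
  rcases Nat.lt_or_ge (cyc a v) (cyc a c) with h | h
  · exact Or.inl ⟨hv, h.le⟩
  · exact Or.inr ⟨hv, Or.inr h⟩

theorem mem_Arc_both {V : Finset (Fin N)} {a c v : Fin N} (hac : c ≠ a)
    (h1 : v ∈ Arc V a c) (h2 : v ∈ Arc V c a) : v = a ∨ v = c := by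
  rw [mem_Arc] at h1
  rw [mem_Arc' hac] at h2
  rcases h2.2 with h | h
  · exact Or.inl h
  · exact Or.inr (cyc_inj (le_antisymm h1.2 h))

theorem card_Arc_add {V : Finset (Fin N)} {a c : Fin N} (hac : c ≠ a) (ha : a ∈ V) (hc : c ∈ V) :
    (Arc V a c).card + (Arc V c a).card = V.card + 2 := by
  have hU : Arc V a c ∪ Arc V c a = V := by
    apply Finset.Subset.antisymm
    · exact Finset.union_subset (Arc_sub _ _ _) (Arc_sub _ _ _)
    · intro v hv
      rw [Finset.mem_union]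
      exact mem_Arc_or hac hv
  have hI : Arc V a c ∩ Arc V c a = {a, c} := by
    ext v
    rw [Finset.mem_inter, Finset.mem_insert, Finset.mem_singleton]
    constructor
    · rintro ⟨h1, h2⟩; exact mem_Arc_both hac h1 h2
    · rintro (rfl | rfl)
      · exact ⟨left_mem_Arc ha, right_mem_Arc ha⟩
      · exact ⟨right_mem_Arc hc, left_mem_Arc hc⟩
  rw [← Finset.card_union_add_card_inter, hU, hI, Finset.card_pair (Ne.symm hac)]

/-! ### `Mst` -/

theorem mw_congr {V : Finset (Fin N)} {w w' : Fin N → Fin N → ℝ}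
    (h : ∀ a ∈ V, ∀ b ∈ V, w a b = w' a b) {m : Finset (Fin N × Fin N)}
    (hm : ∀ e ∈ m, e.1 ∈ V ∧ e.2 ∈ V) : mw w m = mw w' m := by
  unfold mw
  exact Finset.sum_congr rfl fun e he => h _ (hm e he).1 _ (hm e he).2

theorem Mst_congr {V : Finset (Fin N)} {w w' : Fin N → Fin N → ℝ} (F : Fin N → Fin N → Prop)
    (h : ∀ a ∈ V, ∀ b ∈ V, w a b = w' a b) : Mst V w F = Mst V w' F := by
  unfold Mst
  congr 1
  ext c
  constructor
  · rintro ⟨m, hm, rfl⟩; exact ⟨m, hm, mw_congr h hm.1⟩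
  · rintro ⟨m, hm, rfl⟩; exact ⟨m, hm, (mw_congr h hm.1).symm⟩

theorem mw_nonneg {V : Finset (Fin N)} {w : Fin N → Fin N → ℝ}
    (h : ∀ a ∈ V, ∀ b ∈ V, 0 ≤ w a b) {m : Finset (Fin N × Fin N)}
    (hm : ∀ e ∈ m, e.1 ∈ V ∧ e.2 ∈ V) : 0 ≤ mw w m :=
  Finset.sum_nonneg fun e he => h _ (hm e he).1 _ (hm e he).2

theorem Mst_le {V : Finset (Fin N)} {w : Fin N → Fin N → ℝ} {F : Fin N → Fin N → Prop}
    (h : ∀ a ∈ V, ∀ b ∈ V, 0 ≤ w a b) {m : Finset (Fin N × Fin N)} (hm : MConn V F m) :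
    Mst V w F ≤ mw w m := by
  apply csInf_le
  · refine ⟨0, ?_⟩
    rintro c ⟨m', hm', rfl⟩
    exact mw_nonneg h hm'.1
  · exact ⟨m, hm, rfl⟩

theorem Mst_nonneg {V : Finset (Fin N)} {w : Fin N → Fin N → ℝ} {F : Fin N → Fin N → Prop}
    (h : ∀ a ∈ V, ∀ b ∈ V, 0 ≤ w a b) : 0 ≤ Mst V w F := by
  apply Real.sInf_nonneg
  rintro c ⟨m', hm', rfl⟩
  exact mw_nonneg h hm'.1

/-! ### points -/

theorem dl_mem {V : Finset (Fin N)} (G : SimpleGraph (Fin N)) {v : Fin N} (hv : v ∈ V) :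
    dl v ∈ Pts V G := by
  refine ⟨?_, ?_, ?_, ?_⟩
  · intro u
    unfold dl
    rw [Pi.single_apply]
    split_ifs <;> norm_num
  · unfold dl
    rw [Finset.sum_pi_single']
    simp
  · intro u hu
    unfold dl at hu
    rw [Pi.single_apply] at hu
    split_ifs at hu with h
    · rw [h]; exact hv
    · exact absurd rfl hu
  · intro a b ha hb hab
    exfalso
    unfold dl at ha hb
    rw [Pi.single_apply] at ha hb
    split_ifs at ha hb with h1 h2
    · exact hab (h1.trans h2.symm)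
    · exact hb rfl
    · exact ha rfl
    · exact ha rfl

theorem dev_dl (P : Fin N → ℂ) (v : Fin N) : dev P (dl v) = P v := by
  unfold dev dl
  rw [Finset.sum_eq_single v]
  · simp
  · intro b _ hb
    simp [Pi.single_eq_of_ne hb]
  · simp

theorem dl_inj {a b : Fin N} (h : (dl a : Fin N → ℝ) = dl b) : a = b := by
  by_contra hab
  have := congrFun h a
  unfold dl at this
  rw [Pi.single_eq_same, Pi.single_eq_of_ne hab] at this
  norm_num at this

theorem Wk_of_St {V : Finset (Fin N)} {G : SimpleGraph (Fin N)} {P : Fin N → ℂ}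
    (h : St V G P) : Wk V G P :=
  fun a ha b hb c hc h1 h2 h3 h4 => (h a ha b hb c hc h1 h2 h3 h4).le

theorem Wk_sub {V V' : Finset (Fin N)} {G : SimpleGraph (Fin N)} {P : Fin N → ℂ}
    (h : Wk V G P) (hs : V' ⊆ V) : Wk V' G P :=
  fun a ha b hb c hc h1 h2 h3 h4 => h a (hs ha) b (hs hb) c (hs hc) h1 h2 h3 h4

theorem St_sub {V V' : Finset (Fin N)} {G : SimpleGraph (Fin N)} {P : Fin N → ℂ}
    (h : St V G P) (hs : V' ⊆ V) : St V' G P :=
  fun a ha b hb c hc h1 h2 h3 h4 => h a (hs ha) b (hs hb) c (hs hc) h1 h2 h3 h4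

theorem Cfg.FA {V : Finset (Fin N)} {G : SimpleGraph (Fin N)} {P : Fin N → ℂ}
    {A : Finset (Fin N)} {F : Fin N → Fin N → Prop} (h : Cfg V G P A F) : FA V A F :=
  ⟨h.AV, h.FB, h.cov⟩

theorem FA.Cfg {V : Finset (Fin N)} {G : SimpleGraph (Fin N)} {P : Fin N → ℂ}
    {A : Finset (Fin N)} {F : Fin N → Fin N → Prop} (h : FA V A F) (ht : IsTri V G)
    (hw : Wk V G P) : Cfg V G P A F :=
  ⟨ht, hw, h.AV, h.FB, h.cov⟩

end Pool.Agent.Helper18.GP
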