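import Pool.Agent.Helper18.GP.Min1
import Pool.Agent.Helper77.GP.CrossPts

/-!
# Traces of chains
-/

namespace Pool.Agent.Helper18.GP

open Relation Classical Set

variable {N : ℕ} {V : Finset (Fin N)} {G : SimpleGraph (Fin N)} {P : Fin N → ℂ}

/-- points of a segment inside a face -/
theorem seg_supp {x y : Fin N → ℝ} {s : ℝ} {v : Fin N} (h : ((1 - s) • x + s • y) v ≠ 0) :
    x v ≠ 0 ∨ y v ≠ 0 := by
  by_contra hcon
  push Not at hcon
  apply h
  simp [hcon.1, hcon.2]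

theorem seg_mem {x y : Fin N → ℝ} (hx : x ∈ Pts V G) (hy : y ∈ Pts V G) (hs : Sh G x y) {s : ℝ}
    (h0 : 0 ≤ s) (h1 : s ≤ 1) : (1 - s) • x + s • y ∈ Pts V G := by
  refine ⟨?_, ?_, ?_, ?_⟩
  · intro v
    have := hx.1 v
    have := hy.1 v
    have : 0 ≤ 1 - s := by linarith
    simp only [Pi.add_apply, Pi.smul_apply, smul_eq_mul]
    positivity
  · simp only [Pi.add_apply, Pi.smul_apply, smul_eq_mul, Finset.sum_add_distrib,
      ← Finset.mul_sum, hx.2.1, hy.2.1]
    ring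
  · intro v hv
    rcases seg_supp hv with h | h
    · exact hx.2.2.1 v h
    · exact hy.2.2.1 v h
  · intro a b ha hb hab
    exact hs a b (seg_supp ha) (seg_supp hb) hab

theorem seg_sh {x y : Fin N → ℝ} (hs : Sh G x y) (s t : ℝ) :
    Sh G ((1 - s) • x + s • y) ((1 - t) • x + t • y) := by
  intro a b ha hb hab
  exact hs a b (ha.elim seg_supp seg_supp) (hb.elim seg_supp seg_supp) hab

theorem dev_seg (x y : Fin N → ℝ) (s : ℝ) :
    dev P ((1 - s) • x + s • y) = (1 - s : ℝ) * dev P x + (s : ℝ) * dev P y := by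
  unfold dev
  rw [Finset.mul_sum, Finset.mul_sum, ← Finset.sum_add_distrib]
  refine Finset.sum_congr rfl fun v _ => ?_
  simp only [Pi.add_apply, Pi.smul_apply, smul_eq_mul]
  push_cast
  ring

theorem d_seg (M : MetP V G P) {x y : Fin N → ℝ} (hx : x ∈ Pts V G) (hy : y ∈ Pts V G)
    (hs : Sh G x y) {s t : ℝ} (h0 : 0 ≤ s) (h1 : s ≤ 1) (h0' : 0 ≤ t) (h1' : t ≤ 1) :
    dK V G P ((1 - s) • x + s • y) ((1 - t) • x + t • y) = |s - t| * ‖dev P x - dev P y‖ := by
  rw [M.sh _ (seg_mem hx hy hs h0 h1) _ (seg_mem hx hy hs h0' h1') (seg_sh hs s t), dev_seg,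
    dev_seg]
  have : ((1 - s : ℝ) : ℂ) * dev P x + (s : ℂ) * dev P y -
      (((1 - t : ℝ) : ℂ) * dev P x + (t : ℂ) * dev P y) = ((t - s : ℝ) : ℂ) * (dev P x - dev P y) := by
    push_cast
    ring
  rw [this, norm_mul, Complex.norm_real, Real.norm_eq_abs, abs_sub_comm]

theorem seg_zero' (x y : Fin N → ℝ) : (1 - (0 : ℝ)) • x + (0 : ℝ) • y = x := by simp

theorem seg_one' (x y : Fin N → ℝ) : (1 - (1 : ℝ)) • x + (1 : ℝ) • y = y := by simp

/-- trace of a chain -/
theorem trace (M : MetP V G P) {x z : Fin N → ℝ} {c : ℝ} (h : Ch V G P x z c) :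
    ∃ T : Set (Fin N → ℝ), IsCompact T ∧ T ⊆ Pts V G ∧ x ∈ T ∧ z ∈ T ∧ JoinedIn T x z ∧
      ∀ ζ ∈ T, ∀ ζ' ∈ T,
        dK V G P x ζ + dK V G P ζ ζ' + dK V G P ζ' z ≤ c ∨
        dK V G P x ζ' + dK V G P ζ' ζ + dK V G P ζ z ≤ c := by
  induction h with
  | nil x hx =>
    refine ⟨{x}, isCompact_singleton, by simpa using hx, rfl, rfl, JoinedIn.refl rfl, ?_⟩
    rintro ζ rfl ζ' rfl
    left
    rw [M.self _ hx]
    simp
  | cons x y z c hx hs hch ih =>
    have hy := hch.mem_left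
    obtain ⟨T, hTc, hTP, hyT, hzT, hJ, hT⟩ := ih
    have hz := hTP hzT
    set e := ‖dev P x - dev P y‖ with he
    have he0 : 0 ≤ e := norm_nonneg _
    set f : ℝ → (Fin N → ℝ) := fun s => (1 - s) • x + s • y with hf
    have hfc : Continuous f := by fun_prop
    have hfm : ∀ s ∈ Icc (0 : ℝ) 1, f s ∈ Pts V G := fun s hs' => seg_mem hx hy hs hs'.1 hs'.2
    have hff : ∀ s ∈ Icc (0 : ℝ) 1, ∀ t ∈ Icc (0 : ℝ) 1, dK V G P (f s) (f t) = |s - t| * e :=
      fun s hs' t ht => d_seg M hx hy hs hs'.1 hs'.2 ht.1 ht.2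
    have hf0 : f 0 = x := seg_zero' x y
    have hf1 : f 1 = y := seg_one' x y
    have i0 : (0 : ℝ) ∈ Icc (0 : ℝ) 1 := ⟨le_refl _, zero_le_one⟩
    have i1 : (1 : ℝ) ∈ Icc (0 : ℝ) 1 := ⟨zero_le_one, le_refl _⟩
    have hdx : ∀ s ∈ Icc (0 : ℝ) 1, dK V G P x (f s) = s * e := by
      intro s hs'
      have := hff 0 i0 s hs'
      rw [hf0, zero_sub, abs_neg, abs_of_nonneg hs'.1] at this
      exact this
    have hdy : ∀ s ∈ Icc (0 : ℝ) 1, dK V G P (f s) y = (1 - s) * e := by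
      intro s hs'
      have := hff s hs' 1 i1
      rw [hf1, abs_sub_comm, abs_of_nonneg (by linarith [hs'.2])] at this
      exact this
    have hdxy : dK V G P x y = e := by
      have := hdx 1 i1
      rw [hf1, one_mul] at this
      exact this
    -- the trace of the rest
    have hyy := M.self y hy
    have htz : ∀ ζ ∈ T, dK V G P y ζ + dK V G P ζ z ≤ c := by
      intro ζ hζ
      rcases hT ζ hζ ζ hζ with h | h <;>
      · rw [M.self ζ (hTP hζ)] at h
        linarith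
    have hyz : dK V G P y z ≤ c := by
      have := htz y hyT
      rw [hyy] at this
      linarith
    refine ⟨f '' Icc (0 : ℝ) 1 ∪ T, (isCompact_Icc.image hfc).union hTc, ?_, ?_, Or.inr hzT, ?_, ?_⟩
    · rintro ζ (⟨s, hs', rfl⟩ | hζ)
      · exact hfm s hs'
      · exact hTP hζ
    · exact Or.inl ⟨0, i0, hf0⟩
    · have j1 : JoinedIn (f '' Icc (0 : ℝ) 1 ∪ T) x y :=
        JoinedIn.ofLine hfc.continuousOn hf0 hf1 (fun _ h => Or.inl h)
      exact j1.trans (hJ.mono subset_union_right)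
    · -- mixed pairs
      have mix : ∀ s ∈ Icc (0 : ℝ) 1, ∀ ζ ∈ T,
          dK V G P x (f s) + dK V G P (f s) ζ + dK V G P ζ z ≤ e + c := by
        intro s hs' ζ hζ
        have h1 := M.tri _ (hfm s hs') y hy ζ (hTP hζ)
        rw [hdx s hs']
        rw [hdy s hs'] at h1
        have h2 := htz ζ hζ
        nlinarith
      have both : ∀ s ∈ Icc (0 : ℝ) 1, ∀ t ∈ Icc (0 : ℝ) 1, s ≤ t →
          dK V G P x (f s) + dK V G P (f s) (f t) + dK V G P (f t) z ≤ e + c := by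
        intro s hs' t ht hst
        have h1 := M.tri _ (hfm t ht) y hy z hz
        rw [hdx s hs', hff s hs' t ht, abs_sub_comm, abs_of_nonneg (by linarith)]
        rw [hdy t ht] at h1
        nlinarith
      have rest : ∀ ζ ∈ T, ∀ ζ' ∈ T,
          dK V G P y ζ + dK V G P ζ ζ' + dK V G P ζ' z ≤ c →
          dK V G P x ζ + dK V G P ζ ζ' + dK V G P ζ' z ≤ e + c := by
        intro ζ hζ ζ' hζ' h1
        have h2 := M.tri x hx y hy ζ (hTP hζ)
        rw [hdxy] at h2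
        linarith
      rintro ζ (⟨s, hs', rfl⟩ | hζ) ζ' (⟨t, ht, rfl⟩ | hζ')
      · rcases le_total s t with hst | hst
        · exact Or.inl (both s hs' t ht hst)
        · exact Or.inr (both t ht s hs' hst)
      · exact Or.inl (mix s hs' ζ' hζ')
      · exact Or.inr (mix t ht ζ hζ)
      · rcases hT ζ hζ ζ' hζ' with h | h
        · exact Or.inl (rest ζ hζ ζ' hζ' h)
        · exact Or.inr (rest ζ' hζ' ζ hζ h)

end Pool.Agent.Helper18.GP
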