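import Pool.Agent.Helper18.GP.Top
import Pool.Agent.Helper18.GP.Pinch3
import Pool.Agent.Helper13.GP.Comb
import Pool.Agent.Helper88.GP.Met
import Pool.Agent.Helper88.GP.Cont
import Pool.Agent.Helper88.GP.Pos
import Pool.Agent.Helper88.GP.Glue
import Pool.Agent.Helper49.GP.All
import Pool.Agent.Helper96.GPL.All
import Pool.Agent.Helper93.GP.All
import Pool.Agent.Helper8.GP.Main
import Pool.Agent.Helper89.GPM.stMAtt
import Pool.Agent.Helper89.GPM.mUnion
import Pool.Agent.Helper69.GPM.mExit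
import Pool.Agent.Helper39.GPM.mBd
import Pool.Agent.Helper4.GPM.mFollow
import Pool.Agent.Helper8.GPM.mTransfer
import Pool.Agent.Helper63.GPM.stSel
import Pool.Agent.Helper51.GPM.stCut1
import Pool.Agent.Helper78.GPM.stCut2
import Pool.Agent.Helper7.GPM.stPocket
import Pool.Agent.Helper90.GPM.stWedge
import Pool.Agent.Helper83.GPM.stDrop
import Pool.Agent.Helper9.GP.DegAll
import Pool.Agent.Helper37.GP.End

/-!
# Gilbert-Pollak: the inequality for all triangulated polygons, from the flip statement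
-/

namespace Pool.Agent.Helper18.GP

theorem tMet : stMet := Pool.Agent.Helper88.GP.met Pool.Agent.Helper13.GP.bdAdj
theorem tCont : stCont := Pool.Agent.Helper88.GP.cont Pool.Agent.Helper13.GP.bdAdj
theorem tPos : stPos := Pool.Agent.Helper88.GP.pos Pool.Agent.Helper13.GP.bdAdj
theorem tGlue : stGlue := Pool.Agent.Helper88.GP.glue Pool.Agent.Helper13.GP.bdAdj
  Pool.Agent.Helper13.GP.side
theorem tArc : stArcTri := Pool.Agent.Helper13.GP.arcTri
theorem tApex : stApex := Pool.Agent.Helper13.GP.apex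
theorem tStraight : stStraight := Pool.Agent.Helper49.GP.geo_Straight tMet
theorem tLnP : stLnP := Pool.Agent.Helper96.GPL.LnP_of tMet tCont
theorem tLnCont : stLnCont := Pool.Agent.Helper96.GPL.LnCont_of tMet tCont
theorem tRet : stRet := Pool.Agent.Helper96.GPL.Ret_of tArc tMet tCont tGlue
theorem tZero : stZero := Pool.Agent.Helper96.GPL.Zero_of tMet tCont tGlue
theorem tTree : stTree := Pool.Agent.Helper96.GPL.Tree_of tMet tCont
theorem tPinch : stPinch := stPinch_of tMet tCont tLnP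
theorem tNS : stNS := Pool.Agent.Helper93.GP.topNS tMet tPos tApex tLnP
theorem tVar : stVar := Pool.Agent.Helper8.GP.stVar_main tTree tStraight tCont tMet tPos tApex

theorem tMAtt : stMAtt := Pool.Agent.Helper89.GPM.mod_stMAtt
theorem tSel : stSel := Pool.Agent.Helper63.GPM.mod_stSel Pool.Agent.Helper69.GPM.mod_mExit
theorem tCut1 : stCut1 := Pool.Agent.Helper51.GPM.mod_stCut1 Pool.Agent.Helper39.GPM.mod_mBd
  (Pool.Agent.Helper4.GPM.mod_mFollow Pool.Agent.Helper69.GPM.mod_mExit)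
  (Pool.Agent.Helper89.GPM.mod_mUnion tMAtt)
theorem tCut2 : stCut2 := Pool.Agent.Helper78.GPM.mod_stCut2 Pool.Agent.Helper39.GPM.mod_mBd
  (Pool.Agent.Helper4.GPM.mod_mFollow Pool.Agent.Helper69.GPM.mod_mExit)
  (Pool.Agent.Helper89.GPM.mod_mUnion tMAtt)
theorem tPocket : stPocket := Pool.Agent.Helper7.GPM.mod_stPocket Pool.Agent.Helper39.GPM.mod_mBd
  (Pool.Agent.Helper8.GPM.mod_mTransfer Pool.Agent.Helper69.GPM.mod_mExit) tMAtt
theorem tWedge : stWedge := Pool.Agent.Helper90.GPM.mod_stWedge Pool.Agent.Helper69.GPM.mod_mExit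
  Pool.Agent.Helper39.GPM.mod_mBd
  (Pool.Agent.Helper4.GPM.mod_mFollow Pool.Agent.Helper69.GPM.mod_mExit)
  (Pool.Agent.Helper89.GPM.mod_mUnion tMAtt) tPocket
theorem tDrop : stDrop := Pool.Agent.Helper83.GPM.mod_stDrop tPocket
theorem tSmall : stSmall := stSmall_of tMet tLnP

theorem tCI_of (hFlip : stFlip) : stCI := Pool.Agent.Helper49.GP.geo_CI tMet tGlue hFlip tApex
theorem tXing_of (hFlip : stFlip) : stXing :=
  Pool.Agent.Helper49.GP.geo_Xing tMet tGlue tPos hFlip tApex

theorem tDeg_of (hFlip : stFlip) : stDeg :=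
  stDeg_all tSmall tApex Pool.Agent.Helper13.GP.bdAdj tMet hFlip tArc tGlue tRet tPinch tWedge
    tPocket tZero tSel tCut1 tCut2 tLnP

theorem tBdd_of (hFlip : stFlip) : stBdd :=
  stBdd_all tSmall tApex Pool.Agent.Helper13.GP.bdAdj tMet tPos tArc tGlue tRet tPinch tWedge
    tDrop (tCI_of hFlip)

theorem tTV : stTV := Pool.Agent.Helper37.GP.stTV_of tMet tLnP

theorem tEnd_of (hFlip : stFlip) : stEnd :=
  Pool.Agent.Helper37.GP.stEnd_of tApex tMet tCont tPos tStraight (tXing_of hFlip)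
    Pool.Agent.Helper13.GP.ext Pool.Agent.Helper13.GP.cardTri Pool.Agent.Helper13.GP.bdAdj
    (tCI_of hFlip) tMAtt tTV

theorem tG_of (hFlip : stFlip) : stG :=
  stG_final tArc tApex tMet tCont tGlue tPos (tCI_of hFlip) tLnP tLnCont
    Pool.Agent.Helper96.GPL.Scale tRet tPinch tNS tVar tCut1 tCut2 tSel (tDeg_of hFlip)
    (tBdd_of hFlip) (tEnd_of hFlip)

end Pool.Agent.Helper18.GP
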