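import Pool.Agent.Helper18.GP.Defs

/-!
# Gilbert-Pollak: cross-chapter statements
Every `st...` is a `Prop`; modules prove them, other chapters take them as hypotheses.
-/

namespace Pool.Agent.Helper18.GP

open Relation Classical

/-! ## COMB: triangulated polygons -/

/-- an edge cuts off a triangulated polygon -/
def stArcTri : Prop := ∀ (N : ℕ) (V : Finset (Fin N)) (G : SimpleGraph (Fin N)), IsTri V G →
  ∀ a ∈ V, ∀ b ∈ V, G.Adj a b → IsTri (Arc V a b) G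

/-- a clique lies on one side of an edge -/
def stSide : Prop := ∀ (N : ℕ) (V : Finset (Fin N)) (G : SimpleGraph (Fin N)), IsTri V G →
  ∀ a ∈ V, ∀ b ∈ V, G.Adj a b → ∀ s ⊆ V, (∀ x ∈ s, ∀ y ∈ s, x ≠ y → G.Adj x y) →
    s ⊆ Arc V a b ∨ s ⊆ Arc V b a

/-- sides are edges -/
def stBdAdj : Prop := ∀ (N : ℕ) (V : Finset (Fin N)) (G : SimpleGraph (Fin N)), IsTri V G →
  ∀ a b, Bd V a b → G.Adj a b

/-- apex of the triangle at an edge -/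
def stApex : Prop := ∀ (N : ℕ) (V : Finset (Fin N)) (G : SimpleGraph (Fin N)), IsTri V G →
  ∀ a ∈ V, ∀ b ∈ V, G.Adj a b → (∃ v ∈ V, Ccw a v b) →
    ∃! c, c ∈ V ∧ Ccw a c b ∧ G.Adj a c ∧ G.Adj c b

/-- number of ordered adjacent pairs -/
noncomputable def eCount {N : ℕ} (V : Finset (Fin N)) (G : SimpleGraph (Fin N)) : ℕ :=
  ((V ×ˢ V).filter fun e => G.Adj e.1 e.2).card

/-- `2 n - 3` edges -/
def stCardTri : Prop := ∀ (N : ℕ) (V : Finset (Fin N)) (G : SimpleGraph (Fin N)), IsTri V G →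
  2 ≤ V.card → eCount V G = 2 * (2 * V.card - 3)

/-- a non-interleaving graph extends to a triangulation -/
def stExt : Prop := ∀ (N : ℕ) (V : Finset (Fin N)) (G : SimpleGraph (Fin N)),
  (∀ a ∈ V, ∀ b ∈ V, ∀ c ∈ V, ∀ d ∈ V, G.Adj a b → G.Adj c d → ¬ Crs a b c d) →
  ∃ G', IsTri V G' ∧ G ≤ G'

/-- ears -/
def stEar : Prop := ∀ (N : ℕ) (V : Finset (Fin N)) (G : SimpleGraph (Fin N)), IsTri V G →
  3 ≤ V.card → ∃ v ∈ V, ∃ x ∈ V, ∃ z ∈ V, x ≠ z ∧ Bd V x v ∧ Bd V v z ∧ Ccw x v z ∧ G.Adj x z ∧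
    IsTri (V.erase v) G ∧ ∀ y ∈ V, G.Adj v y → y = x ∨ y = z

/-! ## MET: the chain metric -/

/-- basic facts of the chain metric -/
structure MetP {N : ℕ} (V : Finset (Fin N)) (G : SimpleGraph (Fin N)) (P : Fin N → ℂ) : Prop where
  nonneg : ∀ x ∈ Pts V G, ∀ y ∈ Pts V G, 0 ≤ dK V G P x y
  symm : ∀ x ∈ Pts V G, ∀ y ∈ Pts V G, dK V G P x y = dK V G P y x
  self : ∀ x ∈ Pts V G, dK V G P x x = 0
  tri : ∀ x ∈ Pts V G, ∀ y ∈ Pts V G, ∀ z ∈ Pts V G,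
    dK V G P x z ≤ dK V G P x y + dK V G P y z
  low : ∀ x ∈ Pts V G, ∀ y ∈ Pts V G, ‖dev P x - dev P y‖ ≤ dK V G P x y
  sh : ∀ x ∈ Pts V G, ∀ y ∈ Pts V G, Sh G x y → dK V G P x y = ‖dev P x - dev P y‖
  att : ∀ x ∈ Pts V G, ∀ y ∈ Pts V G, Ch V G P x y (dK V G P x y)

def stMet : Prop := ∀ (N : ℕ) (V : Finset (Fin N)) (G : SimpleGraph (Fin N)) (P : Fin N → ℂ),
  IsTri V G → MetP V G P

/-- joint continuity of the metric in positions and points -/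
def stCont : Prop := ∀ (N : ℕ) (V : Finset (Fin N)) (G : SimpleGraph (Fin N)), IsTri V G →
  ContinuousOn (fun q : (Fin N → ℂ) × (Fin N → ℝ) × (Fin N → ℝ) => dK V G q.1 q.2.1 q.2.2)
    {q | q.2.1 ∈ Pts V G ∧ q.2.2 ∈ Pts V G}

/-- point of the edge `ab` -/
noncomputable def seg {N : ℕ} (a b : Fin N) (t : ℝ) : Fin N → ℝ := fun v => (1 - t) * dl a v + t * dl b v

/-- gluing along an edge -/
structure GlueP {N : ℕ} (V : Finset (Fin N)) (G : SimpleGraph (Fin N)) (P : Fin N → ℂ)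
    (a b : Fin N) : Prop where
  cover : ∀ x ∈ Pts V G, x ∈ Pts (Arc V a b) G ∨ x ∈ Pts (Arc V b a) G
  inter : ∀ x ∈ Pts (Arc V a b) G, x ∈ Pts (Arc V b a) G → ∃ t ∈ Set.Icc (0 : ℝ) 1, x = seg a b t
  cross : ∀ x ∈ Pts (Arc V a b) G, ∀ y ∈ Pts (Arc V b a) G, ∃ t ∈ Set.Icc (0 : ℝ) 1,
    dK V G P x y = dK V G P x (seg a b t) + dK V G P (seg a b t) y
  sub : ∀ x ∈ Pts (Arc V a b) G, ∀ y ∈ Pts (Arc V a b) G,
    dK (Arc V a b) G P x y = dK V G P x y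

def stGlue : Prop := ∀ (N : ℕ) (V : Finset (Fin N)) (G : SimpleGraph (Fin N)) (P : Fin N → ℂ),
  IsTri V G → ∀ a ∈ V, ∀ b ∈ V, G.Adj a b → GlueP V G P a b

/-- positive discs: distance zero means equal -/
def stPos : Prop := ∀ (N : ℕ) (V : Finset (Fin N)) (G : SimpleGraph (Fin N)) (P : Fin N → ℂ),
  IsTri V G → St V G P → (∀ a ∈ V, ∀ b ∈ V, a ≠ b → G.Adj a b → P a ≠ P b) →
  ∀ x ∈ Pts V G, ∀ y ∈ Pts V G, dK V G P x y = 0 → x = y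

/-- flips -/
def stFlip : Prop := ∀ (N : ℕ) (V : Finset (Fin N)) (G : SimpleGraph (Fin N)) (P : Fin N → ℂ),
  IsTri V G → ∀ a ∈ V, ∀ b ∈ V, ∀ c ∈ V, ∀ d ∈ V, Ccw a b c → Ccw a c d →
  G.Adj a b → G.Adj b c → G.Adj c d → G.Adj d a → G.Adj a c →
  ∀ s ∈ Set.Icc (0 : ℝ) 1, ∀ t ∈ Set.Icc (0 : ℝ) 1,
    (1 - s : ℝ) * P a + (s : ℝ) * P c = (1 - t : ℝ) * P b + (t : ℝ) * P d →
    ∃ G', IsTri V G' ∧ Iso V G G' P ∧ G'.Adj b d ∧ ¬ G'.Adj a c ∧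
      ∀ x ∈ V, ∀ y ∈ V, ¬ ((x = a ∧ y = c) ∨ (x = c ∧ y = a)) →
        ¬ ((x = b ∧ y = d) ∨ (x = d ∧ y = b)) → (G'.Adj x y ↔ G.Adj x y)

/-- straightness: a geodesic without vertices in between is straight (points) -/
def stStraight : Prop := ∀ (N : ℕ) (V : Finset (Fin N)) (G : SimpleGraph (Fin N)) (P : Fin N → ℂ),
  IsTri V G → St V G P → ∀ x ∈ Pts V G, ∀ y ∈ Pts V G,
    (∀ u ∈ V, dl u ≠ x → dl u ≠ y → dK V G P x y < dK V G P x (dl u) + dK V G P (dl u) y) →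
    dK V G P x y = ‖dev P x - dev P y‖

/-- edges of positive discs are clear -/
def stClearEdge : Prop := ∀ (N : ℕ) (V : Finset (Fin N)) (G : SimpleGraph (Fin N))
  (P : Fin N → ℂ), IsTri V G → St V G P → 3 ≤ V.card → ∀ a ∈ V, ∀ b ∈ V, G.Adj a b →
    Clear V G P a b

/-- chord insertion -/
def stCI : Prop := ∀ (N : ℕ) (V : Finset (Fin N)) (G : SimpleGraph (Fin N)) (P : Fin N → ℂ),
  IsTri V G → St V G P → ∀ C : Finset (Fin N × Fin N),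
    (∀ e ∈ C, e.1 ∈ V ∧ e.2 ∈ V ∧ e.1 ≠ e.2 ∧ Clear V G P e.1 e.2) →
    (∀ e ∈ C, ∀ f ∈ C, ¬ Crs e.1 e.2 f.1 f.2) →
    ∃ G', IsTri V G' ∧ St V G' P ∧ Iso V G G' P ∧ (∀ e ∈ C, G'.Adj e.1 e.2) ∧
      ∀ x ∈ V, ∀ y ∈ V, G.Adj x y → (∀ e ∈ C, ¬ Crs x y e.1 e.2) → G'.Adj x y

/-- clear chords that interleave meet transversally: the corner paths are not geodesic -/
def stXing : Prop := ∀ (N : ℕ) (V : Finset (Fin N)) (G : SimpleGraph (Fin N)) (P : Fin N → ℂ),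
  IsTri V G → St V G P → ∀ a ∈ V, ∀ b ∈ V, ∀ c ∈ V, ∀ d ∈ V, Crs a b c d →
    Clear V G P a b → Clear V G P c d → ∃ α β γ δ : ℝ, 0 < α ∧ 0 < β ∧ 0 < γ ∧ 0 < δ ∧
      dV V G P a b = α + β ∧ dV V G P c d = γ + δ ∧ dV V G P a c < α + γ ∧
      dV V G P a d < α + δ ∧ dV V G P b c < β + γ ∧ dV V G P b d < β + δ

/-! ## LEN: Steiner lengths of vertex sets -/

structure LnP {N : ℕ} (V : Finset (Fin N)) (G : SimpleGraph (Fin N)) (P : Fin N → ℂ) : Prop where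
  nonneg : ∀ B ⊆ V, 0 ≤ Ln V G P B
  mono : ∀ B ⊆ V, ∀ B' ⊆ B, Ln V G P B' ≤ Ln V G P B
  sing : ∀ a ∈ V, Ln V G P {a} = 0
  sub : ∀ B ⊆ V, ∀ B' ⊆ V, (B ∩ B').Nonempty → Ln V G P (B ∪ B') ≤ Ln V G P B + Ln V G P B'
  low : ∀ B ⊆ V, ∀ a ∈ B, ∀ b ∈ B, dV V G P a b ≤ Ln V G P B
  att : ∀ B ⊆ V, ∃ E : List ((Fin N → ℝ) × (Fin N → ℝ)),
    (∀ e ∈ E, e.1 ∈ Pts V G ∧ e.2 ∈ Pts V G) ∧ NConn E (dl '' (B : Set (Fin N))) ∧
    Ln V G P B = nlen (dK V G P) E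

def stLnP : Prop := ∀ (N : ℕ) (V : Finset (Fin N)) (G : SimpleGraph (Fin N)) (P : Fin N → ℂ),
  IsTri V G → LnP V G P

def stLnCont : Prop := ∀ (N : ℕ) (V : Finset (Fin N)) (G : SimpleGraph (Fin N)), IsTri V G →
  ∀ B ⊆ V, Continuous fun P : Fin N → ℂ => Ln V G P B

/-- scaling -/
def stScale : Prop := ∀ (N : ℕ) (V : Finset (Fin N)) (G : SimpleGraph (Fin N)) (P : Fin N → ℂ)
  (c : ℝ) (q : ℂ), 0 ≤ c → IsTri V G →
  (∀ B ⊆ V, Ln V G (fun v => c * P v + q) B = c * Ln V G P B) ∧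
  ∀ a ∈ V, ∀ b ∈ V, dV V G (fun v => c * P v + q) a b = c * dV V G P a b

/-- retraction onto a side of an edge -/
def stRet : Prop := ∀ (N : ℕ) (V : Finset (Fin N)) (G : SimpleGraph (Fin N)) (P : Fin N → ℂ),
  IsTri V G → ∀ a ∈ V, ∀ b ∈ V, G.Adj a b → ∀ B ⊆ Arc V a b,
    Ln (Arc V a b) G P B ≤ Ln V G P B

/-- an edge of length zero is a wedge point -/
def stZero : Prop := ∀ (N : ℕ) (V : Finset (Fin N)) (G : SimpleGraph (Fin N)) (P : Fin N → ℂ),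
  IsTri V G → ∀ a ∈ V, ∀ b ∈ V, G.Adj a b → P a = P b → ∀ B ⊆ V,
    (B ∩ Arc V a b).Nonempty → (B ∩ Arc V b a).Nonempty →
    Ln V G P (insert a (insert b (B ∩ Arc V a b))) + Ln V G P (insert a (insert b (B ∩ Arc V b a)))
      ≤ Ln V G P B

/-- pinch: a geodesic through a vertex splits the networks on its side -/
def stPinch : Prop := ∀ (N : ℕ) (V : Finset (Fin N)) (G : SimpleGraph (Fin N)) (P : Fin N → ℂ),
  IsTri V G → ∀ a ∈ V, ∀ g ∈ V, ∀ c ∈ V, Ccw a g c → dV V G P a c = dV V G P a g + dV V G P g c →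
    ∀ B ⊆ Arc V a c, (B ∩ Arc V a g).Nonempty → (B ∩ Arc V g c).Nonempty →
    Ln V G P (insert g (B ∩ Arc V a g)) + Ln V G P (insert g (B ∩ Arc V g c)) ≤ Ln V G P B

/-- planarity: if no cut respecting the cyclic order exists then no cut exists -/
def stNS : Prop := ∀ (N : ℕ) (V : Finset (Fin N)) (G : SimpleGraph (Fin N)) (P : Fin N → ℂ),
  IsTri V G → St V G P → 3 ≤ V.card → ∀ A ⊆ V, NSsep V G P A → NS V G P A

/-- length of a graph drawn with nodes `x i` -/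
noncomputable def tlen {X : Type*} (d : X → X → ℝ) {k : ℕ} (H : SimpleGraph (Fin k))
    (x : Fin k → X) : ℝ :=
  (∑ p ∈ (Finset.univ ×ˢ Finset.univ : Finset (Fin k × Fin k)).filter (fun p => H.Adj p.1 p.2),
    d (x p.1) (x p.2)) / 2

/-- a shortest network is a tree whose nodes outside `A` have degree at least three -/
def stTree : Prop := ∀ (N : ℕ) (V : Finset (Fin N)) (G : SimpleGraph (Fin N)) (P : Fin N → ℂ),
  IsTri V G → St V G P → 3 ≤ V.card → ∀ A ⊆ V, A.Nonempty →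
  ∃ (k : ℕ) (H : SimpleGraph (Fin k)) (x : Fin k → (Fin N → ℝ)), H.IsTree ∧
    (∀ i, x i ∈ Pts V G) ∧ Function.Injective x ∧ (∀ a ∈ A, ∃ i, x i = dl a) ∧
    (∀ i, (∀ a ∈ A, x i ≠ dl a) → 3 ≤ (Finset.univ.filter fun j => H.Adj i j).card) ∧
    tlen (dK V G P) H x = Ln V G P A

/-- the variation -/
def stVar : Prop := ∀ (N : ℕ) (V : Finset (Fin N)) (G : SimpleGraph (Fin N)) (P : Fin N → ℂ),
  IsTri V G → St V G P → 3 ≤ V.card → ∀ A ⊆ V, 2 ≤ A.card → NS V G P A → Var V G P A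

/-- equilateral triangulations -/
def stTV : Prop := ∀ (N : ℕ) (V : Finset (Fin N)) (G : SimpleGraph (Fin N)) (P : Fin N → ℂ)
  (l : ℝ), IsTri V G → 0 < l → (∀ a ∈ V, ∀ b ∈ V, G.Adj a b → ‖P a - P b‖ = l) →
  rho * (l * (V.card - 1)) ≤ Ln V G P V

/-! ## MSTF: spanning trees modulo free sides -/

/-- restriction of `F` to `S` -/
def Fr {N : ℕ} (F : Fin N → Fin N → Prop) (S : Finset (Fin N)) : Fin N → Fin N → Prop :=
  fun x y => F x y ∧ x ∈ S ∧ y ∈ S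

/-- `F` with one more pair -/
def Fa {N : ℕ} (F : Fin N → Fin N → Prop) (a b : Fin N) : Fin N → Fin N → Prop :=
  fun x y => F x y ∨ (x = a ∧ y = b)

/-- `F` consists of sides, every vertex of `V` is joined by `F` to `A` -/
structure FA {N : ℕ} (V A : Finset (Fin N)) (F : Fin N → Fin N → Prop) : Prop where
  AV : A ⊆ V
  FB : ∀ a b, F a b → Bd V a b
  cov : ∀ v ∈ V, ∃ a ∈ A, EqvGen F v a

def stMAtt : Prop := ∀ (N : ℕ) (V : Finset (Fin N)) (w : Fin N → Fin N → ℝ)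
  (F : Fin N → Fin N → Prop), ∃ m, MConn V F m ∧ mw w m = Mst V w F

/-- cut along a chord `wu`, first side `Arc V w u` -/
def stCut1 : Prop := ∀ (N : ℕ) (V A : Finset (Fin N)) (F : Fin N → Fin N → Prop)
  (d : Fin N → Fin N → ℝ), (∀ a ∈ V, ∀ b ∈ V, 0 ≤ d a b ∧ d a b = d b a) → FA V A F →
  ∀ w ∈ V, ∀ u ∈ V, w ≠ u →
  (u ∈ A ∨ ∃ a ∈ insert w (A ∩ Arc V w u), EqvGen (Fr F (Arc V w u)) u a) →
  FA (Arc V w u) (insert w (A ∩ Arc V w u)) (Fr F (Arc V w u)) ∧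
  FA (Arc V u w) (insert w ((A ∩ Arc V u w).erase u)) (Fa (Fr F (Arc V u w)) w u) ∧
  Mst V d F ≤ Mst (Arc V w u) d (Fr F (Arc V w u)) +
    Mst (Arc V u w) d (Fa (Fr F (Arc V u w)) w u)

/-- cut along a chord `wu`, first side `Arc V u w` -/
def stCut2 : Prop := ∀ (N : ℕ) (V A : Finset (Fin N)) (F : Fin N → Fin N → Prop)
  (d : Fin N → Fin N → ℝ), (∀ a ∈ V, ∀ b ∈ V, 0 ≤ d a b ∧ d a b = d b a) → FA V A F →
  ∀ w ∈ V, ∀ u ∈ V, w ≠ u →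
  (u ∈ A ∨ ∃ a ∈ insert w (A ∩ Arc V u w), EqvGen (Fr F (Arc V u w)) u a) →
  FA (Arc V u w) (insert w (A ∩ Arc V u w)) (Fr F (Arc V u w)) ∧
  FA (Arc V w u) (insert w ((A ∩ Arc V w u).erase u)) (Fa (Fr F (Arc V w u)) w u) ∧
  Mst V d F ≤ Mst (Arc V u w) d (Fr F (Arc V u w)) +
    Mst (Arc V w u) d (Fa (Fr F (Arc V w u)) w u)

/-- a passive `u` is joined to `w` or to an active vertex on one of the two sides -/
def stSel : Prop := ∀ (N : ℕ) (V A : Finset (Fin N)) (F : Fin N → Fin N → Prop), FA V A F →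
  ∀ w ∈ V, ∀ u ∈ V, w ≠ u → u ∉ A →
  (∃ a ∈ insert w (A ∩ Arc V w u), EqvGen (Fr F (Arc V w u)) u a) ∨
  ∃ a ∈ insert w (A ∩ Arc V u w), EqvGen (Fr F (Arc V u w)) u a

/-- pocket: all active vertices on one side of the chord `ab` -/
def stPocket : Prop := ∀ (N : ℕ) (V A : Finset (Fin N)) (F : Fin N → Fin N → Prop)
  (d : Fin N → Fin N → ℝ), (∀ a ∈ V, ∀ b ∈ V, 0 ≤ d a b ∧ d a b = d b a) → FA V A F →
  ∀ a ∈ V, ∀ b ∈ V, a ≠ b → A ⊆ Arc V a b →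
  ∃ F' : Fin N → Fin N → Prop, FA (Arc V a b) A F' ∧ Mst V d F ≤ Mst (Arc V a b) d F'

/-- pinch at `g` opposite to the side `ca` -/
def stWedge : Prop := ∀ (N : ℕ) (V A : Finset (Fin N)) (F : Fin N → Fin N → Prop)
  (d : Fin N → Fin N → ℝ), (∀ a ∈ V, ∀ b ∈ V, 0 ≤ d a b ∧ d a b = d b a) → FA V A F →
  ∀ a ∈ V, ∀ g ∈ V, ∀ c ∈ V, Ccw a g c → (∀ v ∈ V, cyc a v ≤ cyc a c) →
  (∃ F₁ F₂ : Fin N → Fin N → Prop, FA (Arc V a g) (insert g (A ∩ Arc V a g)) F₁ ∧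
    FA (Arc V g c) (insert g (A ∩ Arc V g c)) F₂ ∧
    Mst V d F ≤ Mst (Arc V a g) d F₁ + Mst (Arc V g c) d F₂) ∧
  (A ⊆ Arc V a g → ∃ F₁ : Fin N → Fin N → Prop, FA (Arc V a g) A F₁ ∧
    Mst V d F ≤ Mst (Arc V a g) d F₁) ∧
  (A ⊆ Arc V g c → ∃ F₂ : Fin N → Fin N → Prop, FA (Arc V g c) A F₂ ∧
    Mst V d F ≤ Mst (Arc V g c) d F₂)

/-- removal of a passive vertex `v` with neighbours `x`, `z` -/
def stDrop : Prop := ∀ (N : ℕ) (V A : Finset (Fin N)) (F : Fin N → Fin N → Prop)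
  (d : Fin N → Fin N → ℝ), (∀ a ∈ V, ∀ b ∈ V, 0 ≤ d a b ∧ d a b = d b a) → FA V A F →
  ∀ v ∈ V, v ∉ A → 3 ≤ V.card →
  ∃ F' : Fin N → Fin N → Prop, FA (V.erase v) A F' ∧ Mst V d F ≤ Mst (V.erase v) d F'

/-! ## MIN, CUT, DEG: assemblies -/

def IH (N n : ℕ) : Prop := ∀ k < n, GOOD N k

/-- at most two vertices -/
def stSmall : Prop := ∀ (N n : ℕ), n ≤ 2 → GOOD N n

/-- degenerate configurations -/
def stDeg : Prop := ∀ (N n : ℕ), IH N n → ∀ (V : Finset (Fin N)) (G : SimpleGraph (Fin N))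
  (P : Fin N → ℂ) (A : Finset (Fin N)) (F : Fin N → Fin N → Prop), V.card = n → Cfg V G P A F →
  rho * Mst V (dV V G P) F ≤ Ln V G P A ∨
    ∃ G', IsTri V G' ∧ St V G' P ∧ (∀ a ∈ V, ∀ b ∈ V, a ≠ b → G'.Adj a b → P a ≠ P b) ∧
      Iso V G G' P

/-- convex passive vertices, hence boundedness -/
def stBdd : Prop := ∀ (N n : ℕ), IH N n → ∀ (V : Finset (Fin N)) (G : SimpleGraph (Fin N))
  (P : Fin N → ℂ) (A : Finset (Fin N)) (F : Fin N → Fin N → Prop), V.card = n → Cfg V G P A F →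
  St V G P → Ln V G P A < rho * Mst V (dV V G P) F →
  ∀ v ∈ V, P v ∈ convexHull ℝ (P '' (A : Set (Fin N)))

/-- existence of minimisers -/
def stMin : Prop := ∀ (N n : ℕ), IH N n → ¬ GOOD N n →
  ∃ (V : Finset (Fin N)) (G : SimpleGraph (Fin N)) (P : Fin N → ℂ) (A : Finset (Fin N))
    (F : Fin N → Fin N → Prop) (r : ℝ), MinData n V G P A F r

/-- minimisers are not cut by vertices -/
def stNSmin : Prop := ∀ (N n : ℕ), IH N n → ∀ (V : Finset (Fin N)) (G : SimpleGraph (Fin N))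
  (P : Fin N → ℂ) (A : Finset (Fin N)) (F : Fin N → Fin N → Prop) (r : ℝ),
  MinData n V G P A F r → NSsep V G P A

/-- the end -/
def stEnd : Prop := ∀ (N n : ℕ), IH N n → ∀ (V : Finset (Fin N)) (G : SimpleGraph (Fin N))
  (P : Fin N → ℂ) (A : Finset (Fin N)) (F : Fin N → Fin N → Prop) (r : ℝ),
  MinData n V G P A F r → Var V G P A → False

/-- all polygons are good -/
def stG : Prop := ∀ N n : ℕ, GOOD N n

/-! ## COR, HAUS -/

/-- the planar theorem for finite networks -/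
def stPlanar : Prop := ∀ (A : Finset ℂ) (E : List (ℂ × ℂ)), NConn E (A : Set ℂ) →
  ∃ m : List (ℂ × ℂ), (∀ e ∈ m, e.1 ∈ A ∧ e.2 ∈ A) ∧ NConn m (A : Set ℂ) ∧
    rho * nlen dist m ≤ nlen dist E

end Pool.Agent.Helper18.GP
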