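import Mathlib

/-!
# Triangulated polygons on cyclically ordered labels, chain metric, Steiner length, spanning trees
-/

namespace Pool.Agent.Helper18.GP

open Relation

variable {N : ℕ}

/-- cross product -/
def crs (z w : ℂ) : ℝ := z.re * w.im - z.im * w.re

/-- scalar product -/
def dt (z w : ℂ) : ℝ := z.re * w.re + z.im * w.im

/-- cyclic distance from `a` to `v` -/
def cyc (a v : Fin N) : ℕ := if a.val ≤ v.val then v.val - a.val else v.val + N - a.val

/-- `b` lies strictly between `a` and `c` when one walks upwards from `a` -/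
def Ccw (a b c : Fin N) : Prop := 0 < cyc a b ∧ cyc a b < cyc a c

/-- the pairs `{a,b}` and `{c,d}` interleave -/
def Crs (a b c d : Fin N) : Prop := (Ccw a c b ∧ Ccw a b d) ∨ (Ccw a d b ∧ Ccw a b c)

/-- closed arc from `a` to `c` inside `V` -/
def Arc (V : Finset (Fin N)) (a c : Fin N) : Finset (Fin N) := V.filter fun v => cyc a v ≤ cyc a c

/-- `{a,b}` is a side of the polygon on `V` -/
def Bd (V : Finset (Fin N)) (a b : Fin N) : Prop :=
  a ∈ V ∧ b ∈ V ∧ a ≠ b ∧ ((∀ v ∈ V, ¬ Ccw a v b) ∨ (∀ v ∈ V, ¬ Ccw b v a))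

/-- `G` is (on `V`) a triangulation of the polygon with vertex set `V`: a maximal set of pairwise
non-interleaving pairs. Only the pairs inside `V` matter. -/
structure IsTri (V : Finset (Fin N)) (G : SimpleGraph (Fin N)) : Prop where
  nc : ∀ a ∈ V, ∀ b ∈ V, ∀ c ∈ V, ∀ d ∈ V, G.Adj a b → G.Adj c d → ¬ Crs a b c d
  mx : ∀ a ∈ V, ∀ b ∈ V, a ≠ b → ¬ G.Adj a b → ∃ c ∈ V, ∃ d ∈ V, G.Adj c d ∧ Crs a b c d

/-- all triangles are weakly positively oriented -/
def Wk (V : Finset (Fin N)) (G : SimpleGraph (Fin N)) (P : Fin N → ℂ) : Prop :=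
  ∀ a ∈ V, ∀ b ∈ V, ∀ c ∈ V, Ccw a b c → G.Adj a b → G.Adj b c → G.Adj a c →
    0 ≤ crs (P b - P a) (P c - P a)

/-- all triangles are strictly positively oriented -/
def St (V : Finset (Fin N)) (G : SimpleGraph (Fin N)) (P : Fin N → ℂ) : Prop :=
  ∀ a ∈ V, ∀ b ∈ V, ∀ c ∈ V, Ccw a b c → G.Adj a b → G.Adj b c → G.Adj a c →
    0 < crs (P b - P a) (P c - P a)

/-- the vertex `v` as a point -/
def dl (v : Fin N) : Fin N → ℝ := Pi.single v 1

/-- points of the complex: probability vectors on `V` supported on a clique of `G` -/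
def Pts (V : Finset (Fin N)) (G : SimpleGraph (Fin N)) : Set (Fin N → ℝ) :=
  {x | (∀ v, 0 ≤ x v) ∧ ∑ v, x v = 1 ∧ (∀ v, x v ≠ 0 → v ∈ V) ∧
    ∀ a b, x a ≠ 0 → x b ≠ 0 → a ≠ b → G.Adj a b}

/-- two points lie in a common face -/
def Sh (G : SimpleGraph (Fin N)) (x y : Fin N → ℝ) : Prop :=
  ∀ a b, (x a ≠ 0 ∨ y a ≠ 0) → (x b ≠ 0 ∨ y b ≠ 0) → a ≠ b → G.Adj a b

/-- position of a point -/
noncomputable def dev (P : Fin N → ℂ) (x : Fin N → ℝ) : ℂ := ∑ v, (x v : ℂ) * P v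

/-- chains with their lengths: consecutive points lie in a common face -/
inductive Ch (V : Finset (Fin N)) (G : SimpleGraph (Fin N)) (P : Fin N → ℂ) :
    (Fin N → ℝ) → (Fin N → ℝ) → ℝ → Prop
  | nil (x : Fin N → ℝ) (hx : x ∈ Pts V G) : Ch V G P x x 0
  | cons (x y z : Fin N → ℝ) (c : ℝ) (hx : x ∈ Pts V G) (hs : Sh G x y) (h : Ch V G P y z c) :
      Ch V G P x z (‖dev P x - dev P y‖ + c)

/-- the path metric -/
noncomputable def dK (V : Finset (Fin N)) (G : SimpleGraph (Fin N)) (P : Fin N → ℂ)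
    (x y : Fin N → ℝ) : ℝ := sInf {c | Ch V G P x y c}

/-- the path metric between vertices -/
noncomputable def dV (V : Finset (Fin N)) (G : SimpleGraph (Fin N)) (P : Fin N → ℂ)
    (a b : Fin N) : ℝ := dK V G P (dl a) (dl b)

/-- the finite network `E` (a list of pairs of points) connects the set `A` -/
def NConn {X : Type*} (E : List (X × X)) (A : Set X) : Prop :=
  ∀ a ∈ A, ∀ b ∈ A, EqvGen (fun x y => (x, y) ∈ E) a b

/-- length of a network -/
def nlen {X : Type*} (d : X → X → ℝ) (E : List (X × X)) : ℝ := (E.map fun e => d e.1 e.2).sum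

/-- infimum of the lengths of the finite networks with nodes in `S` connecting `A` -/
noncomputable def StL {X : Type*} (S : Set X) (d : X → X → ℝ) (A : Set X) : ℝ :=
  sInf {c | ∃ E : List (X × X), (∀ e ∈ E, e.1 ∈ S ∧ e.2 ∈ S) ∧ NConn E A ∧ c = nlen d E}

/-- Steiner length of the set `B` of vertices -/
noncomputable def Ln (V : Finset (Fin N)) (G : SimpleGraph (Fin N)) (P : Fin N → ℂ)
    (B : Finset (Fin N)) : ℝ := StL (Pts V G) (dK V G P) (dl '' (B : Set (Fin N)))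

/-- `m` together with the free pairs `F` connects `V` -/
def MConn (V : Finset (Fin N)) (F : Fin N → Fin N → Prop) (m : Finset (Fin N × Fin N)) : Prop :=
  (∀ e ∈ m, e.1 ∈ V ∧ e.2 ∈ V) ∧
    ∀ a ∈ V, ∀ b ∈ V, EqvGen (fun x y => (x, y) ∈ m ∨ F x y) a b

/-- total weight -/
def mw (w : Fin N → Fin N → ℝ) (m : Finset (Fin N × Fin N)) : ℝ := ∑ e ∈ m, w e.1 e.2

/-- least weight of a set of pairs that connects `V` together with `F` -/
noncomputable def Mst (V : Finset (Fin N)) (w : Fin N → Fin N → ℝ) (F : Fin N → Fin N → Prop) : ℝ :=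
  sInf {c | ∃ m, MConn V F m ∧ c = mw w m}

/-- configurations: weakly positive triangulated polygon, active vertices `A`, free sides `F`,
every vertex is connected by free sides to an active vertex -/
structure Cfg (V : Finset (Fin N)) (G : SimpleGraph (Fin N)) (P : Fin N → ℂ)
    (A : Finset (Fin N)) (F : Fin N → Fin N → Prop) : Prop where
  tri : IsTri V G
  wk : Wk V G P
  AV : A ⊆ V
  FB : ∀ a b, F a b → Bd V a b
  cov : ∀ v ∈ V, ∃ a ∈ A, EqvGen F v a

/-- the constant -/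
noncomputable def rho : ℝ := Real.sqrt 3 / 2

/-- the theorem for polygons with `n` vertices (labels in `Fin N`) -/
def GOOD (N n : ℕ) : Prop :=
  ∀ (V : Finset (Fin N)) (G : SimpleGraph (Fin N)) (P : Fin N → ℂ) (A : Finset (Fin N))
    (F : Fin N → Fin N → Prop), V.card = n → Cfg V G P A F →
    rho * Mst V (dV V G P) F ≤ Ln V G P A

/-- sum of the squared distances -/
noncomputable def Phi (V : Finset (Fin N)) (P : Fin N → ℂ) : ℝ :=
  ∑ a ∈ V, ∑ b ∈ V, ‖P a - P b‖ ^ 2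

/-- no vertex lies between `a` and `b` -/
def Clear (V : Finset (Fin N)) (G : SimpleGraph (Fin N)) (P : Fin N → ℂ) (a b : Fin N) : Prop :=
  ∀ u ∈ V, u ≠ a → u ≠ b → dV V G P a b < dV V G P a u + dV V G P u b

/-- same vertex metric and same Steiner lengths -/
def Iso (V : Finset (Fin N)) (G G' : SimpleGraph (Fin N)) (P : Fin N → ℂ) : Prop :=
  (∀ a ∈ V, ∀ b ∈ V, dV V G' P a b = dV V G P a b) ∧ ∀ B ⊆ V, Ln V G' P B = Ln V G P B

/-- minimisers -/
structure MinData {N : ℕ} (n : ℕ) (V : Finset (Fin N)) (G : SimpleGraph (Fin N)) (P : Fin N → ℂ)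
    (A : Finset (Fin N)) (F : Fin N → Fin N → Prop) (r : ℝ) : Prop where
  n3 : 3 ≤ n
  card : V.card = n
  cfg : Cfg V G P A F
  st : St V G P
  mst : Mst V (dV V G P) F = 1
  len : Ln V G P A = r
  rpos : 0 < r
  rlt : r < rho
  low : ∀ (V' : Finset (Fin N)) (G' : SimpleGraph (Fin N)) (P' : Fin N → ℂ)
    (A' : Finset (Fin N)) (F' : Fin N → Fin N → Prop), V'.card = n → Cfg V' G' P' A' F' →
    r * Mst V' (dV V' G' P') F' ≤ Ln V' G' P' A'
  phi : ∀ (G' : SimpleGraph (Fin N)) (P' : Fin N → ℂ) (A' : Finset (Fin N))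
    (F' : Fin N → Fin N → Prop), Cfg V G' P' A' F' → 0 < Mst V (dV V G' P') F' →
    Ln V G' P' A' = r * Mst V (dV V G' P') F' →
    Phi V P' ≤ Phi V P * (Mst V (dV V G' P') F') ^ 2

/-- no vertex splits the optimal network -/
def NS (V : Finset (Fin N)) (G : SimpleGraph (Fin N)) (P : Fin N → ℂ) (A : Finset (Fin N)) : Prop :=
  ∀ w ∈ V, ∀ B₁ B₂ : Finset (Fin N), B₁.Nonempty → B₂.Nonempty → Disjoint B₁ B₂ →
    B₁ ∪ B₂ = A.erase w → Ln V G P A < Ln V G P (insert w B₁) + Ln V G P (insert w B₂)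

/-- the same for cuts respecting the cyclic order -/
def NSsep (V : Finset (Fin N)) (G : SimpleGraph (Fin N)) (P : Fin N → ℂ) (A : Finset (Fin N)) :
    Prop :=
  ∀ w ∈ V, ∀ B₁ B₂ : Finset (Fin N), B₁.Nonempty → B₂.Nonempty → Disjoint B₁ B₂ →
    B₁ ∪ B₂ = A.erase w → (∀ b ∈ B₁, ∀ c ∈ B₂, cyc w b < cyc w c) →
    Ln V G P A < Ln V G P (insert w B₁) + Ln V G P (insert w B₂)

/-- conclusion of the variation argument -/
def Var (V : Finset (Fin N)) (G : SimpleGraph (Fin N)) (P : Fin N → ℂ) (A : Finset (Fin N)) :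
    Prop :=
  ∃ u : Fin N → ℂ, ∀ W : Fin N → ℂ, ∑ p ∈ A, crs (W p) (u p) = 0 →
    ∃ ε > 0, ∀ t : ℝ, |t| < ε →
      Ln V G (fun v => P v + t * W v) A ≤ Ln V G P A + t * ∑ p ∈ A, dt (W p) (u p)

end Pool.Agent.Helper18.GP
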