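import Pool.Agent.Helper77.GP.Haus

/-!
# Gilbert-Pollak for connected graphs
-/

set_option autoImplicit false
open Classical

namespace Pool.Agent.Helper18.GP

open Relation

/-- the double sum over adjacent pairs is twice the length of a list of the edges -/
theorem edge_list {E : Type*} [MetricSpace E] (S : Finset E) (G : SimpleGraph S)
    (hG : G.Connected) :
    ∃ L : List (E × E), NConn L (S : Set E) ∧
      2 * nlen dist L = ∑ a : S, ∑ b : S, if G.Adj a b then dist (a : E) (b : E) else 0 := by
  obtain ⟨n, ⟨i⟩⟩ : ∃ n, Nonempty (S ≃ Fin n) := ⟨Fintype.card S, ⟨Fintype.equivFin S⟩⟩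
  set D : Finset (S × S) := (Finset.univ ×ˢ Finset.univ : Finset (S × S)).filter
    (fun p => G.Adj p.1 p.2 ∧ i p.1 < i p.2) with hD
  refine ⟨D.toList.map (fun p => ((p.1 : E), (p.2 : E))), ?_, ?_⟩
  · have key : ∀ x y : S, G.Adj x y →
        EqvGen (fun x y => (x, y) ∈ D.toList.map (fun p => ((p.1 : E), (p.2 : E)))) (x : E) y := by
      intro x y h
      rcases lt_trichotomy (i x) (i y) with h1 | h1 | h1
      · apply EqvGen.rel
        refine List.mem_map.2 ⟨(x, y), ?_, rfl⟩
        rw [Finset.mem_toList, hD, Finset.mem_filter]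
        exact ⟨by simp, h, h1⟩
      · exact absurd (i.injective h1) h.ne
      · apply EqvGen.symm
        apply EqvGen.rel
        refine List.mem_map.2 ⟨(y, x), ?_, rfl⟩
        rw [Finset.mem_toList, hD, Finset.mem_filter]
        exact ⟨by simp, h.symm, h1⟩
    intro a ha b hb
    have hab := hG.preconnected ⟨a, ha⟩ ⟨b, hb⟩
    obtain ⟨w⟩ := hab
    have : ∀ (x y : S), G.Walk x y →
        EqvGen (fun x y => (x, y) ∈ D.toList.map (fun p => ((p.1 : E), (p.2 : E)))) (x : E) y := by
      intro x y w
      induction w with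
      | nil => exact EqvGen.refl _
      | cons h _ ih => exact (key _ _ h).trans _ _ _ ih
    exact this _ _ w
  · have h1 : nlen dist (D.toList.map (fun p => ((p.1 : E), (p.2 : E)))) =
        ∑ p ∈ D, dist (p.1 : E) (p.2 : E) := by
      unfold nlen
      rw [List.map_map, ← Finset.sum_map_toList]
      rfl
    rw [h1, ← Finset.sum_product', hD, Finset.sum_filter]
    have h2 : ∑ p ∈ (Finset.univ ×ˢ Finset.univ : Finset (S × S)),
        (if G.Adj p.1 p.2 ∧ i p.1 < i p.2 then dist (p.1 : E) (p.2 : E) else 0) =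
        ∑ p ∈ (Finset.univ ×ˢ Finset.univ : Finset (S × S)),
        (if G.Adj p.1 p.2 ∧ i p.2 < i p.1 then dist (p.1 : E) (p.2 : E) else 0) := by
      apply Finset.sum_nbij' (fun p => (p.2, p.1)) (fun p => (p.2, p.1))
      · intro p _; simp
      · intro p _; simp
      · intro p _; rfl
      · intro p _; rfl
      · intro p _
        simp only [G.adj_comm p.1 p.2, dist_comm (p.1 : E) (p.2 : E)]
    rw [two_mul]
    nth_rewrite 2 [h2]
    rw [← Finset.sum_add_distrib]
    apply Finset.sum_congr rfl
    intro p _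
    by_cases h : G.Adj p.1 p.2
    · rcases lt_trichotomy (i p.1) (i p.2) with h1 | h1 | h1
      · simp [h, h1, not_lt.2 h1.le]
      · exact absurd (i.injective h1) h.ne
      · simp [h, h1, not_lt.2 h1.le]
    · simp [h]

/-- a list of pairs in `A` connecting `A` contains a connected graph -/
theorem graph_of_list {E : Type*} [MetricSpace E] (A : Finset E) (hA : A.Nonempty)
    (m : List (E × E)) (hm : ∀ e ∈ m, e.1 ∈ A ∧ e.2 ∈ A) (hc : NConn m (A : Set E)) :
    ∃ H : SimpleGraph A, H.Connected ∧
      (∑ a : A, ∑ b : A, if H.Adj a b then dist (a : E) (b : E) else 0) ≤ 2 * nlen dist m := by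
  have : Nonempty A := hA.to_subtype
  obtain ⟨G, hG⟩ : ∃ G : SimpleGraph A, ∀ x y : A,
      G.Adj x y ↔ x ≠ y ∧ (((x : E), (y : E)) ∈ m ∨ ((y : E), (x : E)) ∈ m) :=
    ⟨SimpleGraph.fromRel fun x y : A => ((x : E), (y : E)) ∈ m, fun x y =>
      SimpleGraph.fromRel_adj _ _ _⟩
  have key : ∀ x y : E, EqvGen (fun x y => (x, y) ∈ m) x y →
      (x ∈ A ↔ y ∈ A) ∧ ∀ (hx : x ∈ A) (hy : y ∈ A), G.Reachable ⟨x, hx⟩ ⟨y, hy⟩ := by
    intro x y h
    induction h with
    | rel x y h =>
      refine ⟨⟨fun _ => (hm _ h).2, fun _ => (hm _ h).1⟩, fun hx hy => ?_⟩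
      by_cases hxy : x = y
      · subst hxy; exact SimpleGraph.Reachable.refl _
      · exact SimpleGraph.Adj.reachable ((hG _ _).2 ⟨fun h' => hxy (congrArg Subtype.val h'),
          Or.inl h⟩)
    | refl x => exact ⟨Iff.rfl, fun _ _ => SimpleGraph.Reachable.refl _⟩
    | symm x y _ ih => exact ⟨ih.1.symm, fun hx hy => (ih.2 hy hx).symm⟩
    | trans x y z _ _ ih1 ih2 =>
      exact ⟨ih1.1.trans ih2.1, fun hx hz => (ih1.2 hx (ih1.1.1 hx)).trans (ih2.2 _ hz)⟩
  have hconn : G.Connected := by
    rw [SimpleGraph.connected_iff]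
    refine ⟨fun x y => ?_, this⟩
    exact (key x y (hc x x.2 y y.2)).2 x.2 y.2
  refine ⟨G, hconn, ?_⟩
  have hle : (∑ a : A, ∑ b : A, if G.Adj a b then dist (a : E) (b : E) else 0) ≤
      (∑ a : A, ∑ b : A, if ((a : E), (b : E)) ∈ m then dist (a : E) (b : E) else 0) +
      ∑ a : A, ∑ b : A, if ((b : E), (a : E)) ∈ m then dist (a : E) (b : E) else 0 := by
    rw [← Finset.sum_add_distrib]
    apply Finset.sum_le_sum
    intro a _
    rw [← Finset.sum_add_distrib]
    apply Finset.sum_le_sum
    intro b _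
    have hd : 0 ≤ dist (a : E) (b : E) := dist_nonneg
    by_cases h1 : ((a : E), (b : E)) ∈ m
    · rw [if_pos h1]
      have h2 : (0 : ℝ) ≤ if ((b : E), (a : E)) ∈ m then dist (a : E) (b : E) else 0 := by
        split_ifs
        · exact hd
        · exact le_refl _
      split_ifs <;> linarith
    · rw [if_neg h1]
      by_cases h2 : ((b : E), (a : E)) ∈ m
      · rw [if_pos h2]
        split_ifs <;> linarith
      · rw [if_neg h2]
        have h3 : ¬ G.Adj a b := by
          rw [hG]
          rintro ⟨_, h | h⟩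
          · exact h1 h
          · exact h2 h
        rw [if_neg h3]
        linarith
  have hsw : (∑ a : A, ∑ b : A, if ((b : E), (a : E)) ∈ m then dist (a : E) (b : E) else 0) =
      ∑ a : A, ∑ b : A, if ((a : E), (b : E)) ∈ m then dist (a : E) (b : E) else 0 := by
    rw [Finset.sum_comm]
    apply Finset.sum_congr rfl
    intro a _
    apply Finset.sum_congr rfl
    intro b _
    rw [dist_comm]
  have hsum : (∑ a : A, ∑ b : A, if ((a : E), (b : E)) ∈ m then dist (a : E) (b : E) else 0) ≤
      nlen dist m := by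
    have h1 : (∑ a : A, ∑ b : A, if ((a : E), (b : E)) ∈ m then dist (a : E) (b : E) else 0) =
        ∑ q ∈ ((Finset.univ ×ˢ Finset.univ : Finset (A × A)).filter
          (fun p => ((p.1 : E), (p.2 : E)) ∈ m)).image (fun p => ((p.1 : E), (p.2 : E))),
          dist q.1 q.2 := by
      rw [Finset.sum_image, Finset.sum_filter, ← Finset.sum_product']
      intro p _ q _ h
      rw [Prod.ext_iff] at h
      exact Prod.ext (Subtype.ext h.1) (Subtype.ext h.2)
    rw [h1]
    calc _ ≤ ∑ q ∈ m.toFinset, dist q.1 q.2 := by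
          apply Finset.sum_le_sum_of_subset_of_nonneg
          · intro q hq
            rw [Finset.mem_image] at hq
            obtain ⟨p, hp, rfl⟩ := hq
            exact List.mem_toFinset.2 (Finset.mem_filter.1 hp).2
          · intro _ _ _; exact dist_nonneg
      _ ≤ nlen dist m := by
          have hdd : m.toFinset = m.dedup.toFinset := by ext q; simp
          rw [hdd, List.sum_toFinset _ (List.nodup_dedup m)]
          apply List.Sublist.sum_le_sum ((List.dedup_sublist m).map _)
          intro a ha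
          rw [List.mem_map] at ha
          obtain ⟨q, _, rfl⟩ := ha
          exact dist_nonneg
  rw [hsw] at hle
  linarith

theorem eqv_image {E F : Type*} (g : E → F) (m : List (E × E)) {x y : E}
    (h : EqvGen (fun x y => (x, y) ∈ m) x y) :
    EqvGen (fun x y => (x, y) ∈ m.map fun e => (g e.1, g e.2)) (g x) (g y) := by
  induction h with
  | rel x y h => exact EqvGen.rel _ _ (List.mem_map.2 ⟨(x, y), h, rfl⟩)
  | refl x => exact EqvGen.refl _
  | symm x y _ ih => exact ih.symm
  | trans x y z _ _ ih1 ih2 => exact ih1.trans _ _ _ ih2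

theorem nlen_image {E F : Type*} [MetricSpace E] [MetricSpace F] {g : E → F} (hg : Isometry g)
    (m : List (E × E)) : nlen dist (m.map fun e => (g e.1, g e.2)) = nlen dist m := by
  unfold nlen
  rw [List.map_map]
  congr 1
  apply List.map_congr_left
  intro e _
  exact hg.dist_eq e.1 e.2

theorem frozen_of (h : stPlanar) :
    ∀ (X S : Finset (EuclideanSpace ℝ (Fin 2))), X.Nonempty → X ⊆ S →
      ∀ (G : SimpleGraph S), G.Connected →
        ∃ (H : SimpleGraph X), H.Connected ∧
          Real.sqrt 3 / 2 *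
              (∑ a : X, ∑ b : X,
                if H.Adj a b then
                  dist (a : EuclideanSpace ℝ (Fin 2)) (b : EuclideanSpace ℝ (Fin 2))
                else 0)
            ≤ ∑ a : S, ∑ b : S,
                if G.Adj a b then
                  dist (a : EuclideanSpace ℝ (Fin 2)) (b : EuclideanSpace ℝ (Fin 2))
                else 0 := by
  intro X S hX hXS G hG
  obtain ⟨L, hL, hLl⟩ := edge_list S G hG
  set g := Complex.orthonormalBasisOneI.repr with hg
  obtain ⟨m, hm, hmc, hml⟩ := h (X.image g.symm) (L.map fun e => (g.symm e.1, g.symm e.2)) (by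
    intro a ha b hb
    rw [Finset.mem_coe, Finset.mem_image] at ha hb
    obtain ⟨a, ha, rfl⟩ := ha
    obtain ⟨b, hb, rfl⟩ := hb
    exact eqv_image _ _ (hL a (by exact_mod_cast hXS ha) b (by exact_mod_cast hXS hb)))
  rw [nlen_image g.symm.isometry] at hml
  obtain ⟨H, hH, hHl⟩ := graph_of_list X hX (m.map fun e => (g e.1, g e.2)) (by
      intro e he
      rw [List.mem_map] at he
      obtain ⟨e, he, rfl⟩ := he
      have h1 := hm e he
      rw [Finset.mem_image, Finset.mem_image] at h1
      obtain ⟨⟨a, ha, ha'⟩, ⟨b, hb, hb'⟩⟩ := h1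
      constructor
      · show g e.1 ∈ X
        rw [← ha', LinearIsometryEquiv.apply_symm_apply]
        exact ha
      · show g e.2 ∈ X
        rw [← hb', LinearIsometryEquiv.apply_symm_apply]
        exact hb) (by
      intro a ha b hb
      have h1 := hmc (g.symm a) (by exact_mod_cast Finset.mem_image_of_mem _ ha) (g.symm b)
        (by exact_mod_cast Finset.mem_image_of_mem _ hb)
      have h3 := eqv_image g m h1
      rwa [LinearIsometryEquiv.apply_symm_apply, LinearIsometryEquiv.apply_symm_apply] at h3)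
  refine ⟨H, hH, ?_⟩
  rw [nlen_image g.isometry] at hHl
  rw [← hLl]
  have hr : rho = Real.sqrt 3 / 2 := rfl
  rw [← hr]
  have hr0 : 0 ≤ rho := by rw [hr]; positivity
  calc _ ≤ rho * (2 * nlen dist m) := mul_le_mul_of_nonneg_left hHl hr0
    _ = 2 * (rho * nlen dist m) := by ring
    _ ≤ 2 * nlen dist L := by linarith

end Pool.Agent.Helper18.GP
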