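import Pool.Agent.Helper18.GP.AllG
import Pool.Agent.Helper88.GP.Flip

/-!
# Gilbert-Pollak: the inequality for all triangulated polygons
-/

namespace Pool.Agent.Helper18.GP

theorem tFlip : stFlip := Pool.Agent.Helper88.GP.flip Pool.Agent.Helper13.GP.bdAdj

/-- all triangulated polygons are good -/
theorem tG : stG := tG_of tFlip

end Pool.Agent.Helper18.GP
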