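import Pool.Agent.Helper18.GP.Min1

/-!
# Existence of minimisers
-/

namespace Pool.Agent.Helper18.GP

open Relation Classical

variable {N : ℕ}

/-- combinatorial types -/
abbrev Ty (N : ℕ) : Type :=
  Finset (Fin N) × SimpleGraph (Fin N) × Finset (Fin N) × (Fin N → Fin N → Prop)

/-- valid types with `n` vertices -/
def Vld (n : ℕ) (τ : Ty N) : Prop :=
  τ.1.card = n ∧ IsTri τ.1 τ.2.1 ∧ FA τ.1 τ.2.2.1 τ.2.2.2

/-- normalised configurations of a given type -/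
def KK (n : ℕ) (τ : Ty N) : Set (Fin N → ℂ) :=
  {P | Vld n τ ∧ Wk τ.1 τ.2.1 P ∧ Mst τ.1 (dV τ.1 τ.2.1 P) τ.2.2.2 = 1 ∧ ‖P‖ ≤ 1}

theorem Wk_closed (V : Finset (Fin N)) (G : SimpleGraph (Fin N)) :
    IsClosed {P : Fin N → ℂ | Wk V G P} := by
  unfold Wk
  simp only [Set.setOf_forall]
  refine isClosed_iInter fun a => isClosed_iInter fun _ => isClosed_iInter fun b =>
    isClosed_iInter fun _ => isClosed_iInter fun c => isClosed_iInter fun _ =>
    isClosed_iInter fun _ => isClosed_iInter fun _ => isClosed_iInter fun _ =>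
    isClosed_iInter fun _ => ?_
  apply isClosed_le continuous_const
  unfold crs
  fun_prop

theorem KK_compact (hCont : stCont) (n : ℕ) (τ : Ty N) : IsCompact (KK n τ) := by
  by_cases hv : Vld n τ
  · have h1 : IsClosed {P : Fin N → ℂ | Mst τ.1 (dV τ.1 τ.2.1 P) τ.2.2.2 = 1} :=
      isClosed_eq (Mst_continuous hCont hv.2.1 _) continuous_const
    have h2 := Wk_closed τ.1 τ.2.1
    have h3 : IsCompact (Metric.closedBall (0 : Fin N → ℂ) 1) := isCompact_closedBall _ _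
    have : KK n τ = Metric.closedBall (0 : Fin N → ℂ) 1 ∩
        ({P | Wk τ.1 τ.2.1 P} ∩ {P | Mst τ.1 (dV τ.1 τ.2.1 P) τ.2.2.2 = 1}) := by
      ext P
      simp only [KK, Set.mem_setOf_eq, Set.mem_inter_iff, mem_closedBall_zero_iff]
      tauto
    rw [this]
    exact h3.inter_right (h2.inter h1)
  · have : KK n τ = ∅ := by
      ext P
      simp only [KK, Set.mem_setOf_eq, Set.mem_empty_iff_false, iff_false]
      tauto
    rw [this]
    exact isCompact_empty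

theorem Phi_scale (V : Finset (Fin N)) (P : Fin N → ℂ) (c : ℝ) (q : ℂ) :
    Phi V (fun v => (c : ℂ) * P v + q) = c ^ 2 * Phi V P := by
  unfold Phi
  rw [Finset.mul_sum]
  refine Finset.sum_congr rfl fun a _ => ?_
  rw [Finset.mul_sum]
  refine Finset.sum_congr rfl fun b _ => ?_
  rw [show (c : ℂ) * P a + q - ((c : ℂ) * P b + q) = (c : ℂ) * (P a - P b) by ring, norm_mul,
    Complex.norm_real, mul_pow, Real.norm_eq_abs, sq_abs]

theorem crs_scale (c : ℝ) (z w : ℂ) : crs ((c : ℂ) * z) ((c : ℂ) * w) = c ^ 2 * crs z w := by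
  unfold crs
  simp
  ring

theorem Wk_scale {V : Finset (Fin N)} {G : SimpleGraph (Fin N)} {P : Fin N → ℂ} (c : ℝ) (q : ℂ)
    (h : Wk V G P) : Wk V G (fun v => (c : ℂ) * P v + q) := by
  intro x hx y hy z hz h1 h2 h3 h4
  have := h x hx y hy z hz h1 h2 h3 h4
  simp only
  rw [show (c : ℂ) * P y + q - ((c : ℂ) * P x + q) = (c : ℂ) * (P y - P x) by ring,
    show (c : ℂ) * P z + q - ((c : ℂ) * P x + q) = (c : ℂ) * (P z - P x) by ring, crs_scale]
  positivity

theorem Mst_scale {V : Finset (Fin N)} {F : Fin N → Fin N → Prop} {w w' : Fin N → Fin N → ℝ}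
    {c : ℝ} (hc : 0 ≤ c) (h : ∀ a ∈ V, ∀ b ∈ V, w' a b = c * w a b) :
    Mst V w' F = c * Mst V w F := by
  obtain ⟨m, hm, h1⟩ := stMAtt_holds N V w F
  obtain ⟨m', hm', h2⟩ := stMAtt_holds N V w' F
  have key : ∀ m, MConn V F m → mw w' m = c * mw w m := by
    intro m hm
    unfold mw
    rw [Finset.mul_sum]
    exact Finset.sum_congr rfl fun e he => h _ (hm.1 e he).1 _ (hm.1 e he).2
  have hl : ∀ (w : Fin N → Fin N → ℝ) (m : Finset (Fin N × Fin N)), MConn V F m →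
      Mst V w F ≤ mw w m := by
    intro w m hm
    rw [Mst_eq_inf']
    exact Finset.inf'_le _ (by simpa using hm)
  apply le_antisymm
  · rw [← h1, ← key m hm]
    exact hl w' m hm
  · rw [← h2, key m' hm']
    exact mul_le_mul_of_nonneg_left (hl w m' hm') hc

/-- reduction of a bad normalised configuration to a bounded one -/
theorem reduce (hDeg : stDeg) (hBdd : stBdd) (hMet : stMet) (hLn : stLnP) (hScale : stScale)
    {n : ℕ} (ih : IH N n) (hn : 3 ≤ n) {V : Finset (Fin N)} {G : SimpleGraph (Fin N)}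
    {P : Fin N → ℂ} {A : Finset (Fin N)} {F : Fin N → Fin N → Prop} (hc : V.card = n)
    (hC : Cfg V G P A F) (hM : Mst V (dV V G P) F = 1) (hL : Ln V G P A < rho) :
    ∃ (G' : SimpleGraph (Fin N)) (P' : Fin N → ℂ), P' ∈ KK n (V, G', A, F) ∧
      Ln V G' P' A = Ln V G P A ∧ Phi V P' = Phi V P ∧ St V G' P' := by
  rcases hDeg N n ih V G P A F hc hC with h | ⟨G', hT', hS', -, hIso⟩
  · rw [hM] at h
    linarith
  have hC' : Cfg V G' P A F := hC.FA.Cfg hT' (Wk_of_St hS')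
  have hM' : Mst V (dV V G' P) F = 1 := by rw [Mst_congr F hIso.1, hM]
  have hL' : Ln V G' P A = Ln V G P A := hIso.2 A hC.AV
  have hbd := hBdd N n ih V G' P A F hc hC' hS' (by rw [hM', hL', mul_one]; exact hL)
  have hVne : V.Nonempty := by rw [← Finset.card_pos]; omega
  obtain ⟨v₀, hv₀⟩ := hVne
  obtain ⟨a₀, ha₀, -⟩ := hC.cov v₀ hv₀
  have ha₀V := hC.AV ha₀
  -- the new positions
  set Q : Fin N → ℂ := fun v => ((1 : ℝ) : ℂ) * P v + (-P a₀) with hQ
  set P' : Fin N → ℂ := fun v => if v ∈ V then Q v else 0 with hP'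
  have hPQ : ∀ v ∈ V, Q v = P' v := fun v hv => by rw [hP']; simp [hv]
  obtain ⟨s1, s2⟩ := hScale N V G' P 1 (-P a₀) zero_le_one hT'
  have hLnQ : Ln V G' P' A = Ln V G P A := by
    rw [← Ln_congr hPQ, ← hL']
    have := s1 A hC.AV
    rw [one_mul] at this
    exact this
  have hdQ : ∀ a ∈ V, ∀ b ∈ V, dV V G' P' a b = dV V G' P a b := by
    intro a ha b hb
    rw [← dV_congr hPQ]
    have := s2 a ha b hb
    rw [one_mul] at this
    exact this
  have hStQ : St V G' P' := by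
    intro x hx y hy z hz h1 h2 h3 h4
    have := hS' x hx y hy z hz h1 h2 h3 h4
    rw [← hPQ x hx, ← hPQ y hy, ← hPQ z hz, hQ]
    simp only
    rw [show ((1 : ℝ) : ℂ) * P y + -P a₀ - (((1 : ℝ) : ℂ) * P x + -P a₀) = P y - P x by
        push_cast; ring,
      show ((1 : ℝ) : ℂ) * P z + -P a₀ - (((1 : ℝ) : ℂ) * P x + -P a₀) = P z - P x by
        push_cast; ring]
    exact this
  refine ⟨G', P', ⟨⟨hc, hT', hC.FA⟩, Wk_of_St hStQ, ?_, ?_⟩, hLnQ, ?_, hStQ⟩
  · change Mst V (dV V G' P') F = 1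
    rw [Mst_congr F hdQ, hM']
  · -- bounded
    rw [pi_norm_le_iff_of_nonneg zero_le_one]
    intro v
    by_cases hv : v ∈ V
    · have h1 : P' v = P v - P a₀ := by
        rw [← hPQ v hv, hQ]
        push_cast
        ring
      rw [h1]
      have hMP := hMet N V G' P hT'
      have hLP := hLn N V G' P hT'
      have hAb : (P '' (A : Set (Fin N))) ⊆ Metric.closedBall (P a₀) 1 := by
        rintro _ ⟨a, ha, rfl⟩
        rw [Metric.mem_closedBall, dist_eq_norm]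
        have h2 := hMP.low _ (dl_mem G' (hC.AV ha)) _ (dl_mem G' ha₀V)
        rw [dev_dl, dev_dl] at h2
        have h3 := hLP.low A hC.AV a ha a₀ ha₀
        have h4 : dK V G' P (dl a) (dl a₀) = dV V G' P a a₀ := rfl
        have h5 := rho_lt_one
        rw [h4] at h2
        rw [hL'] at h3
        linarith
      have h6 := convexHull_min hAb (convex_closedBall _ _) (hbd v hv)
      rw [Metric.mem_closedBall, dist_eq_norm] at h6
      exact h6
    · have h1 : P' v = 0 := by rw [hP']; simp [hv]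
      rw [h1]
      simp
  · rw [← Phi_congr hPQ, hQ, Phi_scale]
    ring

theorem stMin_of (hSmall : stSmall) (hDeg : stDeg) (hBdd : stBdd) (hMet : stMet)
    (hCont : stCont) (hLn : stLnP) (hLnCont : stLnCont) (hScale : stScale) : stMin := by
  intro N n ih hbad
  have hn3 : 3 ≤ n := by
    by_contra hcon
    exact hbad (hSmall N n (by omega))
  -- a bad configuration
  unfold GOOD at hbad
  push Not at hbad
  obtain ⟨V₀, G₀, P₀, A₀, F₀, hc₀, hC₀, hlt₀⟩ := hbad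
  -- scaling
  have hsc : ∀ (V : Finset (Fin N)) (G : SimpleGraph (Fin N)) (P : Fin N → ℂ)
      (A : Finset (Fin N)) (F : Fin N → Fin N → Prop), Cfg V G P A F →
      0 < Mst V (dV V G P) F → ∃ P' : Fin N → ℂ, Cfg V G P' A F ∧ Mst V (dV V G P') F = 1 ∧
        Ln V G P' A = Ln V G P A / Mst V (dV V G P) F ∧
        Phi V P' = Phi V P / (Mst V (dV V G P) F) ^ 2 := by
    intro V G P A F hC hM
    set M := Mst V (dV V G P) F with hMdef
    obtain ⟨s1, s2⟩ := hScale N V G P M⁻¹ 0 (by positivity) hC.tri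
    refine ⟨fun v => ((M⁻¹ : ℝ) : ℂ) * P v + 0, hC.FA.Cfg hC.tri (Wk_scale _ _ hC.wk), ?_, ?_, ?_⟩
    · rw [Mst_scale (c := M⁻¹) (by positivity) s2, ← hMdef]
      field_simp
    · rw [s1 A hC.AV]
      field_simp
    · rw [Phi_scale]
      field_simp
  -- the set of values
  set U : Set ℝ := ⋃ τ : Ty N, (fun P : Fin N → ℂ => Ln τ.1 τ.2.1 P τ.2.2.1) '' (KK n τ) with hU
  have hLnc : ∀ τ : Ty N, ContinuousOn (fun P : Fin N → ℂ => Ln τ.1 τ.2.1 P τ.2.2.1) (KK n τ) := by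
    intro τ
    by_cases hv : Vld n τ
    · exact (hLnCont N τ.1 τ.2.1 hv.2.1 τ.2.2.1 hv.2.2.AV).continuousOn
    · have : KK n τ = ∅ := by
        ext P
        simp only [KK, Set.mem_setOf_eq, Set.mem_empty_iff_false, iff_false]
        tauto
      rw [this]
      exact continuousOn_empty _
  have hUc : IsCompact U := isCompact_iUnion fun τ => (KK_compact hCont n τ).image_of_continuousOn
    (hLnc τ)
  have hred : ∀ (V : Finset (Fin N)) (G : SimpleGraph (Fin N)) (P : Fin N → ℂ)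
      (A : Finset (Fin N)) (F : Fin N → Fin N → Prop), V.card = n → Cfg V G P A F →
      Mst V (dV V G P) F = 1 → Ln V G P A < rho → Ln V G P A ∈ U := by
    intro V G P A F hc hC hM hL
    obtain ⟨G', P', hK, hl, -, -⟩ := reduce hDeg hBdd hMet hLn hScale ih hn3 hc hC hM hL
    rw [hU, Set.mem_iUnion]
    exact ⟨(V, G', A, F), P', hK, hl⟩
  -- the bad one
  have hMP₀ := hMet N V₀ G₀ P₀ hC₀.tri
  have hLP₀ := hLn N V₀ G₀ P₀ hC₀.tri
  have hM₀ : 0 < Mst V₀ (dV V₀ G₀ P₀) F₀ := by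
    have h1 := hLP₀.nonneg A₀ hC₀.AV
    by_contra hcon
    have := rho_pos
    nlinarith
  obtain ⟨P₁, hC₁, hM₁, hL₁, -⟩ := hsc V₀ G₀ P₀ A₀ F₀ hC₀ hM₀
  have hL₁' : Ln V₀ G₀ P₁ A₀ < rho := by
    rw [hL₁, div_lt_iff₀ hM₀]; exact hlt₀
  have hU₁ := hred V₀ G₀ P₁ A₀ F₀ hc₀ hC₁ hM₁ hL₁'
  obtain ⟨r, hrU, hrmin⟩ := hUc.exists_isLeast ⟨_, hU₁⟩
  have hrlt : r < rho := lt_of_le_of_lt (hrmin hU₁) hL₁'
  have hlow1 : ∀ (V : Finset (Fin N)) (G : SimpleGraph (Fin N)) (P : Fin N → ℂ)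
      (A : Finset (Fin N)) (F : Fin N → Fin N → Prop), V.card = n → Cfg V G P A F →
      Mst V (dV V G P) F = 1 → r ≤ Ln V G P A := by
    intro V G P A F hc hC hM
    by_cases hL : Ln V G P A < rho
    · exact hrmin (hred V G P A F hc hC hM hL)
    · linarith [not_lt.1 hL]
  -- the set of values of `Phi`
  set W : Set ℝ := ⋃ τ : Ty N, (fun P : Fin N → ℂ => Phi τ.1 P) ''
    (KK n τ ∩ {P | Ln τ.1 τ.2.1 P τ.2.2.1 = r}) with hW
  have hWc : IsCompact W := by
    refine isCompact_iUnion fun τ => ?_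
    have h1 : IsCompact (KK n τ ∩ {P | Ln τ.1 τ.2.1 P τ.2.2.1 = r}) := by
      by_cases hv : Vld n τ
      · exact (KK_compact hCont n τ).inter_right
          (isClosed_eq (hLnCont N τ.1 τ.2.1 hv.2.1 τ.2.2.1 hv.2.2.AV) continuous_const)
      · have : KK n τ = ∅ := by
          ext P
          simp only [KK, Set.mem_setOf_eq, Set.mem_empty_iff_false, iff_false]
          tauto
        rw [this, Set.empty_inter]
        exact isCompact_empty
    apply h1.image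
    unfold Phi
    fun_prop
  have hWne : W.Nonempty := by
    rw [hU, Set.mem_iUnion] at hrU
    obtain ⟨τ, P, hP, hl⟩ := hrU
    exact ⟨Phi τ.1 P, by rw [hW, Set.mem_iUnion]; exact ⟨τ, P, ⟨hP, hl⟩, rfl⟩⟩
  obtain ⟨φ, hφW, hφmax⟩ := hWc.exists_isGreatest hWne
  rw [hW, Set.mem_iUnion] at hφW
  obtain ⟨τ, P, ⟨hP, hl⟩, hφ⟩ := hφW
  obtain ⟨⟨hcard, hT, hFA⟩, hWk, hMst, -⟩ := hP
  simp only [Set.mem_setOf_eq] at hl
  simp only at hφ
  have hCτ : Cfg τ.1 τ.2.1 P τ.2.2.1 τ.2.2.2 := hFA.Cfg hT hWk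
  -- pass to a strict triangulation
  rcases hDeg N n ih τ.1 τ.2.1 P τ.2.2.1 τ.2.2.2 hcard hCτ with h | ⟨G', hT', hS', -, hIso⟩
  · rw [hMst, hl] at h
    linarith
  have hC' : Cfg τ.1 G' P τ.2.2.1 τ.2.2.2 := hFA.Cfg hT' (Wk_of_St hS')
  have hM' : Mst τ.1 (dV τ.1 G' P) τ.2.2.2 = 1 := by rw [Mst_congr _ hIso.1, hMst]
  have hL' : Ln τ.1 G' P τ.2.2.1 = r := by rw [hIso.2 _ hFA.AV, hl]
  have hMP' := hMet N τ.1 G' P hT'
  have hLP' := hLn N τ.1 G' P hT'
  refine ⟨τ.1, G', P, τ.2.2.1, τ.2.2.2, r, ⟨hn3, hcard, hC', hS', hM', hL', ?_, hrlt, ?_, ?_⟩⟩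
  · -- positivity
    have h0 := hLP'.nonneg _ hFA.AV
    rw [hL'] at h0
    rcases h0.lt_or_eq with h | h
    · exact h
    · exfalso
      have hd : ∀ a ∈ τ.1, ∀ b ∈ τ.1, 0 ≤ dV τ.1 G' P a b :=
        fun a ha b hb => hMP'.nonneg _ (dl_mem G' ha) _ (dl_mem G' hb)
      have := Mst_le_zero' hd hFA (fun a ha b hb => by
        have := hLP'.low _ hFA.AV a ha b hb
        rw [hL', ← h] at this
        exact this)
      rw [hM'] at this
      linarith
  · intro V G P A F hc hC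
    have hMP := hMet N V G P hC.tri
    have hLP := hLn N V G P hC.tri
    have hM0 : 0 ≤ Mst V (dV V G P) F :=
      Mst_nonneg fun a ha b hb => hMP.nonneg _ (dl_mem G ha) _ (dl_mem G hb)
    rcases hM0.lt_or_eq with h | h
    · obtain ⟨P₂, hC₂, hM₂, hL₂, -⟩ := hsc V G P A F hC h
      have := hlow1 V G P₂ A F hc hC₂ hM₂
      rw [hL₂, le_div_iff₀ h] at this
      exact this
    · rw [← h, mul_zero]
      exact hLP.nonneg A hC.AV
  · intro G₂ P₂ A₂ F₂ hC₂ hMp hL₂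
    obtain ⟨P₃, hC₃, hM₃, hL₃, hΦ₃⟩ := hsc τ.1 G₂ P₂ A₂ F₂ hC₂ hMp
    have hL₃' : Ln τ.1 G₂ P₃ A₂ = r := by
      rw [hL₃, hL₂]
      field_simp
    obtain ⟨G₄, P₄, hK, hl₄, hΦ₄, -⟩ := reduce hDeg hBdd hMet hLn hScale ih hn3 hcard hC₃ hM₃
      (by rw [hL₃']; exact hrlt)
    have hmem : Phi τ.1 P₄ ∈ W := by
      rw [hW, Set.mem_iUnion]
      refine ⟨(τ.1, G₄, A₂, F₂), P₄, ⟨hK, ?_⟩, rfl⟩
      simp only [Set.mem_setOf_eq]
      rw [hl₄, hL₃']
    have h5 := hφmax hmem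
    rw [← hφ, hΦ₄, hΦ₃, div_le_iff₀ (by positivity)] at h5
    exact h5

end Pool.Agent.Helper18.GP
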