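import Pool.Agent.Helper18.GP.Cyc

/-!
# A separated cut at a minimal place is clear
-/

namespace Pool.Agent.Helper18.GP

open Relation Classical

variable {N : ℕ}

/-- a separated cut `(w; B₁, B₂)` together with a vertex `u` in its gap -/
structure Bad (V : Finset (Fin N)) (G : SimpleGraph (Fin N)) (P : Fin N → ℂ)
    (A : Finset (Fin N)) (w : Fin N) (B₁ B₂ : Finset (Fin N)) (u : Fin N) : Prop where
  wV : w ∈ V
  n1 : B₁.Nonempty
  n2 : B₂.Nonempty
  dj : Disjoint B₁ B₂
  un : B₁ ∪ B₂ = A.erase w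
  sep : ∀ b ∈ B₁, ∀ c ∈ B₂, cyc w b < cyc w c
  len : Ln V G P (insert w B₁) + Ln V G P (insert w B₂) ≤ Ln V G P A
  uV : u ∈ V
  uw : u ≠ w
  u1 : ∀ b ∈ B₁, cyc w b ≤ cyc w u
  u2 : ∀ c ∈ B₂, cyc w u ≤ cyc w c

theorem bad_exists {V : Finset (Fin N)} {G : SimpleGraph (Fin N)} {P : Fin N → ℂ}
    {A : Finset (Fin N)} (hA : A ⊆ V) (h : ¬ NSsep V G P A) :
    ∃ w B₁ B₂ u, Bad V G P A w B₁ B₂ u := by
  unfold NSsep at h
  push Not at h
  obtain ⟨w, hw, B₁, B₂, h1, h2, h3, h4, h5, h6⟩ := h
  obtain ⟨u, hu, hmax⟩ := Finset.exists_max_image B₁ (fun b => cyc w b) h1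
  have hsub : ∀ x ∈ B₁, x ∈ A ∧ x ≠ w := by
    intro x hx
    have : x ∈ A.erase w := by rw [← h4]; exact Finset.mem_union_left _ hx
    rw [Finset.mem_erase] at this
    exact ⟨this.2, this.1⟩
  exact ⟨w, B₁, B₂, u, ⟨hw, h1, h2, h3, h4, h5, h6, hA (hsub u hu).1, (hsub u hu).2,
    hmax, fun c hc => (h5 u hu c hc).le⟩⟩

theorem Bad.m1 {V : Finset (Fin N)} {G : SimpleGraph (Fin N)} {P : Fin N → ℂ}
    {A : Finset (Fin N)} {w : Fin N} {B₁ B₂ : Finset (Fin N)} {u : Fin N}
    (h : Bad V G P A w B₁ B₂ u) {x : Fin N} (hx : x ∈ B₁) : x ∈ A ∧ x ≠ w := by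
  have : x ∈ A.erase w := by rw [← h.un]; exact Finset.mem_union_left _ hx
  rw [Finset.mem_erase] at this
  exact ⟨this.2, this.1⟩

theorem Bad.m2 {V : Finset (Fin N)} {G : SimpleGraph (Fin N)} {P : Fin N → ℂ}
    {A : Finset (Fin N)} {w : Fin N} {B₁ B₂ : Finset (Fin N)} {u : Fin N}
    (h : Bad V G P A w B₁ B₂ u) {x : Fin N} (hx : x ∈ B₂) : x ∈ A ∧ x ≠ w := by
  have : x ∈ A.erase w := by rw [← h.un]; exact Finset.mem_union_right _ hx
  rw [Finset.mem_erase] at this
  exact ⟨this.2, this.1⟩

theorem Bad.mA {V : Finset (Fin N)} {G : SimpleGraph (Fin N)} {P : Fin N → ℂ}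
    {A : Finset (Fin N)} {w : Fin N} {B₁ B₂ : Finset (Fin N)} {u : Fin N}
    (h : Bad V G P A w B₁ B₂ u) {x : Fin N} (hx : x ∈ A) : x = w ∨ x ∈ B₁ ∨ x ∈ B₂ := by
  by_cases hxw : x = w
  · exact Or.inl hxw
  · right
    have : x ∈ A.erase w := Finset.mem_erase.2 ⟨hxw, hx⟩
    rw [← h.un, Finset.mem_union] at this
    exact this

theorem bad_step (hpinch : stPinch) {V : Finset (Fin N)} {G : SimpleGraph (Fin N)}
    {P : Fin N → ℂ} {A : Finset (Fin N)} (hA : A ⊆ V) (hT : IsTri V G) (hL : LnP V G P)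
    (hsy : ∀ a ∈ V, ∀ b ∈ V, dV V G P a b = dV V G P b a)
    (hpos : ∀ a ∈ V, ∀ b ∈ V, a ≠ b → 0 < dV V G P a b)
    {w : Fin N} {B₁ B₂ : Finset (Fin N)} {u : Fin N} (h : Bad V G P A w B₁ B₂ u)
    {g : Fin N} (hg : g ∈ V) (hgw : g ≠ w) (hgu : g ≠ u)
    (hd : dV V G P w u = dV V G P w g + dV V G P g u) :
    ∃ w' B₁' B₂' u', Bad V G P A w' B₁' B₂' u' ∧ dV V G P w' u' < dV V G P w u := by
  have p1 := hpos w h.wV g hg (Ne.symm hgw)
  have p2 := hpos g hg u h.uV hgu
  have hB1V : ∀ x ∈ B₁, x ∈ V := fun x hx => hA (h.m1 hx).1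
  have hB2V : ∀ x ∈ B₂, x ∈ V := fun x hx => hA (h.m2 hx).1
  have hN := cyc_lt w g
  have hgpos : 0 < cyc w g := cyc_pos.2 hgw
  have hupos : 0 < cyc w u := cyc_pos.2 h.uw
  have huN := cyc_lt w u
  by_cases c1 : ∃ b ∈ B₁, cyc w g < cyc w b
  · -- `g` is on the low side
    obtain ⟨b, hb, hgb⟩ := c1
    have hgu' : cyc w g < cyc w u := lt_of_lt_of_le hgb (h.u1 b hb)
    set B₁' := B₁.filter (fun x => cyc w g < cyc w x) with hB1'
    set B₂' := (A.erase g) \ B₁' with hB2'
    have hcu : cyc g u = cyc w u - cyc w g := cyc_change_le hgu'.le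
    -- elements of B₂'
    have hm2 : ∀ x ∈ B₂', x = w ∨ x ∈ B₂ ∨ (x ∈ B₁ ∧ cyc w x < cyc w g) := by
      intro x hx
      rw [hB2', Finset.mem_sdiff, Finset.mem_erase] at hx
      rcases h.mA hx.1.2 with h1 | h1 | h1
      · exact Or.inl h1
      · right; right
        refine ⟨h1, ?_⟩
        by_contra hcon
        rcases lt_or_eq_of_le (not_lt.1 hcon) with h2 | h2
        · exact hx.2 (by rw [hB1']; exact Finset.mem_filter.2 ⟨h1, h2⟩)
        · exact hx.1.1 (cyc_inj h2.symm)
      · exact Or.inr (Or.inl h1)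
    have hsub2 : B₂ ⊆ B₂' := by
      intro x hx
      rw [hB2', Finset.mem_sdiff, Finset.mem_erase]
      refine ⟨⟨?_, (h.m2 hx).1⟩, ?_⟩
      · rintro rfl
        have := h.u2 _ hx
        omega
      · rw [hB1', Finset.mem_filter]
        rintro ⟨h1, -⟩
        exact (Finset.disjoint_left.1 h.dj h1) hx
    have hsepg : ∀ x ∈ B₁', cyc g x ≤ cyc g u ∧ ∀ y ∈ B₂', cyc g x < cyc g y := by
      intro x hx
      rw [hB1', Finset.mem_filter] at hx
      have hxu := h.u1 x hx.1
      have hcx : cyc g x = cyc w x - cyc w g := cyc_change_le hx.2.le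
      refine ⟨by omega, ?_⟩
      intro y hy
      rcases hm2 y hy with rfl | h1 | ⟨h1, h2⟩
      · rw [cyc_back (Ne.symm hgw |> Ne.symm)]
        have := cyc_lt y x
        omega
      · have h3 := h.sep x hx.1 y h1
        have : cyc g y = cyc w y - cyc w g := cyc_change_le (by omega)
        omega
      · have h3 := cyc_lt w x
        rw [cyc_change_gt h2]
        omega
    have hu2g : ∀ y ∈ B₂', cyc g u ≤ cyc g y := by
      intro y hy
      rcases hm2 y hy with rfl | h1 | ⟨h1, h2⟩
      · rw [cyc_back hgw]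
        omega
      · have h3 := h.u2 y h1
        have : cyc g y = cyc w y - cyc w g := cyc_change_le (by omega)
        omega
      · rw [cyc_change_gt h2]
        omega
    have hB1A : B₁' ⊆ A.erase g := by
      intro x hx
      rw [hB1', Finset.mem_filter] at hx
      rw [Finset.mem_erase]
      refine ⟨?_, (h.m1 hx.1).1⟩
      rintro rfl
      omega
    refine ⟨g, B₁', B₂', u, ⟨hg, ⟨b, ?_⟩, h.n2.mono hsub2, ?_, ?_, ?_, ?_, h.uV, Ne.symm hgu, ?_,
      hu2g⟩, by linarith⟩
    · rw [hB1', Finset.mem_filter]; exact ⟨hb, hgb⟩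
    · exact Finset.disjoint_sdiff
    · rw [hB2']; exact Finset.union_sdiff_of_subset hB1A
    · exact fun x hx y hy => (hsepg x hx).2 y hy
    · -- lengths
      set B := insert w B₁ with hB
      have hBarc : B ⊆ Arc V w u := by
        intro x hx
        rw [hB, Finset.mem_insert] at hx
        rw [mem_Arc]
        rcases hx with rfl | hx
        · exact ⟨h.wV, by rw [cyc_self]; omega⟩
        · exact ⟨hB1V x hx, h.u1 x hx⟩
      have hBV : B ⊆ V := hBarc.trans (Arc_sub _ _ _)
      have key := hpinch N V G P hT w h.wV g hg u h.uV ⟨hgpos, hgu'⟩ hd B hBarc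
        ⟨w, by
          rw [Finset.mem_inter]
          exact ⟨Finset.mem_insert_self _ _, left_mem_Arc h.wV⟩⟩
        ⟨b, by
          rw [Finset.mem_inter]
          refine ⟨Finset.mem_insert_of_mem hb, ?_⟩
          rw [mem_Arc, cyc_change_le hgb.le, hcu]
          exact ⟨hB1V b hb, by have := h.u1 b hb; omega⟩⟩
      have hS1 : insert g (B ∩ Arc V w g) ⊆ V :=
        Finset.insert_subset hg (Finset.inter_subset_left.trans hBV)
      have hS2 : insert g (B ∩ Arc V g u) ⊆ V :=
        Finset.insert_subset hg (Finset.inter_subset_left.trans hBV)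
      have hS3 : insert w B₂ ⊆ V := Finset.insert_subset h.wV hB2V
      have i1 : Ln V G P (insert g B₁') ≤ Ln V G P (insert g (B ∩ Arc V g u)) := by
        apply hL.mono _ hS2
        apply Finset.insert_subset_insert
        intro x hx
        rw [hB1', Finset.mem_filter] at hx
        rw [Finset.mem_inter, mem_Arc, cyc_change_le hx.2.le, hcu]
        exact ⟨Finset.mem_insert_of_mem hx.1, hB1V x hx.1, by have := h.u1 x hx.1; omega⟩
      have i2 : Ln V G P (insert g B₂') ≤
          Ln V G P (insert g (B ∩ Arc V w g)) + Ln V G P (insert w B₂) := by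
        refine le_trans (hL.mono _ (Finset.union_subset hS1 hS3) _ ?_)
          (hL.sub _ hS1 _ hS3 ⟨w, ?_⟩)
        · intro x hx
          rw [Finset.mem_insert] at hx
          rw [Finset.mem_union]
          rcases hx with rfl | hx
          · exact Or.inl (Finset.mem_insert_self _ _)
          · rcases hm2 x hx with rfl | h1 | ⟨h1, h2⟩
            · exact Or.inr (Finset.mem_insert_self _ _)
            · exact Or.inr (Finset.mem_insert_of_mem h1)
            · left
              apply Finset.mem_insert_of_mem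
              rw [Finset.mem_inter, mem_Arc]
              exact ⟨Finset.mem_insert_of_mem h1, hB1V x h1, h2.le⟩
        · rw [Finset.mem_inter]
          refine ⟨Finset.mem_insert_of_mem ?_, Finset.mem_insert_self _ _⟩
          rw [Finset.mem_inter]
          exact ⟨Finset.mem_insert_self _ _, left_mem_Arc h.wV⟩
      have := h.len
      linarith
    · exact fun x hx => (hsepg x hx).1
  · by_cases c2 : ∃ c ∈ B₂, cyc w c < cyc w g
    · -- `g` is on the high side
      obtain ⟨b, hb, hgb⟩ := c2
      have hgu' : cyc w u < cyc w g := lt_of_le_of_lt (h.u2 b hb) hgb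
      set B₂' := B₂.filter (fun x => cyc w x < cyc w g) with hB2'
      set B₁' := (A.erase g) \ B₂' with hB1'
      have hcu : cyc g u = cyc w u + N - cyc w g := cyc_change_gt hgu'
      have hug : cyc u g = cyc w g - cyc w u := cyc_change_le hgu'.le
      have huw : cyc u w = N - cyc w u := cyc_back h.uw
      have hgw' : cyc g w = N - cyc w g := cyc_back hgw
      have hm1 : ∀ x ∈ B₁', x = w ∨ x ∈ B₁ ∨ (x ∈ B₂ ∧ cyc w g < cyc w x) := by
        intro x hx
        rw [hB1', Finset.mem_sdiff, Finset.mem_erase] at hx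
        rcases h.mA hx.1.2 with h1 | h1 | h1
        · exact Or.inl h1
        · exact Or.inr (Or.inl h1)
        · right; right
          refine ⟨h1, ?_⟩
          by_contra hcon
          rcases lt_or_eq_of_le (not_lt.1 hcon) with h2 | h2
          · exact hx.2 (by rw [hB2']; exact Finset.mem_filter.2 ⟨h1, h2⟩)
          · exact hx.1.1 (cyc_inj h2)
      have hsub1 : B₁ ⊆ B₁' := by
        intro x hx
        rw [hB1', Finset.mem_sdiff, Finset.mem_erase]
        refine ⟨⟨?_, (h.m1 hx).1⟩, ?_⟩
        · rintro rfl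
          have := h.u1 _ hx
          omega
        · rw [hB2', Finset.mem_filter]
          rintro ⟨h1, -⟩
          exact (Finset.disjoint_left.1 h.dj hx) h1
      have hsepg : ∀ y ∈ B₂', cyc g u ≤ cyc g y ∧ ∀ x ∈ B₁', cyc g x < cyc g y := by
        intro y hy
        rw [hB2', Finset.mem_filter] at hy
        have hyu := h.u2 y hy.1
        have hcy : cyc g y = cyc w y + N - cyc w g := cyc_change_gt hy.2
        have hyw : 0 < cyc w y := cyc_pos.2 (h.m2 hy.1).2
        refine ⟨by omega, ?_⟩
        intro x hx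
        rcases hm1 x hx with rfl | h1 | ⟨h1, h2⟩
        · rw [hgw']; omega
        · have h3 := h.sep x h1 y hy.1
          have h4 := h.u1 x h1
          have : cyc g x = cyc w x + N - cyc w g := cyc_change_gt (by omega)
          omega
        · have h3 := cyc_lt w x
          rw [cyc_change_le h2.le]
          omega
      have hu1g : ∀ x ∈ B₁', cyc g x ≤ cyc g u := by
        intro x hx
        rcases hm1 x hx with rfl | h1 | ⟨h1, h2⟩
        · rw [hgw', hcu]; omega
        · have h3 := h.u1 x h1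
          have : cyc g x = cyc w x + N - cyc w g := cyc_change_gt (by omega)
          omega
        · have h3 := cyc_lt w x
          rw [cyc_change_le h2.le, hcu]
          omega
      have hB2A : B₂' ⊆ A.erase g := by
        intro x hx
        rw [hB2', Finset.mem_filter] at hx
        rw [Finset.mem_erase]
        refine ⟨?_, (h.m2 hx.1).1⟩
        rintro rfl
        omega
      refine ⟨g, B₁', B₂', u, ⟨hg, h.n1.mono hsub1, ⟨b, ?_⟩, ?_, ?_, ?_, ?_, h.uV, Ne.symm hgu,
        hu1g, ?_⟩, by linarith⟩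
      · rw [hB2', Finset.mem_filter]; exact ⟨hb, hgb⟩
      · exact Finset.sdiff_disjoint
      · rw [hB1', Finset.union_comm]; exact Finset.union_sdiff_of_subset hB2A
      · exact fun x hx y hy => (hsepg y hy).2 x hx
      · -- lengths
        set B := insert w B₂ with hB
        have hBarc : B ⊆ Arc V u w := by
          intro x hx
          rw [hB, Finset.mem_insert] at hx
          rcases hx with rfl | hx
          · exact right_mem_Arc h.wV
          · rw [mem_Arc, huw, cyc_change_le (h.u2 x hx)]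
            exact ⟨hB2V x hx, by have := cyc_lt w x; omega⟩
        have hBV : B ⊆ V := hBarc.trans (Arc_sub _ _ _)
        have hd' : dV V G P u w = dV V G P u g + dV V G P g w := by
          rw [hsy u h.uV w h.wV, hsy u h.uV g hg, hsy g hg w h.wV, hd]; ring
        have key := hpinch N V G P hT u h.uV g hg w h.wV ⟨by omega, by omega⟩ hd' B hBarc
          ⟨b, by
            rw [Finset.mem_inter]
            refine ⟨Finset.mem_insert_of_mem hb, ?_⟩
            rw [mem_Arc, cyc_change_le (h.u2 b hb), hug]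
            exact ⟨hB2V b hb, by omega⟩⟩
          ⟨w, by
            rw [Finset.mem_inter]
            exact ⟨Finset.mem_insert_self _ _, right_mem_Arc h.wV⟩⟩
        have hS1 : insert g (B ∩ Arc V u g) ⊆ V :=
          Finset.insert_subset hg (Finset.inter_subset_left.trans hBV)
        have hS2 : insert g (B ∩ Arc V g w) ⊆ V :=
          Finset.insert_subset hg (Finset.inter_subset_left.trans hBV)
        have hS3 : insert w B₁ ⊆ V := Finset.insert_subset h.wV hB1V
        have i1 : Ln V G P (insert g B₂') ≤ Ln V G P (insert g (B ∩ Arc V u g)) := by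
          apply hL.mono _ hS1
          apply Finset.insert_subset_insert
          intro x hx
          rw [hB2', Finset.mem_filter] at hx
          rw [Finset.mem_inter, mem_Arc, cyc_change_le (h.u2 x hx.1), hug]
          exact ⟨Finset.mem_insert_of_mem hx.1, hB2V x hx.1, by omega⟩
        have i2 : Ln V G P (insert g B₁') ≤
            Ln V G P (insert w B₁) + Ln V G P (insert g (B ∩ Arc V g w)) := by
          refine le_trans (hL.mono _ (Finset.union_subset hS3 hS2) _ ?_)
            (hL.sub _ hS3 _ hS2 ⟨w, ?_⟩)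
          · intro x hx
            rw [Finset.mem_insert] at hx
            rw [Finset.mem_union]
            rcases hx with rfl | hx
            · exact Or.inr (Finset.mem_insert_self _ _)
            · rcases hm1 x hx with rfl | h1 | ⟨h1, h2⟩
              · exact Or.inl (Finset.mem_insert_self _ _)
              · exact Or.inl (Finset.mem_insert_of_mem h1)
              · right
                apply Finset.mem_insert_of_mem
                rw [Finset.mem_inter, mem_Arc, cyc_change_le h2.le, hgw']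
                exact ⟨Finset.mem_insert_of_mem h1, hB2V x h1, by have := cyc_lt w x; omega⟩
          · rw [Finset.mem_inter]
            refine ⟨Finset.mem_insert_self _ _, Finset.mem_insert_of_mem ?_⟩
            rw [Finset.mem_inter]
            exact ⟨Finset.mem_insert_self _ _, right_mem_Arc h.wV⟩
        have := h.len
        linarith
      · exact fun y hy => (hsepg y hy).1
    · -- `g` is in the gap
      push Not at c1 c2
      exact ⟨w, B₁, B₂, g, ⟨h.wV, h.n1, h.n2, h.dj, h.un, h.sep, h.len, hg, hgw, c1, c2⟩,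
        by linarith⟩

/-- at a minimal bad cut the pair `(w, u)` is clear -/
theorem bad_clear (hpinch : stPinch) {V : Finset (Fin N)} {G : SimpleGraph (Fin N)}
    {P : Fin N → ℂ} {A : Finset (Fin N)} (hA : A ⊆ V) (hT : IsTri V G) (hL : LnP V G P)
    (hsy : ∀ a ∈ V, ∀ b ∈ V, dV V G P a b = dV V G P b a)
    (htr : ∀ a ∈ V, ∀ b ∈ V, ∀ c ∈ V, dV V G P a c ≤ dV V G P a b + dV V G P b c)
    (hpos : ∀ a ∈ V, ∀ b ∈ V, a ≠ b → 0 < dV V G P a b) (h : ¬ NSsep V G P A) :
    ∃ w B₁ B₂ u, Bad V G P A w B₁ B₂ u ∧ Clear V G P w u := by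
  set S : Finset (Fin N × Fin N) := Finset.univ.filter
    (fun p => ∃ B₁ B₂, Bad V G P A p.1 B₁ B₂ p.2) with hS
  have hSn : S.Nonempty := by
    obtain ⟨w, B₁, B₂, u, hb⟩ := bad_exists hA h
    exact ⟨(w, u), by rw [hS, Finset.mem_filter]; exact ⟨Finset.mem_univ _, B₁, B₂, hb⟩⟩
  obtain ⟨p, hp, hmin⟩ := Finset.exists_min_image S (fun p => dV V G P p.1 p.2) hSn
  rw [hS, Finset.mem_filter] at hp
  obtain ⟨-, B₁, B₂, hb⟩ := hp
  refine ⟨p.1, B₁, B₂, p.2, hb, ?_⟩
  intro g hg hgw hgu
  by_contra hcon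
  have h1 : dV V G P p.1 p.2 = dV V G P p.1 g + dV V G P g p.2 :=
    le_antisymm (htr _ hb.wV _ hg _ hb.uV) (not_lt.1 hcon)
  obtain ⟨w', B₁', B₂', u', hb', hlt⟩ := bad_step hpinch hA hT hL hsy hpos hb hg hgw hgu h1
  have := hmin (w', u') (by rw [hS, Finset.mem_filter]; exact ⟨Finset.mem_univ _, B₁', B₂', hb'⟩)
  simp only at this
  linarith

end Pool.Agent.Helper18.GP
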