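import Pool.Agent.Helper18.GP.NSmin1

/-!
# Minimisers have no separated cuts
-/

namespace Pool.Agent.Helper18.GP

open Relation Classical

variable {N : ℕ}

/-- the numerical contradiction for a cut into sides `S₁` (containing `u` in its network) and
`S₂` -/
theorem cut_contra (hRet : stRet) (hGlue : stGlue) (hArc : stArcTri) {n : ℕ}
    (ih : IH N n) {V : Finset (Fin N)} {G : SimpleGraph (Fin N)} {P : Fin N → ℂ}
    {F : Fin N → Fin N → Prop} {r : ℝ} (hT : IsTri V G) (hW : Wk V G P) (hcard : V.card = n)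
    (hr0 : 0 ≤ r) (hr : r < rho) (hrho : rho < 1) (hM1 : Mst V (dV V G P) F = 1)
    (hlow : ∀ (V' : Finset (Fin N)) (G' : SimpleGraph (Fin N)) (P' : Fin N → ℂ)
      (A' : Finset (Fin N)) (F' : Fin N → Fin N → Prop), V'.card = n → Cfg V' G' P' A' F' →
      r * Mst V' (dV V' G' P') F' ≤ Ln V' G' P' A')
    {a b : Fin N} (ha : a ∈ V) (hb : b ∈ V) (hab : a ≠ b) (hadj : G.Adj a b)
    {A₁ A₂ : Finset (Fin N)} {F₁ F₂ : Fin N → Fin N → Prop} {l₁ l₂ : ℝ}
    (h1 : FA (Arc V a b) A₁ F₁) (h2 : FA (Arc V b a) A₂ F₂)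
    (hM : Mst V (dV V G P) F ≤ Mst (Arc V a b) (dV V G P) F₁ + Mst (Arc V b a) (dV V G P) F₂)
    (hl1 : Ln V G P A₁ ≤ l₁) (hl2 : Ln V G P A₂ ≤ l₂) (hl : l₁ + l₂ ≤ r)
    (hc2 : 3 ≤ (Arc V b a).card)
    (hc1 : (Arc V a b).card ≤ 2 → 0 < dV V G P a b ∧ dV V G P a b ≤ l₁ ∧
      Mst (Arc V a b) (dV V G P) F₁ ≤ dV V G P a b) : False := by
  have hca := card_Arc_add (V := V) (a := a) (c := b) (Ne.symm hab) ha hb
  have T1 := hArc N V G hT a ha b hb hadj
  have T2 := hArc N V G hT b hb a ha hadj.symm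
  have G1 := hGlue N V G P hT a ha b hb hadj
  have G2 := hGlue N V G P hT b hb a ha hadj.symm
  have C1 : Cfg (Arc V a b) G P A₁ F₁ := h1.Cfg T1 (Wk_sub hW (Arc_sub _ _ _))
  have C2 : Cfg (Arc V b a) G P A₂ F₂ := h2.Cfg T2 (Wk_sub hW (Arc_sub _ _ _))
  have D1 : ∀ x ∈ Arc V a b, ∀ y ∈ Arc V a b, dV (Arc V a b) G P x y = dV V G P x y :=
    fun x hx y hy => G1.sub _ (dl_mem G hx) _ (dl_mem G hy)
  have D2 : ∀ x ∈ Arc V b a, ∀ y ∈ Arc V b a, dV (Arc V b a) G P x y = dV V G P x y :=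
    fun x hx y hy => G2.sub _ (dl_mem G hx) _ (dl_mem G hy)
  have E1 := Mst_congr (V := Arc V a b) F₁ D1
  have E2 := Mst_congr (V := Arc V b a) F₂ D2
  have R1 := hRet N V G P hT a ha b hb hadj A₁ h1.AV
  have R2 := hRet N V G P hT b hb a ha hadj.symm A₂ h2.AV
  by_cases hs : (Arc V a b).card ≤ 2
  · obtain ⟨q1, q2, q3⟩ := hc1 hs
    have hcardab : 2 ≤ (Arc V a b).card := by
      have : ({a, b} : Finset (Fin N)) ⊆ Arc V a b := by
        intro x hx
        rw [Finset.mem_insert, Finset.mem_singleton] at hx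
        rcases hx with rfl | rfl
        · exact left_mem_Arc ha
        · exact right_mem_Arc hb
      calc 2 = ({a, b} : Finset (Fin N)).card := (Finset.card_pair hab).symm
        _ ≤ _ := Finset.card_le_card this
    have hc : (Arc V b a).card = n := by omega
    have K2 := hlow _ _ _ _ _ hc C2
    rw [E2] at K2
    have k3 : r * (1 - dV V G P a b) ≤ r * Mst (Arc V b a) (dV V G P) F₂ :=
      mul_le_mul_of_nonneg_left (by linarith) hr0
    have k4 : 0 < dV V G P a b * (1 - r) := mul_pos q1 (by linarith)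
    nlinarith
  · have hc1' : (Arc V a b).card < n := by omega
    have hc2' : (Arc V b a).card < n := by omega
    have K1 := ih _ hc1' _ _ _ _ _ rfl C1
    have K2 := ih _ hc2' _ _ _ _ _ rfl C2
    rw [E1] at K1
    rw [E2] at K2
    have hr0 : 0 < rho := by unfold rho; positivity
    nlinarith

theorem rho_lt_one : rho < 1 := by
  unfold rho
  have : Real.sqrt 3 < 2 := by
    rw [show (2 : ℝ) = Real.sqrt 4 by
      rw [show (4 : ℝ) = 2 ^ 2 by norm_num, Real.sqrt_sq (by norm_num)]]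
    exact Real.sqrt_lt_sqrt (by norm_num) (by norm_num)
  linarith

/-- spanning tree of a two-element side -/
theorem Mst_pair_le {S : Finset (Fin N)} {d : Fin N → Fin N → ℝ} {F : Fin N → Fin N → Prop}
    (hd : ∀ x ∈ S, ∀ y ∈ S, 0 ≤ d x y) {a b : Fin N} (hS : S ⊆ {a, b}) (ha : a ∈ S) (hb : b ∈ S) :
    Mst S d F ≤ d a b := by
  have : MConn S F {(a, b)} := by
    constructor
    · intro e he
      rw [Finset.mem_singleton] at he
      subst he
      exact ⟨ha, hb⟩
    · have hab : EqvGen (fun x y => (x, y) ∈ ({(a, b)} : Finset (Fin N × Fin N)) ∨ F x y) a b :=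
        EqvGen.rel _ _ (Or.inl (Finset.mem_singleton_self _))
      intro x hx y hy
      have hx' := hS hx
      have hy' := hS hy
      rw [Finset.mem_insert, Finset.mem_singleton] at hx' hy'
      rcases hx' with rfl | rfl <;> rcases hy' with rfl | rfl
      · exact EqvGen.refl _
      · exact hab
      · exact EqvGen.symm _ _ hab
      · exact EqvGen.refl _
  refine le_trans (Mst_le hd this) ?_
  simp [mw]

theorem pair_of_card {V : Finset (Fin N)} {a b : Fin N} (ha : a ∈ V) (hb : b ∈ V) (hab : a ≠ b)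
    (hc : (Arc V a b).card ≤ 2) : Arc V a b = {a, b} := by
  symm
  apply Finset.eq_of_subset_of_card_le
  · intro x hx
    rw [Finset.mem_insert, Finset.mem_singleton] at hx
    rcases hx with rfl | rfl
    · exact left_mem_Arc ha
    · exact right_mem_Arc hb
  · rw [Finset.card_pair hab]; exact hc

theorem Ccw_of_card {V : Finset (Fin N)} {a b : Fin N} (ha : a ∈ V) (hb : b ∈ V) (hab : a ≠ b)
    (hc : 3 ≤ V.card) : (∃ v ∈ V, Ccw a v b) ∨ ∃ v ∈ V, Ccw b v a := by
  have : ∃ v ∈ V, v ≠ a ∧ v ≠ b := by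
    by_contra hcon
    push Not at hcon
    have : V ⊆ {a, b} := by
      intro v hv
      rw [Finset.mem_insert, Finset.mem_singleton]
      by_cases h : v = a
      · exact Or.inl h
      · exact Or.inr (hcon v hv h)
    have := Finset.card_le_card this
    rw [Finset.card_pair hab] at this
    omega
  obtain ⟨v, hv, hva, hvb⟩ := this
  have h1 : 0 < cyc a v := cyc_pos.2 hva
  have h2 := cyc_lt a v
  rcases Nat.lt_or_ge (cyc a v) (cyc a b) with h | h
  · exact Or.inl ⟨v, hv, h1, h⟩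
  · right
    refine ⟨v, hv, cyc_pos.2 hvb, ?_⟩
    rw [cyc_back (Ne.symm hab), cyc_change_le h]
    have : 0 < cyc a b := cyc_pos.2 (Ne.symm hab)
    omega

/-- adjacent vertices of a positive disc have distinct positions -/
theorem St_ne (hApex : stApex) {V : Finset (Fin N)} {G : SimpleGraph (Fin N)} {P : Fin N → ℂ}
    (hT : IsTri V G) (hS : St V G P) (hc : 3 ≤ V.card) :
    ∀ a ∈ V, ∀ b ∈ V, a ≠ b → G.Adj a b → P a ≠ P b := by
  intro a ha b hb hab hadj heq
  rcases Ccw_of_card ha hb hab hc with h | h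
  · obtain ⟨c, ⟨hc1, hc2, hc3, hc4⟩, -⟩ := hApex N V G hT a ha b hb hadj h
    have := hS a ha c hc1 b hb hc2 hc3 hc4 hadj
    rw [heq] at this
    simp [crs] at this
  · obtain ⟨c, ⟨hc1, hc2, hc3, hc4⟩, -⟩ := hApex N V G hT b hb a ha hadj.symm h
    have := hS b hb c hc1 a ha hc2 hc3 hc4 hadj.symm
    rw [heq] at this
    simp [crs] at this

theorem stNSmin_of (hApex : stApex) (hMet : stMet) (hPos : stPos) (hGlue : stGlue)
    (hLn : stLnP) (hRet : stRet)
    (hPinch : stPinch) (hCI : stCI) (hArc : stArcTri) (hC1 : stCut1) (hC2 : stCut2)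
    (hSel : stSel) : stNSmin := by
  intro N n ih V G P A F r hM
  by_contra hcon
  have hT := hM.cfg.tri
  have hA := hM.cfg.AV
  have hc3 : 3 ≤ V.card := by rw [hM.card]; exact hM.n3
  have hMP := hMet N V G P hT
  have hL := hLn N V G P hT
  have hsy : ∀ a ∈ V, ∀ b ∈ V, dV V G P a b = dV V G P b a :=
    fun a ha b hb => hMP.symm _ (dl_mem G ha) _ (dl_mem G hb)
  have htr : ∀ a ∈ V, ∀ b ∈ V, ∀ c ∈ V, dV V G P a c ≤ dV V G P a b + dV V G P b c :=
    fun a ha b hb c hc => hMP.tri _ (dl_mem G ha) _ (dl_mem G hb) _ (dl_mem G hc)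
  have hpos : ∀ a ∈ V, ∀ b ∈ V, a ≠ b → 0 < dV V G P a b := by
    intro a ha b hb hab
    refine lt_of_le_of_ne (hMP.nonneg _ (dl_mem G ha) _ (dl_mem G hb)) ?_
    intro h0
    exact hab (dl_inj (hPos N V G P hT hM.st (St_ne hApex hT hM.st hc3) _ (dl_mem G ha) _
      (dl_mem G hb) h0.symm))
  obtain ⟨w, B₁, B₂, u, hb, hclear⟩ := bad_clear hPinch hA hT hL hsy htr hpos hcon
  -- insert the chord
  obtain ⟨G', hT', hS', hIso, hadj, -⟩ := hCI N V G P hT hM.st {(w, u)}
    (by
      intro e he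
      rw [Finset.mem_singleton] at he
      subst he
      exact ⟨hb.wV, hb.uV, Ne.symm hb.uw, hclear⟩)
    (by
      intro e he f hf
      rw [Finset.mem_singleton] at he hf
      subst he; subst hf
      unfold Crs Ccw
      simp only
      rw [cyc_self]
      omega)
  have hwu : G'.Adj w u := hadj (w, u) (Finset.mem_singleton_self _)
  have hW' := Wk_of_St hS'
  have hL' := hLn N V G' P hT'
  have hMP' := hMet N V G' P hT'
  have hd' : ∀ a ∈ V, ∀ b ∈ V, dV V G' P a b = dV V G P a b := hIso.1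
  have hdn : ∀ a ∈ V, ∀ b ∈ V, 0 ≤ dV V G' P a b ∧ dV V G' P a b = dV V G' P b a :=
    fun a ha b hb => ⟨hMP'.nonneg _ (dl_mem G' ha) _ (dl_mem G' hb),
      hMP'.symm _ (dl_mem G' ha) _ (dl_mem G' hb)⟩
  have hM1 : Mst V (dV V G' P) F = 1 := by rw [Mst_congr F hd', hM.mst]
  have hFA := hM.cfg.FA
  have hB1V : insert w B₁ ⊆ V :=
    Finset.insert_subset hb.wV (fun x hx => hA (hb.m1 hx).1)
  have hB2V : insert w B₂ ⊆ V :=
    Finset.insert_subset hb.wV (fun x hx => hA (hb.m2 hx).1)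
  have hlen : Ln V G' P (insert w B₁) + Ln V G' P (insert w B₂) ≤ r := by
    rw [hIso.2 _ hB1V, hIso.2 _ hB2V, ← hM.len]; exact hb.len
  have hlow1 : u ∈ B₁ → dV V G' P w u ≤ Ln V G' P (insert w B₁) := fun h =>
    hL'.low _ hB1V _ (Finset.mem_insert_self _ _) _ (Finset.mem_insert_of_mem h)
  have hlow2 : u ∈ B₂ → dV V G' P w u ≤ Ln V G' P (insert w B₂) := fun h =>
    hL'.low _ hB2V _ (Finset.mem_insert_self _ _) _ (Finset.mem_insert_of_mem h)
  have hposwu : 0 < dV V G' P w u := by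
    rw [hd' w hb.wV u hb.uV]; exact hpos w hb.wV u hb.uV (Ne.symm hb.uw)
  have hposuw : 0 < dV V G' P u w := by rw [← (hdn w hb.wV u hb.uV).2]; exact hposwu
  -- active vertices on the sides
  have hAlow : ∀ x ∈ A, x ∈ Arc V w u → x ≠ u → x ∈ insert w B₁ := by
    intro x hx hxa hxu
    rw [mem_Arc] at hxa
    rcases hb.mA hx with h | h | h
    · rw [h]; exact Finset.mem_insert_self _ _
    · exact Finset.mem_insert_of_mem h
    · exact absurd (cyc_inj (le_antisymm hxa.2 (hb.u2 x h))) hxu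
  have hAhigh : ∀ x ∈ A, x ∈ Arc V u w → x ≠ u → x ∈ insert w B₂ := by
    intro x hx hxa hxu
    rw [mem_Arc' hb.uw] at hxa
    rcases hb.mA hx with h | h | h
    · rw [h]; exact Finset.mem_insert_self _ _
    · rcases hxa.2 with h1 | h1
      · rw [h1]; exact Finset.mem_insert_self _ _
      · exact absurd (cyc_inj (le_antisymm (hb.u1 x h) h1)) hxu
    · exact Finset.mem_insert_of_mem h
  have hcards := card_Arc_add (V := V) (a := w) (c := u) hb.uw hb.wV hb.uV
  have hwne : w ≠ u := Ne.symm hb.uw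
  -- sizes: the side of a network not containing `u` is large
  have hbig1 : u ∉ B₁ → 3 ≤ (Arc V w u).card := by
    intro hu
    by_contra hc
    have hp := pair_of_card hb.wV hb.uV hwne (by omega)
    obtain ⟨x, hx⟩ := hb.n1
    have hx1 : x ∈ Arc V w u := by rw [mem_Arc]; exact ⟨hA (hb.m1 hx).1, hb.u1 x hx⟩
    rw [hp, Finset.mem_insert, Finset.mem_singleton] at hx1
    rcases hx1 with rfl | rfl
    · exact (hb.m1 hx).2 rfl
    · exact hu hx
  have hbig2 : u ∉ B₂ → 3 ≤ (Arc V u w).card := by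
    intro hu
    by_contra hc
    have hp := pair_of_card hb.uV hb.wV hb.uw (by omega)
    obtain ⟨x, hx⟩ := hb.n2
    have hx1 : x ∈ Arc V u w := by
      rw [mem_Arc' hb.uw]; exact ⟨hA (hb.m2 hx).1, Or.inr (hb.u2 x hx)⟩
    rw [hp, Finset.mem_insert, Finset.mem_singleton] at hx1
    rcases hx1 with rfl | rfl
    · exact hu hx
    · exact (hb.m2 hx).2 rfl
  -- first side `Arc V w u`
  have case1 : u ∉ B₂ →
      (u ∈ A ∨ ∃ a ∈ insert w (A ∩ Arc V w u), EqvGen (Fr F (Arc V w u)) u a) →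
      (u ∈ A → u ∈ B₁) → False := by
    intro huB2 hcond huA
    obtain ⟨f1, f2, f3⟩ := hC1 N V A F (dV V G' P) hdn hFA w hb.wV u hb.uV hwne hcond
    refine cut_contra hRet hGlue hArc ih hT' hW' hM.card hM.rpos.le hM.rlt rho_lt_one hM1 hM.low
      hb.wV hb.uV hwne hwu f1 f2 f3 (l₁ := Ln V G' P (insert w B₁))
      (l₂ := Ln V G' P (insert w B₂)) (hL'.mono _ hB1V _ ?_) (hL'.mono _ hB2V _ ?_) hlen
      (hbig2 huB2) ?_
    · intro x hx
      rw [Finset.mem_insert, Finset.mem_inter] at hx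
      rcases hx with h | ⟨h1, h2⟩
      · rw [h]; exact Finset.mem_insert_self _ _
      · by_cases hxu : x = u
        · subst hxu; exact Finset.mem_insert_of_mem (huA h1)
        · exact hAlow x h1 h2 hxu
    · intro x hx
      rw [Finset.mem_insert, Finset.mem_erase, Finset.mem_inter] at hx
      rcases hx with h | ⟨h0, h1, h2⟩
      · rw [h]; exact Finset.mem_insert_self _ _
      · exact hAhigh x h1 h2 h0
    · intro hc
      have hp := pair_of_card hb.wV hb.uV hwne hc
      refine ⟨hposwu, hlow1 ?_, Mst_pair_le ?_ hp.le (left_mem_Arc hb.wV) (right_mem_Arc hb.uV)⟩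
      · by_contra hu
        have := hbig1 hu
        omega
      · exact fun x hx y hy => (hdn x (Arc_sub _ _ _ hx) y (Arc_sub _ _ _ hy)).1
  have case2 : u ∉ B₁ →
      (u ∈ A ∨ ∃ a ∈ insert w (A ∩ Arc V u w), EqvGen (Fr F (Arc V u w)) u a) →
      (u ∈ A → u ∈ B₂) → False := by
    intro huB1 hcond huA
    obtain ⟨f1, f2, f3⟩ := hC2 N V A F (dV V G' P) hdn hFA w hb.wV u hb.uV hwne hcond
    refine cut_contra hRet hGlue hArc ih hT' hW' hM.card hM.rpos.le hM.rlt rho_lt_one hM1 hM.low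
      hb.uV hb.wV hb.uw hwu.symm f1 f2 f3 (l₁ := Ln V G' P (insert w B₂))
      (l₂ := Ln V G' P (insert w B₁)) (hL'.mono _ hB2V _ ?_) (hL'.mono _ hB1V _ ?_)
      (by linarith) (hbig1 huB1) ?_
    · intro x hx
      rw [Finset.mem_insert, Finset.mem_inter] at hx
      rcases hx with h | ⟨h1, h2⟩
      · rw [h]; exact Finset.mem_insert_self _ _
      · by_cases hxu : x = u
        · subst hxu; exact Finset.mem_insert_of_mem (huA h1)
        · exact hAhigh x h1 h2 hxu
    · intro x hx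
      rw [Finset.mem_insert, Finset.mem_erase, Finset.mem_inter] at hx
      rcases hx with h | ⟨h0, h1, h2⟩
      · rw [h]; exact Finset.mem_insert_self _ _
      · exact hAlow x h1 h2 h0
    · intro hc
      have hp := pair_of_card hb.uV hb.wV hb.uw hc
      refine ⟨hposuw, ?_, Mst_pair_le ?_ hp.le (left_mem_Arc hb.uV) (right_mem_Arc hb.wV)⟩
      · rw [← (hdn w hb.wV u hb.uV).2]
        apply hlow2
        by_contra hu
        have := hbig2 hu
        omega
      · exact fun x hx y hy => (hdn x (Arc_sub _ _ _ hx) y (Arc_sub _ _ _ hy)).1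
  by_cases huA : u ∈ A
  · rcases hb.mA huA with h | h | h
    · exact hb.uw h
    · exact case1 (fun h' => Finset.disjoint_left.1 hb.dj h h') (Or.inl huA) (fun _ => h)
    · exact case2 (fun h' => Finset.disjoint_left.1 hb.dj h' h) (Or.inl huA) (fun _ => h)
  · have n1 : u ∉ B₁ := fun h => huA (hb.m1 h).1
    have n2 : u ∉ B₂ := fun h => huA (hb.m2 h).1
    rcases hSel N V A F hFA w hb.wV u hb.uV hwne huA with h | h
    · exact case1 n2 (Or.inr h) (fun h => absurd h huA)
    · exact case2 n1 (Or.inr h) (fun h => absurd h huA)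

end Pool.Agent.Helper18.GP
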