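import Pool.Agent.Helper18.GP.Pinch1

/-!
# The geodesic through the pinch point, exit lemmas
-/

namespace Pool.Agent.Helper18.GP

open Relation Classical Set

variable {N : ℕ} {V : Finset (Fin N)} {G : SimpleGraph (Fin N)} {P : Fin N → ℂ}

/-- data of a geodesic `Γ = Γ₁ ∪ Γ₂` from `a` through `g` to `c` -/
structure Geo (V : Finset (Fin N)) (G : SimpleGraph (Fin N)) (P : Fin N → ℂ) (a g c : Fin N)
    (Γ₁ Γ₂ : Set (Fin N → ℝ)) : Prop where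
  aV : a ∈ V
  gV : g ∈ V
  cV : c ∈ V
  agc : Ccw a g c
  M : MetP V G P
  hd : dV V G P a c = dV V G P a g + dV V G P g c
  c1 : IsCompact Γ₁
  c2 : IsCompact Γ₂
  s1 : Γ₁ ⊆ Pts V G
  s2 : Γ₂ ⊆ Pts V G
  a1 : dl a ∈ Γ₁
  g1 : dl g ∈ Γ₁
  g2 : dl g ∈ Γ₂
  cc2 : dl c ∈ Γ₂
  j1 : JoinedIn Γ₁ (dl a) (dl g)
  j2 : JoinedIn Γ₂ (dl g) (dl c)
  lin1 : ∀ ζ ∈ Γ₁, ∀ ζ' ∈ Γ₁,
    dK V G P ζ ζ' = |dK V G P (dl a) ζ - dK V G P (dl a) ζ'|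
  lin2 : ∀ ζ ∈ Γ₂, ∀ ζ' ∈ Γ₂,
    dK V G P ζ ζ' = |dK V G P (dl a) ζ - dK V G P (dl a) ζ'|
  le1 : ∀ ζ ∈ Γ₁, dK V G P (dl a) ζ ≤ dV V G P a g
  le2 : ∀ ζ ∈ Γ₂, dV V G P a g ≤ dK V G P (dl a) ζ ∧ dK V G P (dl a) ζ ≤ dV V G P a c

theorem Geo.exists (M : MetP V G P) {a g c : Fin N} (ha : a ∈ V) (hg : g ∈ V) (hc : c ∈ V)
    (h : Ccw a g c) (hd : dV V G P a c = dV V G P a g + dV V G P g c) :
    ∃ Γ₁ Γ₂, Geo V G P a g c Γ₁ Γ₂ := by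
  have da := dl_mem G ha
  have dg := dl_mem G hg
  have dc := dl_mem G hc
  obtain ⟨T₁, k1, s1, a1, g1, j1, p1⟩ := trace M (M.att _ da _ dg)
  obtain ⟨T₂, k2, s2, g2, c2, j2, p2⟩ := trace M (M.att _ dg _ dc)
  change dK V G P (dl a) (dl c) = dK V G P (dl a) (dl g) + dK V G P (dl g) (dl c) at hd
  have hl : ∀ ζ ∈ Pts V G, ∀ ζ' ∈ Pts V G,
      |dK V G P (dl a) ζ - dK V G P (dl a) ζ'| ≤ dK V G P ζ ζ' := by
    intro ζ hζ ζ' hζ'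
    have t1 := M.tri _ da ζ hζ ζ' hζ'
    have t2 := M.tri _ da ζ' hζ' ζ hζ
    rw [M.symm ζ' hζ' ζ hζ] at t2
    rw [abs_le]
    constructor <;> linarith
  have lin1 : ∀ ζ ∈ T₁, ∀ ζ' ∈ T₁, dK V G P ζ ζ' ≤ |dK V G P (dl a) ζ - dK V G P (dl a) ζ'| := by
    have key : ∀ ζ ∈ T₁, ∀ ζ' ∈ T₁, dK V G P (dl a) ζ + dK V G P ζ ζ' + dK V G P ζ' (dl g) ≤
        dK V G P (dl a) (dl g) → dK V G P ζ ζ' ≤ |dK V G P (dl a) ζ - dK V G P (dl a) ζ'| := by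
      intro ζ hζ ζ' hζ' h1
      have h2 := M.tri _ da ζ' (s1 hζ') _ dg
      have h3 : dK V G P ζ ζ' ≤ dK V G P (dl a) ζ' - dK V G P (dl a) ζ := by linarith
      rw [abs_sub_comm]
      exact h3.trans (le_abs_self _)
    intro ζ hζ ζ' hζ'
    rcases p1 ζ hζ ζ' hζ' with h1 | h1
    · exact key ζ hζ ζ' hζ' h1
    · rw [abs_sub_comm, M.symm ζ (s1 hζ) ζ' (s1 hζ')]
      exact key ζ' hζ' ζ hζ h1
  have tau2 : ∀ ζ ∈ T₂, dK V G P (dl a) ζ = dK V G P (dl a) (dl g) + dK V G P (dl g) ζ ∧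
      dK V G P (dl g) ζ + dK V G P ζ (dl c) ≤ dK V G P (dl g) (dl c) := by
    intro ζ hζ
    have h0 : dK V G P (dl g) ζ + dK V G P ζ (dl c) ≤ dK V G P (dl g) (dl c) := by
      rcases p2 ζ hζ ζ hζ with h1 | h1 <;>
      · rw [M.self ζ (s2 hζ)] at h1
        linarith
    refine ⟨le_antisymm (M.tri _ da _ dg _ (s2 hζ)) ?_, h0⟩
    have := M.tri _ da ζ (s2 hζ) _ dc
    linarith
  have lin2 : ∀ ζ ∈ T₂, ∀ ζ' ∈ T₂, dK V G P ζ ζ' ≤ |dK V G P (dl a) ζ - dK V G P (dl a) ζ'| := by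
    have key : ∀ ζ ∈ T₂, ∀ ζ' ∈ T₂, dK V G P (dl g) ζ + dK V G P ζ ζ' + dK V G P ζ' (dl c) ≤
        dK V G P (dl g) (dl c) → dK V G P ζ ζ' ≤ |dK V G P (dl a) ζ - dK V G P (dl a) ζ'| := by
      intro ζ hζ ζ' hζ' h1
      have h2 := M.tri _ dg ζ' (s2 hζ') _ dc
      have h4 := (tau2 ζ hζ).1
      have h5 := (tau2 ζ' hζ').1
      have h3 : dK V G P ζ ζ' ≤ dK V G P (dl a) ζ' - dK V G P (dl a) ζ := by linarith
      rw [abs_sub_comm]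
      exact h3.trans (le_abs_self _)
    intro ζ hζ ζ' hζ'
    rcases p2 ζ hζ ζ' hζ' with h1 | h1
    · exact key ζ hζ ζ' hζ' h1
    · rw [abs_sub_comm, M.symm ζ (s2 hζ) ζ' (s2 hζ')]
      exact key ζ' hζ' ζ hζ h1
  refine ⟨T₁, T₂, ⟨ha, hg, hc, h, M, hd, k1, k2, s1, s2, a1, g1, g2, c2, j1, j2,
    fun ζ hζ ζ' hζ' => le_antisymm (lin1 ζ hζ ζ' hζ') (hl ζ (s1 hζ) ζ' (s1 hζ')),
    fun ζ hζ ζ' hζ' => le_antisymm (lin2 ζ hζ ζ' hζ') (hl ζ (s2 hζ) ζ' (s2 hζ')), ?_, ?_⟩⟩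
  · intro ζ hζ
    have h0 : dK V G P (dl a) ζ + dK V G P ζ (dl g) ≤ dK V G P (dl a) (dl g) := by
      rcases p1 ζ hζ ζ hζ with h1 | h1 <;>
      · rw [M.self ζ (s1 hζ)] at h1
        linarith
    have := M.nonneg ζ (s1 hζ) _ dg
    change dK V G P (dl a) ζ ≤ dK V G P (dl a) (dl g)
    linarith
  · intro ζ hζ
    obtain ⟨h1, h2⟩ := tau2 ζ hζ
    have h3 := M.nonneg _ dg ζ (s2 hζ)
    have h4 := M.nonneg ζ (s2 hζ) _ dc
    change dK V G P (dl a) (dl g) ≤ dK V G P (dl a) ζ ∧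
      dK V G P (dl a) ζ ≤ dK V G P (dl a) (dl c)
    constructor <;> linarith

variable {a g c : Fin N} {Γ₁ Γ₂ : Set (Fin N → ℝ)}

/-- complement of the geodesic -/
def Cpl (V : Finset (Fin N)) (G : SimpleGraph (Fin N)) (Γ₁ Γ₂ : Set (Fin N → ℝ)) :
    Set (Fin N → ℝ) := Pts V G \ (Γ₁ ∪ Γ₂)

/-- left region -/
def cL (V : Finset (Fin N)) (G : SimpleGraph (Fin N)) (a g : Fin N) (Γ₁ Γ₂ : Set (Fin N → ℝ))
    (x : Fin N → ℝ) : Prop :=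
  ∃ v ∈ V, Ccw a v g ∧ JoinedIn (Cpl V G Γ₁ Γ₂) x (dl v)

/-- right region -/
def cR (V : Finset (Fin N)) (G : SimpleGraph (Fin N)) (g c : Fin N) (Γ₁ Γ₂ : Set (Fin N → ℝ))
    (x : Fin N → ℝ) : Prop :=
  ∃ v ∈ V, Ccw g v c ∧ JoinedIn (Cpl V G Γ₁ Γ₂) x (dl v)

theorem Geo.da (h : Geo V G P a g c Γ₁ Γ₂) : dl a ∈ Pts V G := dl_mem G h.aV
theorem Geo.dg (h : Geo V G P a g c Γ₁ Γ₂) : dl g ∈ Pts V G := dl_mem G h.gV
theorem Geo.dc (h : Geo V G P a g c Γ₁ Γ₂) : dl c ∈ Pts V G := dl_mem G h.cV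

theorem Crs_left {a v g c : Fin N} (h1 : Ccw a v g) (h2 : Ccw a g c) : Crs a g v c :=
  Or.inl ⟨h1, h2.1, h2.2⟩

theorem Crs_right {a v g c : Fin N} (h1 : Ccw g v c) (h2 : Ccw a g c) : Crs g c v a := by
  left
  refine ⟨h1, ?_, ?_⟩
  · exact cyc_pos.2 (by rintro rfl; have := h2.2; omega)
  · have h3 := h2.1
    have h4 := h2.2
    rw [cyc_change_le h4.le, cyc_back (cyc_pos.1 h3)]
    have := cyc_lt a c
    omega

theorem Crs_lr {a v v' g c : Fin N} (h1 : Ccw a v g) (h1' : Ccw g v' c) (h2 : Ccw a g c) :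
    Crs g c v' v := by
  left
  refine ⟨h1', cyc_pos.2 ?_, ?_⟩
  · rintro rfl
    have := h2.2
    omega
  · have h3 := h1.1
    have h4 := h1.2
    have h5 := h2.2
    rw [cyc_change_le h5.le, cyc_change_gt h4]
    have := cyc_lt a c
    omega

/-- first hitting point: a path from `x` to `z` inside `T` meets the closed set `K` at a first
point `ξ` -/
theorem first_hit {X T K : Set (Fin N → ℝ)} {x z : Fin N → ℝ} (hT : T ⊆ X) (hK : IsClosed K)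
    (hj : JoinedIn T x z) (hnot : ¬ JoinedIn (X \ K) x z) :
    ∃ ξ ∈ T, ξ ∈ K ∧ JoinedIn ((X \ K) ∪ {ξ}) x ξ := by
  obtain ⟨γ, hγ⟩ := hj
  set S : Set ℝ := Icc (0 : ℝ) 1 ∩ (γ.extend ⁻¹' K) with hS
  have hSc : IsCompact S := isCompact_Icc.inter_right (hK.preimage γ.continuous_extend)
  have hSn : S.Nonempty := by
    by_contra hcon
    rw [Set.not_nonempty_iff_eq_empty] at hcon
    apply hnot
    refine ⟨γ, fun t => ⟨hT (hγ t), fun hk => ?_⟩⟩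
    have : (t : ℝ) ∈ S := by
      refine ⟨t.2, ?_⟩
      rw [mem_preimage, γ.extend_apply t.2]
      exact hk
    rw [hcon] at this
    exact this
  obtain ⟨t₀, ht₀, hmin⟩ := hSc.exists_isLeast hSn
  have hm : ∀ t ∈ Icc (0 : ℝ) 1, γ.extend t ∈ T := by
    intro t ht
    rw [γ.extend_apply ht]
    exact hγ _
  refine ⟨γ.extend t₀, hm _ ht₀.1, ht₀.2, ?_⟩
  -- the path up to `t₀`
  apply JoinedIn.ofLine (f := fun s => γ.extend (s * t₀))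
  · exact (γ.continuous_extend.comp (continuous_id.mul continuous_const)).continuousOn
  · simp
  · simp
  · rintro _ ⟨s, hs, rfl⟩
    have h1 : s * t₀ ∈ Icc (0 : ℝ) 1 :=
      ⟨mul_nonneg hs.1 ht₀.1.1, mul_le_one₀ hs.2 ht₀.1.1 ht₀.1.2⟩
    by_cases hlt : s * t₀ < t₀
    · left
      refine ⟨hT (hm _ h1), fun hk => ?_⟩
      have := hmin (show s * t₀ ∈ S from ⟨h1, hk⟩)
      linarith
    · right
      have : s * t₀ = t₀ := by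
        refine le_antisymm ?_ (not_lt.1 hlt)
        have := mul_le_mul_of_nonneg_right hs.2 ht₀.1.1
        linarith
      simp only
      rw [this]
      rfl

theorem Geo.closed (h : Geo V G P a g c Γ₁ Γ₂) : IsClosed (Γ₁ ∪ Γ₂) :=
  h.c1.isClosed.union h.c2.isClosed

/-- trace of a geodesic between two points -/
theorem geo_trace (M : MetP V G P) {x z : Fin N → ℝ} (hx : x ∈ Pts V G) (hz : z ∈ Pts V G) :
    ∃ T ⊆ Pts V G, JoinedIn T x z ∧ ∀ ζ ∈ T, dK V G P x ζ + dK V G P ζ z = dK V G P x z := by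
  obtain ⟨T, -, s, -, -, j, p⟩ := trace M (M.att x hx z hz)
  refine ⟨T, s, j, fun ζ hζ => le_antisymm ?_ (M.tri x hx ζ (s hζ) z hz)⟩
  rcases p ζ hζ ζ hζ with h1 | h1 <;>
  · rw [M.self ζ (s hζ)] at h1
    linarith

/-- a path from a left vertex first hits the geodesic in its first part -/
theorem Geo.hitL (hnc : ∀ a ∈ V, ∀ b ∈ V, ∀ c ∈ V, ∀ d ∈ V, G.Adj a b → G.Adj c d → ¬ Crs a b c d)
    (h : Geo V G P a g c Γ₁ Γ₂) {v : Fin N} (hv : v ∈ V) (hvc : Ccw a v g) {ξ : Fin N → ℝ}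
    (hξ : ξ ∈ Γ₁ ∪ Γ₂) (hj : JoinedIn (Cpl V G Γ₁ Γ₂ ∪ {ξ}) (dl v) ξ) :
    dK V G P (dl a) ξ ≤ dV V G P a g := by
  by_contra hcon
  rw [not_le] at hcon
  have hξP : ξ ∈ Pts V G := hξ.elim (fun h' => h.s1 h') (fun h' => h.s2 h')
  obtain ⟨T, hTs, hTj, hTd⟩ := geo_trace h.M hξP h.dc
  set S : Set (Fin N → ℝ) := Cpl V G Γ₁ Γ₂ ∪ {ζ ∈ Pts V G | dV V G P a g < dK V G P (dl a) ζ}
    with hS
  have hξle : dK V G P (dl a) ξ + dK V G P ξ (dl c) ≤ dK V G P (dl a) (dl c) := by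
    have h0 : ξ ∈ Γ₂ := by
      rcases hξ with h' | h'
      · have := h.le1 ξ h'
        linarith
      · exact h'
    have h1 := h.lin2 ξ h0 _ h.cc2
    have h2 := (h.le2 ξ h0).2
    change dK V G P (dl a) ξ ≤ dK V G P (dl a) (dl c) at h2
    rw [h1, abs_sub_comm, abs_of_nonneg (by linarith)]
    linarith
  have hTS : T ⊆ S := by
    intro ζ hζ
    right
    refine ⟨hTs hζ, ?_⟩
    have h1 := hTd ζ hζ
    have h2 := h.M.tri _ h.da ζ (hTs hζ) _ h.dc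
    have h3 := h.M.nonneg ξ hξP ζ (hTs hζ)
    linarith
  have j1 : JoinedIn S (dl v) ξ := by
    apply hj.mono
    rintro ζ (h' | h')
    · exact Or.inl h'
    · right
      rw [mem_singleton_iff] at h'
      rw [h']
      exact ⟨hξP, hcon⟩
  have j2 : JoinedIn S (dl v) (dl c) := j1.trans (hTj.mono hTS)
  have hSP : S ⊆ Pts V G := by
    rintro ζ (h' | h')
    · exact h'.1
    · exact h'.1
  obtain ⟨ζ, hζ1, hζ2⟩ := Pool.Agent.Helper77.GP.joined_cross hnc h.s1 hSP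
    (Crs_left hvc h.agc) h.j1 j2
  rcases hζ2 with h' | h'
  · exact h'.2 (Or.inl hζ1)
  · have := h.le1 ζ hζ1
    have := h'.2
    linarith

/-- a path from a right vertex first hits the geodesic in its second part -/
theorem Geo.hitR (hnc : ∀ a ∈ V, ∀ b ∈ V, ∀ c ∈ V, ∀ d ∈ V, G.Adj a b → G.Adj c d → ¬ Crs a b c d)
    (h : Geo V G P a g c Γ₁ Γ₂) {v : Fin N} (hv : v ∈ V) (hvc : Ccw g v c) {ξ : Fin N → ℝ}
    (hξ : ξ ∈ Γ₁ ∪ Γ₂) (hj : JoinedIn (Cpl V G Γ₁ Γ₂ ∪ {ξ}) (dl v) ξ) :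
    dV V G P a g ≤ dK V G P (dl a) ξ := by
  by_contra hcon
  rw [not_le] at hcon
  have hξP : ξ ∈ Pts V G := hξ.elim (fun h' => h.s1 h') (fun h' => h.s2 h')
  obtain ⟨T, hTs, hTj, hTd⟩ := geo_trace h.M hξP h.da
  set S : Set (Fin N → ℝ) := Cpl V G Γ₁ Γ₂ ∪ {ζ ∈ Pts V G | dK V G P (dl a) ζ < dV V G P a g}
    with hS
  have hTS : T ⊆ S := by
    intro ζ hζ
    right
    refine ⟨hTs hζ, ?_⟩
    have h1 := hTd ζ hζ
    have h3 := h.M.nonneg ξ hξP ζ (hTs hζ)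
    rw [h.M.symm ζ (hTs hζ) _ h.da, h.M.symm ξ hξP _ h.da] at h1
    linarith
  have j1 : JoinedIn S (dl v) ξ := by
    apply hj.mono
    rintro ζ (h' | h')
    · exact Or.inl h'
    · right
      rw [mem_singleton_iff] at h'
      rw [h']
      exact ⟨hξP, hcon⟩
  have j2 : JoinedIn S (dl v) (dl a) := j1.trans (hTj.mono hTS)
  have hSP : S ⊆ Pts V G := by
    rintro ζ (h' | h')
    · exact h'.1
    · exact h'.1
  obtain ⟨ζ, hζ1, hζ2⟩ := Pool.Agent.Helper77.GP.joined_cross hnc h.s2 hSP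
    (Crs_right hvc h.agc) h.j2 j2
  rcases hζ2 with h' | h'
  · exact h'.2 (Or.inr hζ1)
  · have := (h.le2 ζ hζ1).1
    have := h'.2
    linarith

/-- left and right regions are disjoint -/
theorem Geo.LR (hnc : ∀ a ∈ V, ∀ b ∈ V, ∀ c ∈ V, ∀ d ∈ V, G.Adj a b → G.Adj c d → ¬ Crs a b c d)
    (h : Geo V G P a g c Γ₁ Γ₂) {x : Fin N → ℝ} (hl : cL V G a g Γ₁ Γ₂ x)
    (hr : cR V G g c Γ₁ Γ₂ x) : False := by
  obtain ⟨v, hv, hvc, hj⟩ := hl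
  obtain ⟨v', hv', hvc', hj'⟩ := hr
  obtain ⟨ζ, hζ1, hζ2⟩ := Pool.Agent.Helper77.GP.joined_cross hnc h.s2 sdiff_subset
    (Crs_lr hvc hvc' h.agc) h.j2 (hj'.symm.trans hj)
  exact hζ2.2 (Or.inr hζ1)

/-- leaving the left region -/
theorem Geo.exitL (hnc : ∀ a ∈ V, ∀ b ∈ V, ∀ c ∈ V, ∀ d ∈ V, G.Adj a b → G.Adj c d → ¬ Crs a b c d)
    (h : Geo V G P a g c Γ₁ Γ₂) {x z : Fin N → ℝ} (hz : z ∈ Pts V G)
    (hl : cL V G a g Γ₁ Γ₂ x) (hz' : ¬ cL V G a g Γ₁ Γ₂ z) :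
    ∃ ξ ∈ Γ₁ ∪ Γ₂, dK V G P (dl a) ξ ≤ dV V G P a g ∧
      dK V G P x z = dK V G P x ξ + dK V G P ξ z := by
  obtain ⟨v, hv, hvc, hj⟩ := hl
  have hx : x ∈ Pts V G := hj.source_mem.1
  obtain ⟨T, hTs, hTj, hTd⟩ := geo_trace h.M hx hz
  obtain ⟨ξ, hξT, hξK, hξj⟩ := first_hit hTs h.closed hTj (by
    intro hcon
    exact hz' ⟨v, hv, hvc, hcon.symm.trans hj⟩)
  refine ⟨ξ, hξK, h.hitL hnc hv hvc hξK ?_, (hTd ξ hξT).symm⟩
  exact (hj.symm.mono subset_union_left).trans hξj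

/-- leaving the right region -/
theorem Geo.exitR (hnc : ∀ a ∈ V, ∀ b ∈ V, ∀ c ∈ V, ∀ d ∈ V, G.Adj a b → G.Adj c d → ¬ Crs a b c d)
    (h : Geo V G P a g c Γ₁ Γ₂) {x z : Fin N → ℝ} (hz : z ∈ Pts V G)
    (hl : cR V G g c Γ₁ Γ₂ x) (hz' : ¬ cR V G g c Γ₁ Γ₂ z) :
    ∃ ξ ∈ Γ₁ ∪ Γ₂, dV V G P a g ≤ dK V G P (dl a) ξ ∧
      dK V G P x z = dK V G P x ξ + dK V G P ξ z := by
  obtain ⟨v, hv, hvc, hj⟩ := hl
  have hx : x ∈ Pts V G := hj.source_mem.1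
  obtain ⟨T, hTs, hTj, hTd⟩ := geo_trace h.M hx hz
  obtain ⟨ξ, hξT, hξK, hξj⟩ := first_hit hTs h.closed hTj (by
    intro hcon
    exact hz' ⟨v, hv, hvc, hcon.symm.trans hj⟩)
  refine ⟨ξ, hξK, h.hitR hnc hv hvc hξK ?_, (hTd ξ hξT).symm⟩
  exact (hj.symm.mono subset_union_left).trans hξj

end Pool.Agent.Helper18.GP
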