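import Pool.Agent.Helper18.GP.Planar0
import Pool.Agent.Helper62.GP.ZipFin

/-!
# Gilbert-Pollak: the planar theorem for finite networks
-/

namespace Pool.Agent.Helper18.GP

open Pool.Agent.Helper62.GP

/-- every finite network in the plane connecting `A` has length at least `√3 / 2` times the length of
some set of pairs of points of `A` connecting `A` -/
theorem tPlanar : stPlanar := by
  obtain ⟨h1, h2, h3⟩ := Pool.Agent.Helper42.GW.rules_of tMet tLnP tAdd (t_Zip tMet tLnP) t_AnAdd2
    t_AnSign
  exact stPlanar_rules tG tMAtt tMet h1 h2 h3

end Pool.Agent.Helper18.GP
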