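import Pool.Agent.Helper18.GP.G
import Pool.Agent.Helper9.GP.PlAll
import Pool.Agent.Helper42.GW.All
import Pool.Agent.Helper62.GP.ZipAsm
import Pool.Agent.Helper62.GP.Z_ADD
import Pool.Agent.Helper62.GP.Z_AN
import Pool.Agent.Helper62.GP.Z_FAN
import Pool.Agent.Helper62.GP.Z_GOOD
import Pool.Agent.Helper62.GP.Z_ROT
import Pool.Agent.Helper62.GP.Z_STAR3
import Pool.Agent.Helper62.GP.Z_STEP
import Pool.Agent.Helper62.GP.Z_ZLN
import Pool.Agent.Helper62.GP.Z_ZTRI

/-!
# Gilbert-Pollak: the planar theorem, from the statement on the angles of the zip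
-/

namespace Pool.Agent.Helper18.GP

open Pool.Agent.Helper62.GP

theorem tAdd : stAdd := t_Add tLnP tMet

theorem tStar : stStar :=
  star_of t_Good t_StarRot (t_Star3 tMet t_AnAdd2 t_AnSign)
    (t_StarStep tMet t_AnAdd t_AnAdd2 t_AnSign tAdd)

theorem tZip_of (hA : stZipAng) : stZip :=
  zip_of t_Fan tStar t_ZipTri hA (t_ZipLn tMet tLnP t_ZipTri) t_AnSign

theorem tPlanar_of (hA : stZipAng) : stPlanar := by
  obtain ⟨h1, h2, h3⟩ := Pool.Agent.Helper42.GW.rules_of tMet tLnP tAdd (tZip_of hA) t_AnAdd2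
    t_AnSign
  exact stPlanar_rules tG tMAtt tMet h1 h2 h3

end Pool.Agent.Helper18.GP
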