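import Pool.Agent.Helper18.GP.Min2

/-!
# Gilbert-Pollak: top-level assembly
-/

namespace Pool.Agent.Helper18.GP

open Relation Classical

theorem stG_of (hmin : stMin) (hns : stNS) (hnsm : stNSmin) (hvar : stVar) (hend : stEnd)
    (hMet : stMet) : stG := by
  intro N n
  induction n using Nat.strong_induction_on with
  | _ n ih =>
    by_contra hcon
    obtain ⟨V, G, P, A, F, r, hM⟩ := hmin N n ih hcon
    have h1 := hnsm N n ih V G P A F r hM
    have h3 : 3 ≤ V.card := by rw [hM.card]; exact hM.n3
    have h2 := hns N V G P hM.cfg.tri hM.st h3 A hM.cfg.AV h1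
    have h4 := hvar N V G P hM.cfg.tri hM.st h3 A hM.cfg.AV (hM.two_le hMet) h2
    exact hend N n ih V G P A F r hM h4

/-- everything from the chapters -/
theorem stG_final
    (hArc : stArcTri) (hApex : stApex) (hMet : stMet) (hCont : stCont)
    (hGlue : stGlue) (hPos : stPos) (hCI : stCI) (hLn : stLnP) (hLnCont : stLnCont)
    (hScale : stScale) (hRet : stRet) (hPinch : stPinch) (hNS : stNS) (hVar : stVar)
    (hC1 : stCut1) (hC2 : stCut2) (hSel : stSel) (hDeg : stDeg) (hBdd : stBdd) (hEnd : stEnd) :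
    stG :=
  stG_of (stMin_of (stSmall_of hMet hLn) hDeg hBdd hMet hCont hLn hLnCont hScale) hNS
    (stNSmin_of hApex hMet hPos hGlue hLn hRet hPinch hCI hArc hC1 hC2 hSel) hVar hEnd hMet

end Pool.Agent.Helper18.GP
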